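import Mathlib

/-! Finite-dimensional modules over an algebra, Hom-dimensions, additive functions. -/

set_option autoImplicit false
set_option linter.unusedSectionVars false
set_option linter.style.haveILetI false

open Module

namespace Pool.Agent.P.MP_a7c6c4_al

/-- a module over `A`, finite-dimensional over `K` -/
structure Md (K A : Type) [Field K] [Ring A] [Algebra K A] : Type 1 where
  T : Type
  [ag : AddCommGroup T]
  [mK : Module K T]
  [mA : Module A T]
  [tw : IsScalarTower K A T]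
  [fd : FiniteDimensional K T]

attribute [instance] Md.ag Md.mK Md.mA Md.tw Md.fd

variable {K A : Type} [Field K] [Ring A] [Algebra K A]

instance : CoeSort (Md K A) Type := ⟨Md.T⟩

namespace Md

/-- submodule -/
abbrev sub (M : Md K A) (N : Submodule A M) : Md K A :=
  @Md.mk K A _ _ _ N _ _ _ _
    (FiniteDimensional.of_injective (N.subtype.restrictScalars K) N.injective_subtype)

/-- quotient -/
abbrev quo (M : Md K A) (N : Submodule A M) : Md K A :=
  @Md.mk K A _ _ _ (M ⧸ N) _ _ _ _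
    (Module.Finite.of_surjective (N.mkQ.restrictScalars K) N.mkQ_surjective)

/-- product -/
abbrev prod (M N : Md K A) : Md K A := ⟨M × N⟩

/-- power -/
abbrev pow (ι : Type) [Finite ι] (M : Md K A) : Md K A := ⟨ι → M⟩

/-- zero module -/
abbrev zero : Md K A := ⟨PUnit⟩

/-- dimension over the field -/
noncomputable def dim (M : Md K A) : ℕ := finrank K M

instance (M : Md K A) : IsNoetherian A M := isNoetherian_of_tower K inferInstance
instance (M : Md K A) : IsArtinian A M := isArtinian_of_tower K inferInstance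

instance (M N : Md K A) : FiniteDimensional K (M →ₗ[A] N) := LinearMap.finiteDimensional'

lemma dim_eq_zero {M : Md K A} : M.dim = 0 ↔ Subsingleton M := finrank_zero_iff

lemma dim_pos {M : Md K A} : 0 < M.dim ↔ Nontrivial M := finrank_pos_iff

lemma dim_le_of_inj {M N : Md K A} (f : M →ₗ[A] N) (h : Function.Injective f) : M.dim ≤ N.dim :=
  LinearMap.finrank_le_finrank_of_injective (f := f.restrictScalars K) h

lemma dim_le_of_surj {M N : Md K A} (f : M →ₗ[A] N) (h : Function.Surjective f) :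
    N.dim ≤ M.dim :=
  LinearMap.finrank_le_finrank_of_surjective (f := f.restrictScalars K) h

lemma dim_sub_lt {M : Md K A} {N : Submodule A M} (h : N ≠ ⊤) : (M.sub N).dim < M.dim := by
  have : N.restrictScalars K ≠ ⊤ := by simpa using h
  exact Submodule.finrank_lt this

lemma bij_of_inj {M : Md K A} (f : M →ₗ[A] M) (h : Function.Injective f) : Function.Bijective f :=
  ⟨h, (LinearMap.injective_iff_surjective (f := f.restrictScalars K)).mp h⟩

lemma bij_of_surj {M : Md K A} (f : M →ₗ[A] M) (h : Function.Surjective f) :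
    Function.Bijective f :=
  ⟨(LinearMap.injective_iff_surjective (f := f.restrictScalars K)).mpr h, h⟩

end Md

open Md

/-- dimension of the Hom space -/
noncomputable def hom (M N : Md K A) : ℕ := finrank K (M →ₗ[A] N)

/-- vanishing of Hom -/
def Orth (M N : Md K A) : Prop := ∀ φ : M →ₗ[A] N, φ = 0

lemma hom_eq_zero {M N : Md K A} : hom M N = 0 ↔ Orth M N := by
  rw [hom, finrank_zero_iff]
  exact ⟨fun h φ => Subsingleton.elim _ _, fun h => ⟨fun a b => by rw [h a, h b]⟩⟩

lemma hom_pos {M N : Md K A} (φ : M →ₗ[A] N) (h : φ ≠ 0) : 0 < hom M N :=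
  Nat.pos_of_ne_zero fun h0 => h (hom_eq_zero.mp h0 φ)

lemma exists_of_hom_ne {M N : Md K A} (h : hom M N ≠ 0) : ∃ φ : M →ₗ[A] N, φ ≠ 0 := by
  by_contra hc
  push Not at hc
  exact h (hom_eq_zero.mpr hc)

lemma hom_le_of_inj (X : Md K A) {M N : Md K A} (i : M →ₗ[A] N) (h : Function.Injective i) :
    hom X M ≤ hom X N := by
  refine LinearMap.finrank_le_finrank_of_injective
    (f := (LinearMap.compRight K i : (X →ₗ[A] M) →ₗ[K] (X →ₗ[A] N))) ?_
  intro a b hab
  ext x
  exact h (LinearMap.congr_fun hab x)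

lemma hom_le_of_surj (X : Md K A) {M N : Md K A} (p : M →ₗ[A] N) (h : Function.Surjective p) :
    hom N X ≤ hom M X := by
  refine LinearMap.finrank_le_finrank_of_injective
    (f := (LinearMap.lcomp K X p : (N →ₗ[A] X) →ₗ[K] (M →ₗ[A] X))) ?_
  intro a b hab
  ext x
  obtain ⟨y, rfl⟩ := h x
  exact LinearMap.congr_fun hab y

lemma hom_le_of_lift (X : Md K A) {M N : Md K A} (i : M →ₗ[A] N)
    (h : ∀ φ : X →ₗ[A] N, ∃ ψ : X →ₗ[A] M, i ∘ₗ ψ = φ) : hom X N ≤ hom X M :=
  LinearMap.finrank_le_finrank_of_surjective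
    (f := (LinearMap.compRight K i : (X →ₗ[A] M) →ₗ[K] (X →ₗ[A] N))) h

lemma hom_le_of_ext (X : Md K A) {M N : Md K A} (p : M →ₗ[A] N)
    (h : ∀ φ : M →ₗ[A] X, ∃ ψ : N →ₗ[A] X, ψ ∘ₗ p = φ) : hom M X ≤ hom N X :=
  LinearMap.finrank_le_finrank_of_surjective
    (f := (LinearMap.lcomp K X p : (N →ₗ[A] X) →ₗ[K] (M →ₗ[A] X))) h

lemma hom_congr_left {M N : Md K A} (e : M ≃ₗ[A] N) (X : Md K A) : hom M X = hom N X :=
  le_antisymm (hom_le_of_surj X e.symm.toLinearMap e.symm.surjective)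
    (hom_le_of_surj X e.toLinearMap e.surjective)

lemma hom_congr_right {M N : Md K A} (e : M ≃ₗ[A] N) (X : Md K A) : hom X M = hom X N :=
  le_antisymm (hom_le_of_inj X e.toLinearMap e.injective)
    (hom_le_of_inj X e.symm.toLinearMap e.symm.injective)

lemma hom_prod_left (M N X : Md K A) : hom (M.prod N) X = hom M X + hom N X := by
  rw [hom, hom, hom, ← finrank_prod]
  exact (LinearMap.coprodEquiv K).finrank_eq.symm

lemma hom_prod_right (M N X : Md K A) : hom X (M.prod N) = hom X M + hom X N := by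
  rw [hom, hom, hom, ← finrank_prod]
  exact (LinearMap.prodEquiv K).finrank_eq.symm

lemma hom_pow_left (ι : Type) [Fintype ι] (M X : Md K A) :
    hom (M.pow ι) X = Fintype.card ι * hom M X := by
  classical
  have := (LinearMap.lsum A (M := X) (fun _ : ι => (M : Type)) K).finrank_eq
  rw [finrank_pi_fintype] at this
  simp only [Finset.sum_const, Finset.card_univ, smul_eq_mul] at this
  exact this.symm

lemma Orth.of_surj {M N X : Md K A} (h : Orth M X) (p : M →ₗ[A] N) (hp : Function.Surjective p) :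
    Orth N X := by
  intro φ
  ext x
  obtain ⟨y, rfl⟩ := hp x
  exact LinearMap.congr_fun (h (φ ∘ₗ p)) y

lemma Orth.of_inj {M N X : Md K A} (h : Orth X N) (i : M →ₗ[A] N) (hi : Function.Injective i) :
    Orth X M := by
  intro φ
  ext x
  apply hi
  rw [LinearMap.zero_apply, map_zero]
  exact LinearMap.congr_fun (h (i ∘ₗ φ)) x

lemma orth_prod_left {M N X : Md K A} : Orth (M.prod N) X ↔ Orth M X ∧ Orth N X := by
  simp only [← hom_eq_zero, hom_prod_left, Nat.add_eq_zero_iff]

lemma orth_prod_right {M N X : Md K A} : Orth X (M.prod N) ↔ Orth X M ∧ Orth X N := by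
  simp only [← hom_eq_zero, hom_prod_right, Nat.add_eq_zero_iff]

lemma orth_of_subsingleton_left {M X : Md K A} [Subsingleton M] : Orth M X :=
  fun _ => Subsingleton.elim _ _

lemma orth_of_subsingleton_right {M X : Md K A} [Subsingleton X] : Orth M X :=
  fun _ => Subsingleton.elim _ _

/-- trace of `C` in `M` -/
def tr (C M : Md K A) : Submodule A M := ⨆ φ : C →ₗ[A] M, LinearMap.range φ

lemma range_le_tr {C M : Md K A} (φ : C →ₗ[A] M) : LinearMap.range φ ≤ tr C M :=
  le_iSup (fun φ : C →ₗ[A] M => LinearMap.range φ) φ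

lemma hom_tr (C M : Md K A) : hom C (M.sub (tr C M)) = hom C M := by
  refine le_antisymm (hom_le_of_inj C _ (tr C M).injective_subtype) ?_
  refine hom_le_of_lift C (M := M.sub (tr C M)) (tr C M).subtype fun φ => ?_
  exact ⟨φ.codRestrict _ fun x => range_le_tr φ ⟨x, rfl⟩, rfl⟩

/-- a map out of a supremum of submodules vanishes if it vanishes on each -/
lemma orth_iSup {M X : Md K A} {κ : Sort*} (N : κ → Submodule A M)
    (h : ∀ k, Orth (M.sub (N k)) X) : Orth (M.sub (⨆ k, N k)) X := by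
  intro ψ
  ext ⟨x, hx⟩
  refine Submodule.iSup_induction' N (motive := fun x hx => ψ ⟨x, hx⟩ = 0) ?_ ?_ ?_ hx
  · intro k x hx
    exact LinearMap.congr_fun (h k (ψ ∘ₗ Submodule.inclusion (le_iSup N k))) ⟨x, hx⟩
  · exact map_zero ψ
  · intro x y hx hy h1 h2
    have : (⟨x + y, add_mem hx hy⟩ : (⨆ k, N k : Submodule A M)) = ⟨x, hx⟩ + ⟨y, hy⟩ := rfl
    rw [this, map_add, h1, h2, add_zero]

lemma Orth.range {C M X : Md K A} (h : Orth C X) (φ : C →ₗ[A] M) :
    Orth (M.sub (LinearMap.range φ)) X :=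
  h.of_surj φ.rangeRestrict φ.surjective_rangeRestrict

lemma Orth.tr {C X : Md K A} (h : Orth C X) (M : Md K A) : Orth (M.sub (tr C M)) X :=
  orth_iSup _ fun φ => h.range φ

lemma orth_sup {M X : Md K A} {N N' : Submodule A M} (h : Orth (M.sub N) X)
    (h' : Orth (M.sub N') X) : Orth (M.sub (N ⊔ N')) X := by
  rw [sup_eq_iSup]
  exact orth_iSup _ fun b => by cases b <;> assumption

/-- reject of `I` in `M` -/
def rej (M I : Md K A) : Submodule A M := ⨅ φ : M →ₗ[A] I, LinearMap.ker φ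

lemma rej_le {M I : Md K A} (φ : M →ₗ[A] I) : rej M I ≤ LinearMap.ker φ :=
  iInf_le (fun φ : M →ₗ[A] I => LinearMap.ker φ) φ

lemma hom_rej (M I : Md K A) : hom (M.quo (rej M I)) I = hom M I := by
  refine le_antisymm (hom_le_of_surj I _ (rej M I).mkQ_surjective) ?_
  refine hom_le_of_ext I (N := M.quo (rej M I)) (rej M I).mkQ fun φ => ?_
  exact ⟨(rej M I).liftQ φ (rej_le φ), by ext; rfl⟩

lemma Orth.rej {C I : Md K A} (h : Orth C I) (M : Md K A) : Orth C (M.quo (rej M I)) := by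
  intro ψ
  ext x
  obtain ⟨y, hy⟩ := (Pool.Agent.P.MP_a7c6c4_al.rej M I).mkQ_surjective (ψ x)
  rw [← hy, LinearMap.zero_apply, Submodule.mkQ_apply, Submodule.Quotient.mk_eq_zero]
  refine (Submodule.mem_iInf _).mpr fun φ => ?_
  have := LinearMap.congr_fun (h ((Pool.Agent.P.MP_a7c6c4_al.rej M I).liftQ φ (rej_le φ) ∘ₗ ψ)) x
  rw [LinearMap.comp_apply, ← hy] at this
  exact this

/-- additive on short exact sequences -/
def Addi (θ : Md K A → ℤ) : Prop :=
  ∀ (L M N : Md K A) (i : L →ₗ[A] M) (p : M →ₗ[A] N), Function.Injective i →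
    Function.Surjective p → LinearMap.range i = LinearMap.ker p → θ M = θ L + θ N

namespace Addi

variable {θ η : Md K A → ℤ}

lemma add (h : Addi θ) (h' : Addi η) : Addi (θ + η) := by
  intro L M N i p h1 h2 h3
  simp only [Pi.add_apply, h L M N i p h1 h2 h3, h' L M N i p h1 h2 h3]; ring

lemma neg (h : Addi θ) : Addi (-θ) := by
  intro L M N i p h1 h2 h3
  simp only [Pi.neg_apply, h L M N i p h1 h2 h3]; ring

lemma sub (h : Addi θ) (h' : Addi η) : Addi (θ - η) := by
  rw [sub_eq_add_neg]; exact h.add h'.neg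

lemma smul (h : Addi θ) (c : ℤ) : Addi (c • θ) := by
  intro L M N i p h1 h2 h3
  simp only [Pi.smul_apply, smul_eq_mul, h L M N i p h1 h2 h3]; ring

lemma nsmul (h : Addi θ) (c : ℕ) : Addi (c • θ) := by
  rw [← natCast_zsmul]; exact h.smul c

lemma triv (h : Addi θ) (M : Md K A) [Subsingleton M] : θ M = 0 := by
  have := h M M M 0 0 (fun _ _ _ => Subsingleton.elim _ _) (fun _ => ⟨0, Subsingleton.elim _ _⟩)
    (Subsingleton.elim _ _)
  omega

lemma iso (h : Addi θ) {M N : Md K A} (e : M ≃ₗ[A] N) : θ M = θ N := by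
  have := h Md.zero M N 0 e.toLinearMap (fun _ _ _ => Subsingleton.elim _ _) e.surjective
    (by simp)
  rw [this, h.triv Md.zero, zero_add]

lemma bij (h : Addi θ) {M N : Md K A} (f : M →ₗ[A] N) (hf : Function.Bijective f) : θ M = θ N :=
  h.iso (LinearEquiv.ofBijective f hf)

lemma surj (h : Addi θ) {M N : Md K A} (p : M →ₗ[A] N) (hp : Function.Surjective p) :
    θ M = θ (M.sub (LinearMap.ker p)) + θ N :=
  h _ _ _ (LinearMap.ker p).subtype p (Submodule.injective_subtype _) hp (Submodule.range_subtype _)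

lemma quo (h : Addi θ) (M : Md K A) (N : Submodule A M) : θ M = θ (M.sub N) + θ (M.quo N) :=
  h _ _ _ N.subtype N.mkQ N.injective_subtype N.mkQ_surjective (by simp)

lemma ker_range (h : Addi θ) {M N : Md K A} (φ : M →ₗ[A] N) :
    θ M = θ (M.sub (LinearMap.ker φ)) + θ (N.sub (LinearMap.range φ)) :=
  h _ _ _ (LinearMap.ker φ).subtype φ.rangeRestrict (Submodule.injective_subtype _)
    φ.surjective_rangeRestrict (by simp)

lemma inf_map (h : Addi θ) {M N : Md K A} (φ : M →ₗ[A] N) (X : Submodule A M) :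
    θ (M.sub X) = θ (M.sub (X ⊓ LinearMap.ker φ)) + θ (N.sub (X.map φ)) := by
  refine h _ _ _ (Submodule.inclusion inf_le_left) (φ.submoduleMap X)
    (Submodule.inclusion_injective _) (φ.submoduleMap_surjective X) ?_
  ext ⟨x, hx⟩
  simp only [LinearMap.mem_range, LinearMap.mem_ker]
  constructor
  · rintro ⟨⟨y, hy⟩, h1⟩
    obtain rfl : y = x := congrArg Subtype.val h1
    exact Subtype.ext hy.2
  · intro h1
    exact ⟨⟨x, hx, congrArg Subtype.val h1⟩, rfl⟩

lemma top (h : Addi θ) (M : Md K A) : θ (M.sub ⊤) = θ M := h.iso Submodule.topEquiv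

lemma bot (h : Addi θ) (M : Md K A) : θ (M.sub ⊥) = 0 := h.triv _

lemma prod (h : Addi θ) (M N : Md K A) : θ (M.prod N) = θ M + θ N :=
  h _ _ _ (LinearMap.inl A M N) (LinearMap.snd A M N) LinearMap.inl_injective
    LinearMap.snd_surjective (LinearMap.range_inl A M N)

lemma map_inj (h : Addi θ) {M N : Md K A} (i : M →ₗ[A] N) (hi : Function.Injective i)
    (X : Submodule A M) : θ (N.sub (X.map i)) = θ (M.sub X) :=
  (h.iso (X.equivMapOfInjective i hi)).symm

lemma comap_surj (h : Addi θ) {M N : Md K A} (p : M →ₗ[A] N) (hp : Function.Surjective p)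
    (X : Submodule A N) :
    θ (M.sub (X.comap p)) = θ (M.sub (LinearMap.ker p)) + θ (N.sub X) := by
  rw [h.inf_map p, inf_eq_right.mpr (LinearMap.ker_le_comap p),
    Submodule.map_comap_eq_of_surjective hp]

/-- induction over composition series -/
lemma nonneg (h : Addi θ) (hs : ∀ S : Md K A, IsSimpleModule A S → 0 ≤ θ S) (M : Md K A) :
    0 ≤ θ M := by
  induction hn : M.dim using Nat.strong_induction_on generalizing M with
  | _ n ih =>
    by_cases hM : Subsingleton M
    · rw [h.triv M]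
    · rw [not_subsingleton_iff_nontrivial] at hM
      obtain ⟨N, hN, -⟩ := (eq_top_or_exists_le_coatom (⊥ : Submodule A M)).resolve_left bot_ne_top
      rw [h.quo M N]
      exact add_nonneg (ih _ (hn ▸ dim_sub_lt hN.1) _ rfl)
        (hs _ (isSimpleModule_iff_isCoatom.mpr hN))

lemma eq_zero (h : Addi θ) (hs : ∀ S : Md K A, IsSimpleModule A S → θ S = 0) (M : Md K A) :
    θ M = 0 := by
  have h1 := h.nonneg (fun S hS => (hs S hS).ge) M
  have h2 := h.neg.nonneg (fun S hS => by simp [hs S hS]) M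
  simp only [Pi.neg_apply] at h2
  omega

end Addi

lemma addi_dim : Addi (fun M : Md K A => (M.dim : ℤ)) := by
  intro L M N i p h1 h2 h3
  have h4 := LinearMap.finrank_range_add_finrank_ker (p.restrictScalars K)
  have h5 : LinearMap.range (p.restrictScalars K) = ⊤ := LinearMap.range_eq_top.mpr h2
  have h6 : LinearMap.ker (p.restrictScalars K) = LinearMap.range (i.restrictScalars K) := by
    rw [LinearMap.ker_restrictScalars, LinearMap.range_restrictScalars, h3]
  rw [h5, h6, finrank_top, LinearMap.finrank_range_of_inj (f := i.restrictScalars K) h1] at h4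
  simp only [Md.dim]
  omega

lemma Md.dim_lt_of_surj {M N : Md K A} (p : M →ₗ[A] N) (hp : Function.Surjective p)
    (h : ¬ Function.Injective p) : N.dim < M.dim := by
  have h1 := addi_dim.surj p hp
  have h2 : 0 < (M.sub (LinearMap.ker p)).dim :=
    dim_pos.mpr (Submodule.nontrivial_iff_ne_bot.mpr fun h0 => h (LinearMap.ker_eq_bot.mp h0))
  omega

lemma addi_hom (P : Md K A) [Projective A P] : Addi (fun N => (hom P N : ℤ)) := by
  intro L M N i p h1 h2 h3
  let F : (P →ₗ[A] M) →ₗ[K] (P →ₗ[A] N) := LinearMap.compRight K p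
  let G : (P →ₗ[A] L) →ₗ[K] (P →ₗ[A] M) := LinearMap.compRight K i
  have h4 := LinearMap.finrank_range_add_finrank_ker F
  have h5 : LinearMap.range F = ⊤ :=
    LinearMap.range_eq_top.mpr fun g => projective_lifting_property p g h2
  have hG : Function.Injective G := by
    intro a b hab
    ext x
    exact h1 (LinearMap.congr_fun hab x)
  have h6 : LinearMap.ker F = LinearMap.range G := by
    ext g
    constructor
    · intro hg
      have hx : ∀ x, g x ∈ LinearMap.range i := fun x => h3 ▸ LinearMap.congr_fun hg x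
      refine ⟨(LinearEquiv.ofInjective i h1).symm.toLinearMap ∘ₗ g.codRestrict _ hx, ?_⟩
      ext x
      exact LinearEquiv.ofInjective_symm_apply i (h := h1) ⟨g x, hx x⟩
    · rintro ⟨g, rfl⟩
      ext x
      have : i (g x) ∈ LinearMap.ker p := h3 ▸ ⟨_, rfl⟩
      exact this
  rw [h5, h6, finrank_top, LinearMap.finrank_range_of_inj hG] at h4
  simp only [hom]
  omega

/-- finitely many isomorphism classes -/
def FinIso (𝒳 : Md K A → Prop) : Prop :=
  ∃ l : List (Md K A), ∀ M, 𝒳 M → ∃ S ∈ l, Nonempty (M ≃ₗ[A] S)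

lemma FinIso.mono {𝒳 𝒴 : Md K A → Prop} (h : FinIso 𝒴) (h' : ∀ M, 𝒳 M → 𝒴 M) : FinIso 𝒳 :=
  let ⟨l, hl⟩ := h
  ⟨l, fun M hM => hl M (h' M hM)⟩

lemma FinIso.or {𝒳 𝒴 : Md K A → Prop} (h : FinIso 𝒳) (h' : FinIso 𝒴) :
    FinIso (fun M => 𝒳 M ∨ 𝒴 M) := by
  obtain ⟨l, hl⟩ := h
  obtain ⟨l', hl'⟩ := h'
  refine ⟨l ++ l', fun M hM => ?_⟩
  rcases hM with hM | hM
  · obtain ⟨S, h1, h2⟩ := hl M hM
    exact ⟨S, List.mem_append_left _ h1, h2⟩
  · obtain ⟨S, h1, h2⟩ := hl' M hM
    exact ⟨S, List.mem_append_right _ h1, h2⟩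

lemma exists_seq_of_not_finIso {𝒳 : Md K A → Prop} (h : ¬ FinIso 𝒳) :
    ∃ M : ℕ → Md K A, (∀ i, 𝒳 (M i)) ∧ ∀ i j, i ≠ j → IsEmpty (M i ≃ₗ[A] M j) := by
  have h1 : ∀ l : List (Md K A), ∃ M, 𝒳 M ∧ ∀ S ∈ l, IsEmpty (M ≃ₗ[A] S) := by
    intro l
    by_contra hc
    push Not at hc
    exact h ⟨l, hc⟩
  choose g hg1 hg2 using h1
  let L : ℕ → List (Md K A) := fun n => Nat.rec [] (fun _ l => g l :: l) n
  have hL : ∀ i j, i < j → g (L i) ∈ L j := by
    intro i j hij
    induction j with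
    | zero => omega
    | succ j ih =>
      rcases Nat.lt_succ_iff_lt_or_eq.mp hij with h2 | rfl
      · exact List.mem_cons_of_mem _ (ih h2)
      · exact List.mem_cons_self
  refine ⟨fun n => g (L n), fun n => hg1 _, fun i j hij => ?_⟩
  rcases lt_or_gt_of_ne hij with h2 | h2
  · exact ⟨fun e => (hg2 _ _ (hL i j h2)).false e.symm⟩
  · exact hg2 _ _ (hL j i h2)

lemma not_finIso_of_seq {𝒳 : Md K A → Prop} (M : ℕ → Md K A) (h1 : ∀ i, 𝒳 (M i))
    (h2 : ∀ i j, i ≠ j → IsEmpty (M i ≃ₗ[A] M j)) : ¬ FinIso 𝒳 := by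
  rintro ⟨l, hl⟩
  have : ∀ i, ∃ k : Fin l.length, Nonempty (M i ≃ₗ[A] l.get k) := by
    intro i
    obtain ⟨S, h3, h4⟩ := hl _ (h1 i)
    obtain ⟨k, rfl⟩ := List.mem_iff_get.mp h3
    exact ⟨k, h4⟩
  choose k hk using this
  obtain ⟨i, j, hij, h3⟩ := Finite.exists_ne_map_eq_of_infinite k
  obtain ⟨e⟩ := hk i
  obtain ⟨e'⟩ := hk j
  rw [h3] at e
  exact (h2 i j hij).false (e.trans e'.symm)

/-- brick -/
def Brick (M : Md K A) : Prop :=
  Nontrivial M ∧ ∀ φ : M →ₗ[A] M, φ ≠ 0 → Function.Bijective φ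

/-- there is an infinite semibrick -/
def InfSB (K A : Type) [Field K] [Ring A] [Algebra K A] : Prop :=
  ∃ M : ℕ → Md K A, (∀ i, Brick (M i)) ∧ ∀ i j, i ≠ j → Orth (M i) (M j)

lemma finIso_of_semibrick (h : ¬ InfSB K A) {𝒳 : Md K A → Prop} (h1 : ∀ M, 𝒳 M → Nontrivial M)
    (h2 : ∀ M N, 𝒳 M → 𝒳 N → ∀ φ : M →ₗ[A] N, φ ≠ 0 → Function.Bijective φ) : FinIso 𝒳 := by
  by_contra hc
  obtain ⟨M, h3, h4⟩ := exists_seq_of_not_finIso hc
  refine h ⟨M, fun i => ⟨h1 _ (h3 i), h2 _ _ (h3 i) (h3 i)⟩, fun i j hij φ => ?_⟩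
  by_contra h0
  exact (h4 i j hij).false (LinearEquiv.ofBijective φ (h2 _ _ (h3 i) (h3 j) φ h0))

end Pool.Agent.P.MP_a7c6c4_al
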