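import Mathlib

/-! Definitions used in the statements. -/

set_option autoImplicit false

open CategoryTheory

namespace Pool.Agent.P.MP_a7c6c4_al

/-- the pairing of the lattice point `[P0] - [P1]` with the module `N`:
`dim Hom(P0, N) - dim Hom(P1, N)` -/
noncomputable def pairing (K : Type) [Field K] {A : Type} [Ring A] [Algebra K A]
    (P0 P1 N : ModuleCat.{0} A) : ℤ :=
  (Module.finrank K (P0 ⟶ N) : ℤ) - (Module.finrank K (P1 ⟶ N) : ℤ)

/-- finitely generated projective -/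
def FGProj {A : Type} [Ring A] (P : ModuleCat.{0} A) : Prop :=
  Module.Finite A P ∧ Module.Projective A P

/-- `Hom(U, V[1]) = 0` in the homotopy category for the two-term complexes `f : U1 ⟶ U0` and
`g : V1 ⟶ V0`: every map `U1 ⟶ V0` is null-homotopic -/
def NoExt {A : Type} [Ring A] {U1 U0 V1 V0 : ModuleCat.{0} A} (f : U1 ⟶ U0) (g : V1 ⟶ V0) :
    Prop :=
  ∀ u : U1 ⟶ V0, ∃ (h1 : U1 ⟶ V1) (h0 : U0 ⟶ V0), u = h1 ≫ g + f ≫ h0

end Pool.Agent.P.MP_a7c6c4_al
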