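import Pool.Agent.P.MP_a7c6c4_al.Rank2
import Pool.Agent.P.MP_a7c6c4_al.Defs

/-! Translation between `ModuleCat` and the bundled modules of the development. -/

set_option autoImplicit false
set_option linter.unusedSectionVars false
set_option linter.style.haveILetI false

open Module CategoryTheory

namespace Pool.Agent.P.MP_a7c6c4_al

open Md

variable {K A : Type} [Field K] [Ring A] [Algebra K A] [FiniteDimensional K A]

/-- a finitely generated object of `ModuleCat` as a bundled module -/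
abbrev toMd (K : Type) [Field K] [Algebra K A] [FiniteDimensional K A] (M : ModuleCat.{0} A)
    (h : Module.Finite A M) : Md K A :=
  @Md.mk K A _ _ _ M _ (ModuleCat.moduleOfAlgebraModule M) _
    (ModuleCat.isScalarTower_of_algebra_moduleCat M)
    (@Module.Finite.trans K A M _ _ _ _ (ModuleCat.moduleOfAlgebraModule M) _
      (ModuleCat.isScalarTower_of_algebra_moduleCat M) _ h)

lemma finrank_hom (M N : ModuleCat.{0} A) (hM : Module.Finite A M) (hN : Module.Finite A N) :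
    finrank K (M ⟶ N) = hom (toMd K M hM) (toMd K N hN) := by
  letI := ModuleCat.moduleOfAlgebraModule (k := K) N
  letI := ModuleCat.isScalarTower_of_algebra_moduleCat (k := K) N
  exact (ModuleCat.homLinearEquiv (S := K) (M := M) (N := N)).finrank_eq

lemma finrank_hom' {M N : ModuleCat.{0} A} {M' N' : Md K A} (e : M ≃ₗ[A] M') (e' : N ≃ₗ[A] N') :
    finrank K (M ⟶ N) = hom M' N' := by
  have hM : Module.Finite A M := Module.Finite.equiv e.symm
  have hN : Module.Finite A N := Module.Finite.equiv e'.symm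
  rw [finrank_hom M N hM hN, hom_congr_left (M := toMd K M hM) e,
    hom_congr_right (M := toMd K N hN) e']

lemma pairing_eq {P0 P1 N : ModuleCat.{0} A} {Q0 Q1 N' : Md K A} (e0 : P0 ≃ₗ[A] Q0)
    (e1 : P1 ≃ₗ[A] Q1) (e : N ≃ₗ[A] N') : pairing K P0 P1 N = lat Q1 Q0 N' := by
  rw [pairing, finrank_hom' e0 e, finrank_hom' e1 e, lat]

lemma semibrick_of_infSB (h : InfSB K A) : ∃ M : ℕ → ModuleCat.{0} A,
    (∀ i, Module.Finite A (M i) ∧ Nontrivial (M i) ∧ ∀ f : M i ⟶ M i, f ≠ 0 → IsIso f) ∧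
      ∀ i j, i ≠ j → ∀ f : M i ⟶ M j, f = 0 := by
  obtain ⟨M, h1, h2⟩ := h
  refine ⟨fun i => ModuleCat.of A (M i), fun i => ⟨inferInstance, (h1 i).1, fun f hf => ?_⟩,
    fun i j hij f => ModuleCat.hom_ext (h2 i j hij f.hom)⟩
  exact (ConcreteCategory.isIso_iff_bijective f).mpr
    ((h1 i).2 f.hom fun h0 => hf (ModuleCat.hom_ext h0))

lemma not_finIso_brick (h : ∃ M : ℕ → ModuleCat.{0} A,
    (∀ i, Module.Finite A (M i) ∧ Nontrivial (M i) ∧ ∀ f : M i ⟶ M i, f ≠ 0 → IsIso f) ∧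
      ∀ i j, i ≠ j → IsEmpty (M i ≅ M j)) : ¬ FinIso (Brick : Md K A → Prop) := by
  obtain ⟨M, h1, h2⟩ := h
  refine not_finIso_of_seq (fun i => toMd K (M i) (h1 i).1)
    (fun i => ⟨(h1 i).2.1, fun φ hφ => ?_⟩) fun i j hij => ⟨fun e => (h2 i j hij).false e.toModuleIso⟩
  exact (ConcreteCategory.isIso_iff_bijective (ModuleCat.ofHom φ)).mp
    ((h1 i).2.2 (ModuleCat.ofHom φ) fun h0 => hφ (congrArg ModuleCat.Hom.hom h0))

lemma rank_two' (hall : ∀ θ : Md K A → ℤ, IsLat θ → HasFam θ) (S₁ S₂ : ModuleCat.{0} A)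
    (hS : ∀ S : ModuleCat.{0} A, IsSimpleModule A S → Nonempty (S ≅ S₁) ∨ Nonempty (S ≅ S₂)) :
    FinIso (Brick : Md K A → Prop) := by
  have h1 : ∀ S : ModuleCat.{0} A, ∃ T : Md K A, ∀ X : Md K A,
      Nonempty (ModuleCat.of A X ≅ S) → Nonempty (X ≃ₗ[A] T) := by
    intro S
    by_cases h : Module.Finite A S
    · exact ⟨toMd K S h, fun X ⟨e⟩ => ⟨e.toLinearEquiv⟩⟩
    · exact ⟨Md.zero, fun X ⟨e⟩ => absurd (Module.Finite.equiv e.toLinearEquiv) h⟩
  obtain ⟨T1, h2⟩ := h1 S₁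
  obtain ⟨T2, h3⟩ := h1 S₂
  exact rank_two hall T1 T2 fun T hT => (hS (ModuleCat.of A T) hT).imp (h2 T) (h3 T)

/-- presentation attached to a morphism of `ModuleCat` -/
abbrev toPres (K : Type) [Field K] [Algebra K A] [FiniteDimensional K A] {U1 U0 : ModuleCat.{0} A}
    (h1 : FGProj U1) (h0 : FGProj U0) (f : U1 ⟶ U0) : Pres K A :=
  @Pres.mk K A _ _ _ (toMd K U1 h1.1) (toMd K U0 h0.1) h1.2 h0.2 f.hom

lemma E0_of_noExt {U1 U0 V1 V0 : ModuleCat.{0} A} (h1 : FGProj U1) (h0 : FGProj U0)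
    (g1 : FGProj V1) (g0 : FGProj V0) {f : U1 ⟶ U0} {g : V1 ⟶ V0} (h : NoExt f g) :
    (toPres K h1 h0 f).E0 (toPres K g1 g0 g).C := by
  intro u
  obtain ⟨u', rfl⟩ := projective_lifting_property (h := h1.2) (toPres K g1 g0 g).π u
    (Pres.π_surj _)
  obtain ⟨a, b, hab⟩ := h (ModuleCat.ofHom u')
  refine ⟨(toPres K g1 g0 g).π ∘ₗ b.hom, LinearMap.ext fun x => ?_⟩
  have h2 : u' x = g.hom (a.hom x) + b.hom (f.hom x) :=
    LinearMap.congr_fun (congrArg ModuleCat.Hom.hom hab) x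
  rw [LinearMap.comp_apply, LinearMap.comp_apply, LinearMap.comp_apply, h2, map_add]
  rw [show (toPres K g1 g0 g).π (g.hom (a.hom x)) = 0 from (toPres K g1 g0 g).π_f _, zero_add]

lemma noExt_of_E0 (U : Pres K A) (h : U.E0 U.C) :
    NoExt (ModuleCat.ofHom U.f) (ModuleCat.ofHom U.f) := by
  intro u
  obtain ⟨k, hk⟩ := h (U.π ∘ₗ u.hom)
  obtain ⟨b, rfl⟩ := projective_lifting_property U.π k U.π_surj
  obtain ⟨a, ha⟩ := lift_range U.f (u.hom - b ∘ₗ U.f) fun x => by
    rw [← Submodule.Quotient.mk_eq_zero]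
    change U.π (u.hom x - b (U.f x)) = 0
    rw [map_sub, sub_eq_zero]
    exact (LinearMap.congr_fun hk x).symm
  refine ⟨ModuleCat.ofHom a, ModuleCat.ofHom b, ModuleCat.hom_ext (LinearMap.ext fun x => ?_)⟩
  change u.hom x = U.f (a x) + b (U.f x)
  rw [ha]; simp

lemma exists_int_stable {θ η : Md K A → ℤ} {M : Md K A} (c : ℤ)
    (hb : ∀ N : Submodule A M, |θ (M.sub N)| ≤ c ∧ |η (M.sub N)| ≤ c) (hM : Nontrivial M)
    (a b : ℝ) (h0 : a * θ M + b * η M = 0)
    (h1 : ∀ N : Submodule A M, N ≠ ⊥ → N ≠ ⊤ → a * θ (M.sub N) + b * η (M.sub N) < 0) :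
    ∃ a' b' : ℤ, Stable (a' • θ + b' • η) M := by
  classical
  by_cases h : θ M = 0 ∧ η M = 0
  · let F : Finset (ℤ × ℤ) := (Finset.Icc (-c) c ×ˢ Finset.Icc (-c) c).filter
      fun p => a * p.1 + b * p.2 < 0
    have hopen : IsOpen (⋂ p ∈ F, {z : ℝ × ℝ | z.1 * p.1 + z.2 * p.2 < 0}) :=
      isOpen_biInter_finset fun p _ => isOpen_lt (by fun_prop) continuous_const
    obtain ⟨⟨q, r⟩, hq⟩ := ((Rat.denseRange_cast (𝕜 := ℝ)).prodMap
      (Rat.denseRange_cast (𝕜 := ℝ))).exists_mem_open hopen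
      ⟨(a, b), Set.mem_iInter₂.mpr fun p hp => (Finset.mem_filter.mp hp).2⟩
    refine ⟨q.num * r.den, r.num * q.den, hM, by simp [h.1, h.2], fun N h2 h3 => ?_⟩
    have h4 : (θ (M.sub N), η (M.sub N)) ∈ F := by
      simp only [F, Finset.mem_filter, Finset.mem_product, Finset.mem_Icc, ← abs_le]
      exact ⟨hb N, h1 N h2 h3⟩
    have h5 : (q : ℝ) * θ (M.sub N) + r * η (M.sub N) < 0 := Set.mem_iInter₂.mp hq _ h4
    have h6 : q * θ (M.sub N) + r * η (M.sub N) < 0 := by exact_mod_cast h5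
    have h7 : ((q.num * r.den * θ (M.sub N) + r.num * q.den * η (M.sub N) : ℤ) : ℚ)
        = q.den * r.den * (q * θ (M.sub N) + r * η (M.sub N)) := by
      push_cast
      rw [← Rat.mul_den_eq_num q, ← Rat.mul_den_eq_num r]
      ring
    have h8 := mul_neg_of_pos_of_neg (show (0 : ℚ) < q.den * r.den by positivity) h6
    rw [← h7] at h8
    simp only [Pi.add_apply, Pi.smul_apply, smul_eq_mul]
    exact_mod_cast h8
  · have hne : (0 : ℝ) < (θ M : ℝ) ^ 2 + (η M : ℝ) ^ 2 := by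
      rcases not_and_or.mp h with h | h
      · have : (θ M : ℝ) ≠ 0 := by exact_mod_cast h
        positivity
      · have : (η M : ℝ) ≠ 0 := by exact_mod_cast h
        positivity
    set t : ℝ := a * η M - b * θ M with ht
    have e1 : ∀ u v : ℝ, ((θ M : ℝ) ^ 2 + (η M : ℝ) ^ 2) * (a * u + b * v)
        = t * (η M * u - θ M * v) := by
      intro u v
      rw [ht]
      linear_combination (θ M * u + η M * v) * h0
    rcases lt_trichotomy t 0 with h2 | h2 | h2
    · refine ⟨-η M, θ M, hM, by simp [mul_comm], fun N h3 h4 => ?_⟩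
      have h5 := mul_neg_of_pos_of_neg hne (h1 N h3 h4)
      rw [e1] at h5
      have h6 : (0 : ℝ) < η M * θ (M.sub N) - θ M * η (M.sub N) := by
        by_contra hc
        nlinarith
      have h7 : (0 : ℤ) < η M * θ (M.sub N) - θ M * η (M.sub N) := by exact_mod_cast h6
      simp only [Pi.add_apply, Pi.smul_apply, smul_eq_mul]
      linarith
    · refine ⟨0, 0, hM, by simp, fun N h3 h4 => ?_⟩
      have h5 := mul_neg_of_pos_of_neg hne (h1 N h3 h4)
      rw [e1, h2, zero_mul] at h5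
      exact absurd h5 (lt_irrefl _)
    · refine ⟨η M, -θ M, hM, by simp [mul_comm], fun N h3 h4 => ?_⟩
      have h5 := mul_neg_of_pos_of_neg hne (h1 N h3 h4)
      rw [e1] at h5
      have h6 : (η M : ℝ) * θ (M.sub N) - θ M * η (M.sub N) < 0 := by
        by_contra hc
        nlinarith
      have h7 : η M * θ (M.sub N) - θ M * η (M.sub N) < 0 := by exact_mod_cast h6
      simp only [Pi.add_apply, Pi.smul_apply, smul_eq_mul]
      linarith

lemma abs_lat_le (P Q M : Md K A) (N : Submodule A M) :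
    |lat P Q (M.sub N)| ≤ hom P M + hom Q M := by
  have h1 := hom_le_of_inj P (M := M.sub N) N.subtype N.injective_subtype
  have h2 := hom_le_of_inj Q (M := M.sub N) N.subtype N.injective_subtype
  rw [lat, abs_le]
  omega

end Pool.Agent.P.MP_a7c6c4_al
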