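import Pool.Agent.P.MP_a7c6c4_al.Pot

/-! Decomposition of presentations into indecomposables, test bricks, independence of classes. -/

set_option autoImplicit false
set_option linter.unusedSectionVars false
set_option linter.style.haveILetI false

open Module

namespace Pool.Agent.P.MP_a7c6c4_al

open Md

variable {K A : Type} [Field K] [Ring A] [Algebra K A]

/-- chain map -/
def IsCh (U V : Pres K A) (a1 : U.P1 →ₗ[A] V.P1) (a0 : U.P0 →ₗ[A] V.P0) : Prop :=
  ∀ x, V.f (a1 x) = a0 (U.f x)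

/-- every chain endomorphism is nilpotent or bijective -/
def Indec (U : Pres K A) : Prop :=
  ∀ (a1 : Module.End A U.P1) (a0 : Module.End A U.P0), IsCh U U a1 a0 →
    (IsNilpotent a1 ∧ IsNilpotent a0) ∨ (Function.Bijective a1 ∧ Function.Bijective a0)

/-- retract -/
def Retr (X U : Pres K A) : Prop :=
  ∃ i1 i0 p1 p0, IsCh X U i1 i0 ∧ IsCh U X p1 p0 ∧ (∀ x, p1 (i1 x) = x) ∧ ∀ x, p0 (i0 x) = x

lemma IsCh.comp {U V W : Pres K A} {a1 a0 b1 b0} (ha : IsCh U V a1 a0) (hb : IsCh V W b1 b0) :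
    IsCh U W (b1 ∘ₗ a1) (b0 ∘ₗ a0) := fun x => by
  rw [LinearMap.comp_apply, hb, ha]; rfl

lemma IsCh.pow {U : Pres K A} {a1 : Module.End A U.P1} {a0 : Module.End A U.P0}
    (ha : IsCh U U a1 a0) (n : ℕ) : IsCh U U (a1 ^ n) (a0 ^ n) := by
  induction n with
  | zero => intro x; rfl
  | succ n ih => rw [pow_succ, pow_succ]; exact ha.comp ih

lemma Retr.refl (U : Pres K A) : Retr U U :=
  ⟨LinearMap.id, LinearMap.id, LinearMap.id, LinearMap.id, fun _ => rfl, fun _ => rfl,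
    fun _ => rfl, fun _ => rfl⟩

lemma Retr.trans {X Y Z : Pres K A} (h : Retr X Y) (h' : Retr Y Z) : Retr X Z := by
  obtain ⟨i1, i0, p1, p0, h1, h2, h3, h4⟩ := h
  obtain ⟨j1, j0, q1, q0, g1, g2, g3, g4⟩ := h'
  exact ⟨_, _, _, _, h1.comp g1, g2.comp h2, fun x => by simp [g3, h3], fun x => by simp [g4, h4]⟩

lemma Retr.E0 {X U : Pres K A} (h : Retr X U) {N : Md K A} (hU : U.E0 N) : X.E0 N := by
  obtain ⟨i1, i0, p1, p0, h1, h2, h3, h4⟩ := h
  intro g
  obtain ⟨k, hk⟩ := hU (g ∘ₗ p1)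
  refine ⟨k ∘ₗ i0, ?_⟩
  ext x
  have := LinearMap.congr_fun hk (i1 x)
  simp only [LinearMap.comp_apply] at this ⊢
  rw [← h1, this, h3]

/-- induced map on cokernels -/
def IsCh.ind {U V : Pres K A} {a1 a0} (h : IsCh U V a1 a0) : U.C →ₗ[A] V.C :=
  Submodule.mapQ _ _ a0 (by rintro _ ⟨x, rfl⟩; exact ⟨a1 x, h x⟩)

lemma IsCh.ind_π {U V : Pres K A} {a1 a0} (h : IsCh U V a1 a0) (x : U.P0) :
    h.ind (U.π x) = V.π (a0 x) := rfl

lemma Retr.surj {X U : Pres K A} (h : Retr X U) :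
    ∃ p : U.C →ₗ[A] X.C, Function.Surjective p := by
  obtain ⟨i1, i0, p1, p0, h1, h2, h3, h4⟩ := h
  refine ⟨h2.ind, fun y => ?_⟩
  obtain ⟨x, rfl⟩ := X.π_surj y
  exact ⟨U.π (i0 x), by rw [h2.ind_π, h4]⟩

lemma Pres.E0.of_surj {U : Pres K A} {M N : Md K A} (h : U.E0 M) (p : M →ₗ[A] N)
    (hp : Function.Surjective p) : U.E0 N := by
  intro g
  obtain ⟨g', rfl⟩ := projective_lifting_property p g hp
  obtain ⟨k, rfl⟩ := h g'
  exact ⟨p ∘ₗ k, rfl⟩

lemma lift_range {P M N : Md K A} [Projective A P] (f : M →ₗ[A] N) (g : P →ₗ[A] N)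
    (h : ∀ x, g x ∈ LinearMap.range f) : ∃ k : P →ₗ[A] M, ∀ x, f (k x) = g x := by
  obtain ⟨k, hk⟩ := projective_lifting_property f.rangeRestrict (g.codRestrict _ h)
    f.surjective_rangeRestrict
  exact ⟨k, fun x => congrArg Subtype.val (LinearMap.congr_fun hk x)⟩

lemma lift_ch {U V : Pres K A} (γ : U.C →ₗ[A] V.C) :
    ∃ a1 a0, IsCh U V a1 a0 ∧ ∀ x, γ (U.π x) = V.π (a0 x) := by
  obtain ⟨a0, h0⟩ := projective_lifting_property V.π (γ ∘ₗ U.π) V.π_surj
  have h1 : ∀ x, γ (U.π x) = V.π (a0 x) := fun x => (LinearMap.congr_fun h0 x).symm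
  obtain ⟨a1, h2⟩ := lift_range V.f (a0 ∘ₗ U.f) (fun x => by
    rw [← Submodule.Quotient.mk_eq_zero]
    exact (h1 (U.f x)).symm.trans (by rw [U.π_f, map_zero]))
  exact ⟨a1, a0, h2, h1⟩

lemma Pres.lift {U : Pres K A} {M N : Md K A} (p : M →ₗ[A] N) (hp : Function.Surjective p)
    (h : U.E0 (M.sub (LinearMap.ker p))) (φ : U.C →ₗ[A] N) :
    ∃ ψ : U.C →ₗ[A] M, ∀ x, p (ψ x) = φ x := by
  obtain ⟨k, hk⟩ := projective_lifting_property p (φ ∘ₗ U.π) hp
  have h1 : ∀ x, p (k x) = φ (U.π x) := fun x => LinearMap.congr_fun hk x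
  obtain ⟨h', hh⟩ := h ((k ∘ₗ U.f).codRestrict (LinearMap.ker p) (fun x => by
    rw [LinearMap.mem_ker, LinearMap.comp_apply, h1, U.π_f, map_zero]))
  refine ⟨(LinearMap.range U.f).liftQ (k - (LinearMap.ker p).subtype ∘ₗ h') ?_, ?_⟩
  · rintro _ ⟨x, rfl⟩
    rw [LinearMap.mem_ker, LinearMap.sub_apply, sub_eq_zero]
    exact (congrArg Subtype.val (LinearMap.congr_fun hh x)).symm
  · intro y
    obtain ⟨x, rfl⟩ := U.π_surj y
    change p (k x - (h' x : M)) = _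
    rw [map_sub, h1, (h' x).2, sub_zero]

lemma nilp_swap {M N : Md K A} (a : M →ₗ[A] N) (b : N →ₗ[A] M)
    (h : IsNilpotent (a ∘ₗ b : Module.End A N)) : IsNilpotent (b ∘ₗ a : Module.End A M) := by
  obtain ⟨n, hn⟩ := h
  have : ∀ k : ℕ, ((b ∘ₗ a : Module.End A M) ^ (k + 1))
      = b ∘ₗ ((a ∘ₗ b : Module.End A N) ^ k) ∘ₗ a := by
    intro k
    induction k with
    | zero => rfl
    | succ k ih => rw [pow_succ, ih, pow_succ]; rfl
  exact ⟨n + 1, by rw [this, hn]; simp⟩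

lemma eq_zero_of_nilp {M N : Md K A} {γ : Module.End A M} (h : IsNilpotent γ) (φ : M →ₗ[A] N)
    (h1 : ∀ x, φ (γ x) = φ x) : φ = 0 := by
  obtain ⟨n, hn⟩ := h
  have : ∀ (k : ℕ) x, φ ((γ ^ k) x) = φ x := by
    intro k
    induction k with
    | zero => intro x; rfl
    | succ k ih => intro x; rw [pow_succ', Module.End.mul_apply, h1, ih]
  ext x
  rw [← this n x, hn]; simp

lemma subsingleton_of_nilp {M : Md K A} {γ : Module.End A M} (h : IsNilpotent γ)
    (h1 : Function.Surjective γ) : Subsingleton M := by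
  obtain ⟨n, hn⟩ := h
  have h2 : Function.Surjective (γ ^ n) := by
    rw [Module.End.coe_pow]; exact h1.iterate n
  refine ⟨fun x y => ?_⟩
  obtain ⟨x, rfl⟩ := h2 x
  obtain ⟨y, rfl⟩ := h2 y
  rw [hn]; rfl

lemma same_ch {U V : Pres K A} (hU : Indec U) (hV : Indec V) {a1 a0 b1 b0}
    (ha : IsCh U V a1 a0) (hb : IsCh V U b1 b0)
    (h : ¬ (IsNilpotent (b1 ∘ₗ a1 : Module.End A U.P1) ∧
      IsNilpotent (b0 ∘ₗ a0 : Module.End A U.P0))) : U.th = V.th := by
  obtain ⟨h1, h0⟩ := (hU _ _ (ha.comp hb)).resolve_left h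
  obtain ⟨g1, g0⟩ := (hV _ _ (hb.comp ha)).resolve_left
    (fun h' => h ⟨nilp_swap _ _ h'.1, nilp_swap _ _ h'.2⟩)
  funext N
  rw [Pres.th, Pres.th,
    hom_congr_left (LinearEquiv.ofBijective a1 ⟨Function.Injective.of_comp (f := b1) h1.1,
      Function.Surjective.of_comp (g := b1) g1.2⟩),
    hom_congr_left (LinearEquiv.ofBijective a0 ⟨Function.Injective.of_comp (f := b0) h0.1,
      Function.Surjective.of_comp (g := b0) g0.2⟩)]

lemma nilp_of_π {U : Pres K A} {γ : Module.End A U.C} {a0 : Module.End A U.P0}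
    (h : ∀ x, γ (U.π x) = U.π (a0 x)) (h0 : IsNilpotent a0) : IsNilpotent γ := by
  obtain ⟨n, hn⟩ := h0
  have : ∀ (k : ℕ) x, (γ ^ k) (U.π x) = U.π ((a0 ^ k) x) := by
    intro k
    induction k with
    | zero => intro x; rfl
    | succ k ih => intro x; rw [pow_succ', pow_succ', Module.End.mul_apply, ih, h]; rfl
  refine ⟨n, LinearMap.ext fun y => ?_⟩
  obtain ⟨x, rfl⟩ := U.π_surj y
  rw [this, hn]; rfl

lemma same_mod {U V : Pres K A} (hU : Indec U) (hV : Indec V) (α : U.C →ₗ[A] V.C)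
    (β : V.C →ₗ[A] U.C) (h : ¬ IsNilpotent (β ∘ₗ α : Module.End A U.C)) : U.th = V.th := by
  obtain ⟨a1, a0, ha, ha'⟩ := lift_ch α
  obtain ⟨b1, b0, hb, hb'⟩ := lift_ch β
  refine same_ch hU hV ha hb fun h' => h (nilp_of_π (fun x => ?_) h'.2)
  rw [LinearMap.comp_apply, ha', hb']; rfl

/-- every endomorphism is nilpotent or bijective -/
def LocEnd (C : Md K A) : Prop :=
  ∀ γ : Module.End A C, IsNilpotent γ ∨ Function.Bijective γ

lemma Indec.locEnd {U : Pres K A} (hU : Indec U) : LocEnd U.C := by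
  intro γ
  obtain ⟨a1, a0, ha, ha'⟩ := lift_ch γ
  rcases hU _ _ ha with h | h
  · exact Or.inl (nilp_of_π ha' h.2)
  · refine Or.inr (bij_of_surj γ fun y => ?_)
    obtain ⟨x, rfl⟩ := U.π_surj y
    obtain ⟨x, rfl⟩ := h.2.2 x
    exact ⟨_, ha' x⟩

lemma socle_trick {C Y : Md K A} (hC : LocEnd C) (φ0 : C →ₗ[A] Y) (h0 : φ0 ≠ 0) :
    ∃ φ : C →ₗ[A] Y, φ ≠ 0 ∧ ∀ γ : Module.End A C, IsNilpotent γ → φ ∘ₗ γ = 0 := by
  classical
  let R : (C →ₗ[A] Y) → Submodule K (C →ₗ[A] Y) := fun φ =>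
    LinearMap.range (LinearMap.compRight K φ : (C →ₗ[A] C) →ₗ[K] (C →ₗ[A] Y))
  have hex : ∃ n, ∃ φ : C →ₗ[A] Y, φ ≠ 0 ∧ finrank K (R φ) = n := ⟨_, φ0, h0, rfl⟩
  obtain ⟨φ, h1, h2⟩ := Nat.find_spec hex
  refine ⟨φ, h1, fun γ hγ => ?_⟩
  by_contra hc
  have h3 : R (φ ∘ₗ γ) ≤ R φ := by
    rintro _ ⟨δ, rfl⟩
    exact ⟨γ ∘ₗ δ, rfl⟩
  have h4 : R (φ ∘ₗ γ) = R φ :=
    Submodule.eq_of_le_of_finrank_le h3 (h2 ▸ Nat.find_min' hex ⟨_, hc, rfl⟩)
  obtain ⟨δ, hδ⟩ : φ ∈ R (φ ∘ₗ γ) := h4 ▸ ⟨LinearMap.id, rfl⟩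
  rcases hC (γ ∘ₗ δ) with h | h
  · exact h1 (eq_zero_of_nilp h φ fun x => LinearMap.congr_fun hδ x)
  · haveI := subsingleton_of_nilp hγ (Function.Surjective.of_comp (g := δ) h.2)
    exact h1 (Subsingleton.elim _ _)

lemma proj_of_isCompl {P : Md K A} [Projective A P] {X Y : Submodule A P} (h : IsCompl X Y) :
    Projective A (P.sub X) :=
  Projective.of_split X.subtype (Submodule.projectionOnto X Y h)
    (Submodule.projectionOnto_comp_subtype h)

/-- restriction to a direct summand -/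
noncomputable def Pres.res (U : Pres K A) {X1 Y1 : Submodule A U.P1} {X0 Y0 : Submodule A U.P0}
    (h1 : IsCompl X1 Y1) (h0 : IsCompl X0 Y0) (hX : ∀ x ∈ X1, U.f x ∈ X0) : Pres K A :=
  @Pres.mk K A _ _ _ (U.P1.sub X1) (U.P0.sub X0) (proj_of_isCompl h1) (proj_of_isCompl h0)
    (U.f.restrict hX)

lemma Pres.res_retr (U : Pres K A) {X1 Y1 : Submodule A U.P1} {X0 Y0 : Submodule A U.P0}
    (h1 : IsCompl X1 Y1) (h0 : IsCompl X0 Y0) (hX : ∀ x ∈ X1, U.f x ∈ X0)
    (hY : ∀ x ∈ Y1, U.f x ∈ Y0) : Retr (U.res h1 h0 hX) U := by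
  refine ⟨X1.subtype, X0.subtype, Submodule.projectionOnto X1 Y1 h1,
    Submodule.projectionOnto X0 Y0 h0, fun _ => rfl, fun z => ?_,
    fun x => Submodule.projectionOnto_apply_left h1 x,
    fun x => Submodule.projectionOnto_apply_left h0 x⟩
  obtain ⟨x, hx, y, hy, rfl⟩ := Submodule.mem_sup.mp (h1.sup_eq_top ▸ Submodule.mem_top (x := z))
  have e1 := Submodule.projectionOnto_apply_left h1 ⟨x, hx⟩
  have e2 := Submodule.projectionOnto_apply_of_mem_right h1 hy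
  have e3 := Submodule.projectionOnto_apply_left h0 ⟨U.f x, hX x hx⟩
  have e4 := Submodule.projectionOnto_apply_of_mem_right h0 (hY y hy)
  change (U.f.restrict hX) (Submodule.projectionOnto X1 Y1 h1 (x + y))
    = Submodule.projectionOnto X0 Y0 h0 (U.f (x + y))
  rw [map_add, e2, add_zero, map_add U.f, map_add, e4, add_zero]
  exact (congrArg _ e1).trans e3.symm

lemma hom_isCompl {P : Md K A} {X Y : Submodule A P} (h : IsCompl X Y) (N : Md K A) :
    hom P N = hom (P.sub X) N + hom (P.sub Y) N := by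
  rw [← hom_prod_left]
  exact (hom_congr_left (M := (P.sub X).prod (P.sub Y)) (Submodule.prodEquivOfIsCompl X Y h) N).symm

lemma dim_isCompl {P : Md K A} {X Y : Submodule A P} (h : IsCompl X Y) :
    P.dim = (P.sub X).dim + (P.sub Y).dim := by
  have h1 := addi_dim.iso (M := (P.sub X).prod (P.sub Y)) (Submodule.prodEquivOfIsCompl X Y h)
  have h2 := addi_dim.prod (P.sub X) (P.sub Y)
  omega

theorem decomp (U : Pres K A) : ∃ L : List (Pres K A), (∀ X ∈ L, Indec X ∧ Retr X U) ∧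
    ∀ N, U.th N = (L.map fun X => X.th N).sum := by
  induction hn : U.P1.dim + U.P0.dim using Nat.strong_induction_on generalizing U with
  | _ n ih =>
    by_cases hU : Indec U
    · exact ⟨[U], by simpa using ⟨hU, Retr.refl U⟩, by simp⟩
    simp only [Indec, not_forall, not_or] at hU
    obtain ⟨a1, a0, ha, hn1, hn2⟩ := hU
    obtain ⟨m, ⟨h1, h0⟩, hm⟩ := ((a1.eventually_isCompl_ker_pow_range_pow.and
      a0.eventually_isCompl_ker_pow_range_pow).and (Filter.eventually_gt_atTop 0)).exists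
    have hc := ha.pow m
    have hX : ∀ x ∈ LinearMap.ker (a1 ^ m), U.f x ∈ LinearMap.ker (a0 ^ m) := by
      intro x hx
      rw [LinearMap.mem_ker, ← hc, LinearMap.mem_ker.mp hx, map_zero]
    have hY : ∀ x ∈ LinearMap.range (a1 ^ m), U.f x ∈ LinearMap.range (a0 ^ m) := by
      rintro _ ⟨x, rfl⟩
      exact ⟨_, (hc x).symm⟩
    have d1 := dim_isCompl h1
    have d0 := dim_isCompl h0
    have hk : 0 < (U.P1.sub (LinearMap.ker (a1 ^ m))).dim
        + (U.P0.sub (LinearMap.ker (a0 ^ m))).dim := by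
      by_contra hc
      apply hn2
      have inj : ∀ {M : Md K A} (a : Module.End A M), (M.sub (LinearMap.ker (a ^ m))).dim = 0 →
          Function.Bijective a := by
        intro M a h
        have h2 : LinearMap.ker (a ^ m) = ⊥ := Submodule.subsingleton_iff_eq_bot.mp (dim_eq_zero.mp h)
        refine bij_of_inj a ?_
        have h3 := LinearMap.ker_eq_bot.mp h2
        obtain ⟨k, rfl⟩ := Nat.exists_eq_succ_of_ne_zero hm.ne'
        rw [pow_succ] at h3
        exact Function.Injective.of_comp (f := ⇑(a ^ k)) h3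
      exact ⟨inj a1 (by omega), inj a0 (by omega)⟩
    have hr : 0 < (U.P1.sub (LinearMap.range (a1 ^ m))).dim
        + (U.P0.sub (LinearMap.range (a0 ^ m))).dim := by
      by_contra hc
      apply hn1
      have nil : ∀ {M : Md K A} (a : Module.End A M), (M.sub (LinearMap.range (a ^ m))).dim = 0 →
          IsNilpotent a := by
        intro M a h
        exact ⟨m, LinearMap.range_eq_bot.mp
          (Submodule.subsingleton_iff_eq_bot.mp (dim_eq_zero.mp h))⟩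
      exact ⟨nil a1 (by omega), nil a0 (by omega)⟩
    obtain ⟨L1, g1, g2⟩ := ih _ (by
      change (U.P1.sub (LinearMap.ker (a1 ^ m))).dim + (U.P0.sub (LinearMap.ker (a0 ^ m))).dim < n
      omega) (U.res h1 h0 hX) rfl
    obtain ⟨L2, g3, g4⟩ := ih _ (by
      change (U.P1.sub (LinearMap.range (a1 ^ m))).dim
        + (U.P0.sub (LinearMap.range (a0 ^ m))).dim < n
      omega) (U.res h1.symm h0.symm hY) rfl
    refine ⟨L1 ++ L2, fun X hX' => ?_, fun N => ?_⟩
    · rcases List.mem_append.mp hX' with h | h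
      · exact ⟨(g1 X h).1, (g1 X h).2.trans (U.res_retr h1 h0 hX hY)⟩
      · exact ⟨(g3 X h).1, (g3 X h).2.trans (U.res_retr h1.symm h0.symm hY hX)⟩
    · rw [List.map_append, List.sum_append, ← g2, ← g4, Pres.th, hom_isCompl h1, hom_isCompl h0]
      simp only [Pres.th, Pres.res]
      push_cast
      ring

end Pool.Agent.P.MP_a7c6c4_al
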