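import Pool.Agent.P.MP_a7c6c4_al.NcReg

/-! The non-commutative rank theorem over an arbitrary field: some blow-up of a space of linear
maps has nullity equal to `d` times the largest discrepancy of a subspace. -/

set_option autoImplicit false
set_option linter.unusedSectionVars false
set_option linter.style.haveILetI false

open Matrix Module

namespace Pool.Agent.P.MP_a7c6c4_al

variable {K : Type*} [Field K] {V W : Type*} [AddCommGroup V] [Module K V] [AddCommGroup W]
  [Module K W] {σ : Type*} [Fintype σ]

/-- blow-up of the family `B` along the matrices `M` -/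
noncomputable def blow {ι : Type*} [Fintype ι] (B : σ → V →ₗ[K] W) (M : σ → Matrix ι ι K) :
    (ι → V) →ₗ[K] (ι → W) :=
  LinearMap.pi fun b => ∑ s, ∑ a, M s b a • (B s ∘ₗ LinearMap.proj a)

lemma blow_apply {ι : Type*} [Fintype ι] (B : σ → V →ₗ[K] W) (M : σ → Matrix ι ι K)
    (v : ι → V) (b : ι) : blow B M v b = ∑ s, ∑ a, M s b a • B s (v a) := by
  simp [blow]

variable [FiniteDimensional K V] [FiniteDimensional K W]

lemma nul_blow {ι : Type*} [Fintype ι] (B : σ → V →ₗ[K] W) (M : σ → Matrix ι ι K) :
    finrank K (LinearMap.ker (blow B M))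
      = nul (bl (fun s => LinearMap.toMatrix (finBasis K V) (finBasis K W) (B s)) M) := by
  let bV := finBasis K V
  let bW := finBasis K W
  let e1 : (ι → V) ≃ₗ[K] (ι × Fin (finrank K V) → K) :=
    { toFun := fun v x => bV.repr (v x.1) x.2
      map_add' := fun v w => by ext x; simp
      map_smul' := fun c v => by ext x; simp
      invFun := fun w y => bV.equivFun.symm fun j => w (y, j)
      left_inv := fun v => by
        ext y
        exact bV.equivFun.symm_apply_apply (v y)
      right_inv := fun w => by
        ext x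
        exact congrFun (bV.equivFun.apply_symm_apply fun j => w (x.1, j)) x.2 }
  let e2 : (ι → W) ≃ₗ[K] (ι × Fin (finrank K W) → K) :=
    { toFun := fun v x => bW.repr (v x.1) x.2
      map_add' := fun v w => by ext x; simp
      map_smul' := fun c v => by ext x; simp
      invFun := fun w y => bW.equivFun.symm fun j => w (y, j)
      left_inv := fun v => by
        ext y
        exact bW.equivFun.symm_apply_apply (v y)
      right_inv := fun w => by
        ext x
        exact congrFun (bW.equivFun.apply_symm_apply fun j => w (x.1, j)) x.2 }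
  refine finrank_ker_eq _ _ e1 e2.toLinearMap e2.injective ?_
  intro v
  ext x
  simp only [e1, e2, mulVecLin_apply, LinearEquiv.coe_mk, LinearMap.coe_mk, AddHom.coe_mk,
    mulVec, dotProduct, bl_apply, blow_apply, map_sum, Finsupp.coe_finsetSum, Finset.sum_apply,
    Fintype.sum_prod_type, Finset.sum_mul, map_smul, Finsupp.smul_apply, smul_eq_mul]
  rw [Finset.sum_comm (s := Finset.univ (α := σ))]
  refine Finset.sum_congr rfl fun a _ => ?_
  rw [Finset.sum_comm]
  refine Finset.sum_congr rfl fun s _ => ?_
  have := congrFun (LinearMap.toMatrix_mulVec_repr bV bW (B s) (v a)) x.2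
  rw [← this]
  simp only [mulVec, dotProduct, Finset.mul_sum, Algebra.algebraMap_self, RingHom.id_apply]
  exact Finset.sum_congr rfl fun j _ => by ring

lemma regular_blow {ι : Type} [Fintype ι] [Nonempty ι] (B : σ → V →ₗ[K] W)
    (M : σ → Matrix ι ι K) :
    ∃ (ι' : Type) (_ : Fintype ι') (_ : Nonempty ι') (M' : σ → Matrix ι' ι' K) (k : ℕ),
      finrank K (LinearMap.ker (blow B M')) ≤ k * Fintype.card ι' ∧
      k * Fintype.card ι ≤ finrank K (LinearMap.ker (blow B M)) := by
  simp only [nul_blow]
  exact regular _ M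

/-- span of the components of the kernel -/
noncomputable def kerSpan {ι : Type*} [Fintype ι] (B : σ → V →ₗ[K] W) (M : σ → Matrix ι ι K) :
    Submodule K V :=
  ⨆ a : ι, (LinearMap.ker (blow B M)).map (LinearMap.proj a)

lemma mem_kerSpan {ι : Type*} [Fintype ι] (B : σ → V →ₗ[K] W) (M : σ → Matrix ι ι K)
    {v : ι → V} (hv : blow B M v = 0) (a : ι) : v a ∈ kerSpan B M :=
  Submodule.mem_iSup_of_mem a ⟨v, hv, rfl⟩

lemma wong_step {ι : Type} [Fintype ι] [DecidableEq ι] (B : σ → V →ₗ[K] W)
    (M : σ → Matrix ι ι K) (s : σ) (b c : ι) :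
    ∃ M' : σ → Matrix (ι ⊕ ι) (ι ⊕ ι) K, ∀ v : ι ⊕ ι → V, blow B M' v = 0 ↔
      blow B M (v ∘ Sum.inl) = 0 ∧
        blow B M (v ∘ Sum.inr) + Pi.single b (B s (v (Sum.inl c))) = 0 := by
  classical
  refine ⟨fun s' => fromBlocks (M s') 0 (if s' = s then Matrix.single b c 1 else 0) (M s'), ?_⟩
  intro v
  rw [funext_iff, Sum.forall, funext_iff, funext_iff]
  refine and_congr (forall_congr' fun x => ?_) (forall_congr' fun x => ?_)
  · simp [blow_apply]
  · have : ∑ s', ∑ a, (if s' = s then Matrix.single b c (1 : K) else 0) x a • B s' (v (Sum.inl a))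
        = (Pi.single b (B s (v (Sum.inl c))) : ι → W) x := by
      rw [Finset.sum_eq_single s]
      · rw [if_pos rfl, Finset.sum_eq_single c]
        · by_cases h : x = b
          · subst h; simp
          · simp [h, Ne.symm h]
        · intro a _ ha; simp [Ne.symm ha]
        · simp
      · intro s' _ hs; simp [hs]
      · simp
    simp only [blow_apply, Fintype.sum_sum_type, fromBlocks_apply₂₁, fromBlocks_apply₂₂,
      Finset.sum_add_distrib, this, Pi.add_apply, Pi.zero_apply, Function.comp_apply]
    rw [add_comm]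

theorem ncrank (B : σ → V →ₗ[K] W) :
    ∃ (ι : Type) (_ : Fintype ι) (_ : Nonempty ι) (M : σ → Matrix ι ι K) (V' : Submodule K V),
      finrank K (LinearMap.ker (blow B M))
          + Fintype.card ι * finrank K (⨆ s, V'.map (B s) : Submodule K W)
        ≤ Fintype.card ι * finrank K V' := by
  classical
  let Q : ℕ → Prop := fun k => ∃ (ι : Type) (_ : Fintype ι) (_ : Nonempty ι)
    (M : σ → Matrix ι ι K), finrank K (LinearMap.ker (blow B M)) ≤ k * Fintype.card ι
  have hQ : ∃ k, Q k := by
    refine ⟨finrank K V, Unit, inferInstance, inferInstance, 0, ?_⟩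
    refine (Submodule.finrank_le _).trans ?_
    simp [finrank_pi_fintype]
  let κ := Nat.find hQ
  have hlow : ∀ (ι : Type) [Fintype ι] [Nonempty ι] (M : σ → Matrix ι ι K),
      κ * Fintype.card ι ≤ finrank K (LinearMap.ker (blow B M)) := by
    intro ι _ _ M
    obtain ⟨ι', h1, h2, M', k, h3, h4⟩ := regular_blow B M
    exact (Nat.mul_le_mul_right _ (Nat.find_min' hQ ⟨ι', h1, h2, M', h3⟩)).trans h4
  let T : ℕ → Prop := fun r => ∃ (ι : Type) (_ : Fintype ι) (_ : Nonempty ι)
    (M : σ → Matrix ι ι K), finrank K (LinearMap.ker (blow B M)) ≤ κ * Fintype.card ι ∧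
      finrank K (kerSpan B M) = r
  obtain ⟨r0, hr0⟩ : ∃ r, T r := by
    obtain ⟨ι, h1, h2, M, h3⟩ := Nat.find_spec hQ
    exact ⟨_, ι, h1, h2, M, h3, rfl⟩
  have hbd : ∀ r, T r → r ≤ finrank K V := by
    rintro r ⟨ι, h1, h2, M, h3, rfl⟩
    exact Submodule.finrank_le _
  obtain ⟨ι, h1, h2, M, h3, h4⟩ : T (Nat.findGreatest T (finrank K V)) :=
    Nat.findGreatest_spec (hbd r0 hr0) hr0
  have hmax : ∀ r, T r → r ≤ finrank K (kerSpan B M) := fun r hr =>
    h4 ▸ Nat.le_findGreatest (hbd r hr) hr
  set V' := kerSpan B M with hV'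
  let g : (ι → V') →ₗ[K] (ι → W) := blow B M ∘ₗ V'.subtype.compLeft ι
  have key : ∀ (s : σ) (b c : ι) (v : ι → V), blow B M v = 0 →
      (Pi.single b (B s (v c)) : ι → W) ∈ LinearMap.range g := by
    intro s b c v hv
    obtain ⟨M', hM'⟩ := wong_step B M s b c
    let π : LinearMap.ker (blow B M') →ₗ[K] LinearMap.ker (blow B M) :=
      ((LinearMap.funLeft K V Sum.inl).domRestrict _).codRestrict _
        (fun w => ((hM' w.1).mp w.2).1)
    have hk : finrank K (LinearMap.ker π) ≤ finrank K (LinearMap.ker (blow B M)) := by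
      let j : LinearMap.ker π →ₗ[K] LinearMap.ker (blow B M) :=
        ((LinearMap.funLeft K V Sum.inr) ∘ₗ (LinearMap.ker (blow B M')).subtype
          ∘ₗ (LinearMap.ker π).subtype).codRestrict _ (fun w => by
            have h5 := ((hM' w.1.1).mp w.1.2).2
            have h6 : w.1.1 (Sum.inl c) = 0 :=
              congrFun (congrArg Subtype.val (LinearMap.mem_ker.mp w.2)) c
            rw [h6, map_zero, Pi.single_zero, add_zero] at h5
            exact h5)
      refine LinearMap.finrank_le_finrank_of_injective (f := j) ?_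
      intro w w' hw
      ext x
      rcases x with x | x
      · exact (congrFun (congrArg Subtype.val (LinearMap.mem_ker.mp w.2)) x).trans
          (congrFun (congrArg Subtype.val (LinearMap.mem_ker.mp w'.2)) x).symm
      · exact congrFun (congrArg Subtype.val hw) x
    have hrk := LinearMap.finrank_range_add_finrank_ker π
    have hl := hlow _ M'
    have hl0 := hlow _ M
    rw [Fintype.card_sum, mul_add] at hl
    have hr := Submodule.finrank_le (LinearMap.range π)
    have hsurj : LinearMap.range π = ⊤ := Submodule.eq_top_of_finrank_eq (by omega)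
    have hT : T (finrank K (kerSpan B M')) :=
      ⟨_, inferInstance, inferInstance, M', by rw [Fintype.card_sum, mul_add]; omega, rfl⟩
    have hle : V' ≤ kerSpan B M' := by
      refine iSup_le fun a => ?_
      rintro _ ⟨w, hw, rfl⟩
      have : blow B M' (Sum.elim 0 w) = 0 := by
        rw [hM']
        constructor
        · exact map_zero _
        · simpa using hw
      exact mem_kerSpan B M' this (Sum.inr a)
    have heq : V' = kerSpan B M' := Submodule.eq_of_le_of_finrank_le hle (hmax _ hT)
    obtain ⟨w, hw⟩ := LinearMap.range_eq_top.mp hsurj ⟨v, hv⟩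
    have h5 := ((hM' w.1).mp w.2).2
    have h6 : w.1 (Sum.inl c) = v c := congrFun (congrArg Subtype.val hw) c
    rw [h6] at h5
    refine ⟨-fun a => ⟨w.1 (Sum.inr a), heq ▸ mem_kerSpan B M' w.2 _⟩, ?_⟩
    rw [map_neg, neg_eq_iff_add_eq_zero]
    exact h5
  refine ⟨ι, h1, h2, M, V', ?_⟩
  set W' : Submodule K W := ⨆ s, V'.map (B s) with hW'
  have h7 : finrank K (LinearMap.ker (blow B M)) ≤ finrank K (LinearMap.ker g) := by
    let j0 : LinearMap.ker (blow B M) →ₗ[K] (ι → V') :=
      LinearMap.pi fun a => ((LinearMap.proj a : (ι → V) →ₗ[K] V).domRestrict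
        (LinearMap.ker (blow B M))).codRestrict V' (fun w => mem_kerSpan B M w.2 a)
    let j : LinearMap.ker (blow B M) →ₗ[K] LinearMap.ker g := j0.codRestrict _ (fun w => w.2)
    refine LinearMap.finrank_le_finrank_of_injective (f := j) ?_
    intro w w' h
    ext a
    exact congrArg Subtype.val (congrFun (congrArg Subtype.val h) a)
  have h8 : finrank K (ι → W') ≤ finrank K (LinearMap.range g) := by
    have hin : ∀ y : ι → W', W'.subtype.compLeft ι y ∈ LinearMap.range g := by
      intro y
      rw [← Finset.univ_sum_single (W'.subtype.compLeft ι y)]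
      refine Submodule.sum_mem _ fun b _ => ?_
      have : W' ≤ (LinearMap.range g).comap (LinearMap.single K (fun _ : ι => W) b) := by
        refine iSup_le fun s => ?_
        rw [Submodule.map_le_iff_le_comap]
        refine iSup_le fun c => ?_
        rintro _ ⟨v, hv, rfl⟩
        exact key s b c v hv
      exact this (y b).2
    refine LinearMap.finrank_le_finrank_of_injective
      (f := (W'.subtype.compLeft ι).codRestrict _ hin) ?_
    intro y y' h
    ext a
    exact congrFun (congrArg Subtype.val h) a
  have h9 := LinearMap.finrank_range_add_finrank_ker g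
  rw [finrank_pi_fintype] at h8 h9
  simp only [Finset.sum_const, Finset.card_univ, smul_eq_mul] at h8 h9
  omega

end Pool.Agent.P.MP_a7c6c4_al
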