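import Pool.Agent.P.MP_a7c6c4_al.Pot
import Pool.Agent.P.MP_a7c6c4_al.NcRank

/-! King's theorem over any field, and: without infinite semibricks some multiple of every
lattice point is the class of a presilting complex. -/

set_option autoImplicit false
set_option linter.unusedSectionVars false
set_option linter.style.haveILetI false

open Module

namespace Pool.Agent.P.MP_a7c6c4_al

open Md

variable {K A : Type} [Field K] [Ring A] [Algebra K A]

instance proj_pow (ι : Type) [Finite ι] (P : Md K A) [Projective A P] :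
    Projective A (P.pow ι) := by
  classical
  letI := Fintype.ofFinite ι
  exact Projective.of_equiv' (DFinsupp.linearEquivFunOnFintype (R := A) (M := fun _ : ι => P))

/-- the lattice point `[Q] - [P]` -/
noncomputable def lat (P Q : Md K A) (N : Md K A) : ℤ := (hom Q N : ℤ) - hom P N

lemma addi_lat (P Q : Md K A) [Projective A P] [Projective A Q] : Addi (lat P Q) :=
  (addi_hom Q).sub (addi_hom P)

/-- presentation between powers -/
abbrev pw (ι : Type) [Finite ι] {P Q : Md K A} [Projective A P] [Projective A Q]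
    (f : P.pow ι →ₗ[A] Q.pow ι) : Pres K A := ⟨P.pow ι, Q.pow ι, f⟩

lemma th_pw (ι : Type) [Fintype ι] {P Q : Md K A} [Projective A P] [Projective A Q]
    (f : P.pow ι →ₗ[A] Q.pow ι) (N : Md K A) : (pw ι f).th N = Fintype.card ι * lat P Q N := by
  rw [Pres.th, hom_pow_left, hom_pow_left, lat]
  push_cast
  ring

lemma finrank_le_hom {V : Type*} [AddCommGroup V] [Module K V] (X Y : Md K A)
    (F : V →ₗ[K] (X →ₗ[A] Y)) (hF : Function.Injective F) : finrank K V ≤ hom X Y :=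
  LinearMap.finrank_le_finrank_of_injective hF

lemma king (P Q N : Md K A) [Projective A P] [Projective A Q] :
    ∃ (ι : Type) (_ : Fintype ι) (_ : Nonempty ι) (f : P.pow ι →ₗ[A] Q.pow ι)
      (N' : Submodule A N), (hom (pw ι f).C N : ℤ) ≤ Fintype.card ι * lat P Q (N.sub N') := by
  classical
  let b := finBasis K (P →ₗ[A] Q)
  let B : Fin (finrank K (P →ₗ[A] Q)) → (Q →ₗ[A] N) →ₗ[K] (P →ₗ[A] N) :=
    fun s => LinearMap.lcomp K N (b s)
  obtain ⟨ι, h1, h2, M, V', hV⟩ := ncrank B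
  let f : P.pow ι →ₗ[A] Q.pow ι :=
    LinearMap.pi fun a => ∑ s, ∑ c, M s c a • (b s ∘ₗ LinearMap.proj c)
  let N' : Submodule A N := ⨆ v : V', LinearMap.range v.1
  refine ⟨ι, h1, h2, f, N', ?_⟩
  have e1 : hom (pw ι f).C N ≤ finrank K (LinearMap.ker (blow B M)) := by
    let F0 : ((pw ι f).C →ₗ[A] N) →ₗ[K] (ι → Q →ₗ[A] N) :=
      LinearMap.pi fun a => LinearMap.lcomp K N
        ((pw ι f).π ∘ₗ LinearMap.single A (fun _ : ι => (Q : Type)) a)
    have hF : ∀ φ, F0 φ ∈ LinearMap.ker (blow B M) := by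
      intro φ
      rw [LinearMap.mem_ker]
      ext c x
      have h3 := (pw ι f).π_f (Pi.single c x)
      have h4 : f (Pi.single c x) = ∑ s, ∑ a, M s c a • (Pi.single a (b s x) : ι → Q) := by
        funext a
        simp only [f, LinearMap.pi_apply, LinearMap.sum_apply, LinearMap.smul_apply,
          LinearMap.comp_apply, LinearMap.proj_apply, Finset.sum_apply, Pi.smul_apply]
        refine Finset.sum_congr rfl fun s _ => ?_
        rw [Finset.sum_eq_single c, Finset.sum_eq_single a]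
        · simp
        · intro a' _ ha; simp [Ne.symm ha]
        · simp
        · intro c' _ hc; simp [hc]
        · simp
      have h5 := congrArg φ h3
      change φ ((pw ι f).π (f (Pi.single c x))) = φ 0 at h5
      rw [h4, map_zero] at h5
      simp only [map_sum, LinearMap.map_smul_of_tower] at h5
      rw [blow_apply]
      simp only [LinearMap.sum_apply, LinearMap.smul_apply]
      exact h5
    refine LinearMap.finrank_le_finrank_of_injective (f := F0.codRestrict _ hF) ?_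
    intro φ ψ h
    refine Submodule.linearMap_qext _ (LinearMap.pi_ext fun a x => ?_)
    exact LinearMap.congr_fun (congrFun (congrArg Subtype.val h) a) x
  have e2 : finrank K V' ≤ hom Q (N.sub N') := by
    refine finrank_le_hom Q (N.sub N')
      { toFun := fun v => v.1.codRestrict N' fun x =>
          Submodule.mem_iSup_of_mem v (LinearMap.mem_range_self _ x)
        map_add' := fun _ _ => rfl
        map_smul' := fun _ _ => rfl } ?_
    intro v w h
    ext x
    exact congrArg Subtype.val (LinearMap.congr_fun h x)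
  have e3 : hom P (N.sub N') ≤ finrank K (⨆ s, V'.map (B s) : Submodule K (P →ₗ[A] N)) := by
    set W' : Submodule K (P →ₗ[A] N) := ⨆ s, V'.map (B s)
    have h3 : ∀ (v : V') (g : P →ₗ[A] Q), v.1 ∘ₗ g ∈ W' := by
      intro v g
      have : v.1 ∘ₗ g = ∑ s, b.repr g s • B s v.1 := by
        conv_lhs => rw [← b.sum_repr g]
        exact (map_sum (LinearMap.compRight K v.1 : (P →ₗ[A] Q) →ₗ[K] (P →ₗ[A] N)) _ _).trans
          (Finset.sum_congr rfl fun s _ => map_smul _ _ _)
      rw [this]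
      exact Submodule.sum_mem _ fun s _ => Submodule.smul_mem _ _
        (Submodule.mem_iSup_of_mem s ⟨v.1, v.2, rfl⟩)
    have h4 : ∀ n ∈ N', ∀ ξ : P →ₗ[A] A, sp n ∘ₗ ξ ∈ W' := by
      intro n hn ξ
      refine Submodule.iSup_induction _ (motive := fun n => sp n ∘ₗ ξ ∈ W') hn ?_ ?_ ?_
      · rintro v _ ⟨q, rfl⟩
        have : sp (v.1 q) ∘ₗ ξ = v.1 ∘ₗ (sp q ∘ₗ ξ) := by ext; simp
        rw [this]; exact h3 v _
      · have : sp (0 : N) ∘ₗ ξ = 0 := by ext; simp
        rw [this]; exact zero_mem _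
      · intro x y hx hy
        have : sp (x + y) ∘ₗ ξ = sp x ∘ₗ ξ + sp y ∘ₗ ξ := by ext; simp
        rw [this]; exact add_mem hx hy
    obtain ⟨n, x, ξ, hx⟩ := dual_basis P
    let G : (P →ₗ[A] N.sub N') →ₗ[K] (P →ₗ[A] N) := LinearMap.compRight K N'.subtype
    have h5 : ∀ g, G g ∈ W' := by
      intro g
      rw [eq_sum_sp hx (G g)]
      exact Submodule.sum_mem _ fun i _ => h4 _ (g (x i)).2 _
    refine LinearMap.finrank_le_finrank_of_injective (f := G.codRestrict _ h5) ?_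
    intro g g' h
    ext y
    exact LinearMap.congr_fun (congrArg Subtype.val h) y
  have e4 := Nat.mul_le_mul_left (Fintype.card ι) e2
  have e5 := Nat.mul_le_mul_left (Fintype.card ι) e3
  rw [lat, mul_sub]
  zify at e1 e4 e5 hV
  omega

lemma eq_bot_of_map {M N : Md K A} (i : M →ₗ[A] N) (hi : Function.Injective i)
    {X : Submodule A M} (h : X.map i = ⊥) : X = ⊥ := by
  rw [← LinearMap.le_ker_iff_map, LinearMap.ker_eq_bot.mpr hi] at h
  exact le_bot_iff.mp h

section labels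

variable (θ : Md K A → ℤ)

/-- no proper nonzero submodule lies in the torsion class -/
def Alm (B : Md K A) : Prop := ∀ N : Submodule A B, N ≠ ⊥ → N ≠ ⊤ → ¬ TT θ (B.sub N)

/-- brick labelling a cover below the torsion class -/
def Label (B : Md K A) : Prop :=
  Nontrivial B ∧ TT θ B ∧ Alm θ B ∧
    ∀ (X : Md K A) (p : X →ₗ[A] B), Function.Surjective p → TT θ X → Alm θ X →
      Function.Injective p

variable {θ}

lemma Label.bij (h : Addi θ) {B B' : Md K A} (hB : Label θ B) (hB' : Label θ B')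
    (φ : B →ₗ[A] B') (hφ : φ ≠ 0) : Function.Bijective φ := by
  have h1 : Function.Surjective φ := by
    by_contra hc
    exact hB'.2.2.1 _ (fun h0 => hφ (LinearMap.range_eq_bot.mp h0))
      (fun h0 => hc (LinearMap.range_eq_top.mp h0)) (hB.2.1.range h φ)
  exact ⟨hB'.2.2.2 B φ h1 hB.2.1 hB.2.2.1, h1⟩

lemma exists_max_sub (h : Addi θ) (hb : ∀ M : Md K A, ∃ c : ℤ, ∀ N : Submodule A M, θ (M.sub N) ≤ c)
    (M : Md K A) : ∃ N : Submodule A M, TT θ (M.sub N) ∧ ∀ N', θ (M.sub N') ≤ θ (M.sub N) := by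
  obtain ⟨c, hc⟩ := hb M
  obtain ⟨z, ⟨N, rfl⟩, hz⟩ := Int.exists_greatest_of_bdd
    (P := fun z => ∃ N : Submodule A M, θ (M.sub N) = z) ⟨c, by rintro _ ⟨N, rfl⟩; exact hc N⟩
    ⟨_, ⊥, rfl⟩
  refine ⟨N, fun X => ?_, fun N' => hz _ ⟨N', rfl⟩⟩
  rw [← h.map_inj (M := M.sub N) (N := M) N.subtype N.injective_subtype]
  exact hz _ ⟨_, rfl⟩

/-- every nonzero submodule maps nontrivially to `I` -/
def Cog (I B : Md K A) : Prop := ∀ N : Submodule A B, N ≠ ⊥ → ¬ Orth (B.sub N) I

lemma Cog.of_inj {I B X : Md K A} (h : Cog I B) (i : X →ₗ[A] B) (hi : Function.Injective i) :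
    Cog I X := by
  intro N hN h1
  refine h (N.map i) (fun h0 => hN ?_) (h1.of_surj (i.submoduleMap N) (i.submoduleMap_surjective N))
  exact eq_bot_of_map i hi h0

lemma cog_self (I : Md K A) : Cog I I := by
  intro N hN h1
  apply hN
  rw [eq_bot_iff]
  intro x hx
  exact LinearMap.congr_fun (h1 N.subtype) ⟨x, hx⟩

lemma exists_label (h : Addi θ)
    (hb : ∀ M : Md K A, ∃ c : ℤ, ∀ N : Submodule A M, θ (M.sub N) ≤ c)
    {I : Md K A} (hI : ∀ M, Orth M I → TT θ M) {M : Md K A} (hM : TT θ M) (hne : ¬ Orth M I) :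
    ∃ B, Label θ B ∧ ¬ Orth B I := by
  let S : Md K A → Prop := fun B => Nontrivial B ∧ TT θ B ∧ Cog I B
  have hS : ∃ B, S B := by
    obtain ⟨φ, hφ⟩ := exists_of_hom_ne (fun h0 => hne (hom_eq_zero.mp h0))
    exact ⟨I.sub (LinearMap.range φ),
      Submodule.nontrivial_iff_ne_bot.mpr (fun h0 => hφ (LinearMap.range_eq_bot.mp h0)),
      hM.range h φ, (cog_self I).of_inj _ (Submodule.injective_subtype _)⟩
  obtain ⟨z, ⟨B0, hB0, rfl⟩, hz⟩ := Int.exists_least_of_bdd
    (P := fun z => ∃ B, S B ∧ θ B = z) ⟨0, by rintro _ ⟨B, hB, rfl⟩; exact hB.2.1.nonneg h⟩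
    (let ⟨B, hB⟩ := hS; ⟨_, B, hB, rfl⟩)
  classical
  have hex : ∃ n, ∃ B, S B ∧ θ B = θ B0 ∧ B.dim = n := ⟨_, B0, hB0, rfl, rfl⟩
  obtain ⟨B, hB, hB1, hB2⟩ := Nat.find_spec hex
  have hmin : ∀ B', S B' → θ B ≤ θ B' := fun B' hB' => hB1 ▸ hz _ ⟨B', hB', rfl⟩
  have hmin2 : ∀ B', S B' → θ B' = θ B → B.dim ≤ B'.dim := fun B' hB' h1 =>
    hB2 ▸ Nat.find_min' hex ⟨B', hB', h1.trans hB1, rfl⟩
  refine ⟨B, ⟨hB.1, hB.2.1, ?_, ?_⟩, ?_⟩
  · intro N h1 h2 h3
    have h4 : S (B.sub N) := ⟨Submodule.nontrivial_iff_ne_bot.mpr h1, h3,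
      hB.2.2.of_inj _ N.injective_subtype⟩
    have h5 := hmin2 _ h4 (le_antisymm (hB.2.1 N) (hmin _ h4))
    have h6 := dim_sub_lt h2
    omega
  · intro X p hp hX hX'
    haveI := hB.1
    have hker : LinearMap.ker p ≠ ⊤ := by
      intro h0
      obtain ⟨y, hy⟩ := exists_ne (0 : B)
      obtain ⟨x, rfl⟩ := hp y
      exact hy (LinearMap.mem_ker.mp (h0 ▸ Submodule.mem_top))
    have h1 : S X := by
      refine ⟨hp.nontrivial, hX, fun N hN h2 => ?_⟩
      by_cases h3 : N ≤ LinearMap.ker p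
      · exact hX' N hN (fun h0 => hker (top_le_iff.mp (h0 ▸ h3))) (hI _ h2)
      · refine hB.2.2 (N.map p) (fun h0 => h3 ?_)
          (h2.of_surj (p.submoduleMap N) (p.submoduleMap_surjective N))
        exact LinearMap.le_ker_iff_map.mpr h0
    have h2 := hmin X h1
    have h3 := h.surj p hp
    by_contra hc
    have h4 : LinearMap.ker p ≠ ⊥ := fun h0 => hc (LinearMap.ker_eq_bot.mp h0)
    obtain ⟨N, hN, hN'⟩ := exists_max_sub h hb (X.sub (LinearMap.ker p))
    by_cases h5 : N = ⊥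
    · refine hX' _ h4 hker fun Y => ?_
      have h6 := hN' Y
      rw [h5, h.bot] at h6
      omega
    · refine hX' (N.map (LinearMap.ker p).subtype) (fun h0 => h5 ?_) (fun h0 => hker ?_) ?_
      · exact eq_bot_of_map (M := X.sub (LinearMap.ker p)) _ (Submodule.injective_subtype _) h0
      · exact top_le_iff.mp (h0 ▸ Submodule.map_subtype_le _ _)
      · exact hN.of_surj h ((LinearMap.ker p).subtype.submoduleMap N)
          (LinearMap.submoduleMap_surjective _ _)
  · intro h0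
    haveI := hB.1
    exact hB.2.2 ⊤ top_ne_bot (h0.of_surj (N := B.sub ⊤) Submodule.topEquiv.symm.toLinearMap
      Submodule.topEquiv.symm.surjective)

lemma exists_cover (h : Addi θ) {𝒳 : Md K A → Prop} (hf : FinIso 𝒳) (h1 : ∀ M, 𝒳 M → TT θ M) :
    ∃ N, TT θ N ∧ ∀ M, 𝒳 M → ∃ p : N →ₗ[A] M, Function.Surjective p := by
  obtain ⟨l, hl⟩ := hf
  suffices H : ∀ l : List (Md K A), ∃ N, TT θ N ∧ ∀ S ∈ l, TT θ S →
      ∃ p : N →ₗ[A] S, Function.Surjective p by
    obtain ⟨N, h2, h3⟩ := H l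
    refine ⟨N, h2, fun M hM => ?_⟩
    obtain ⟨S, h4, ⟨e⟩⟩ := hl M hM
    obtain ⟨p, hp⟩ := h3 S h4 ((h1 M hM).of_surj h e.toLinearMap e.surjective)
    exact ⟨e.symm.toLinearMap ∘ₗ p, e.symm.surjective.comp hp⟩
  intro l
  induction l with
  | nil => exact ⟨Md.zero, fun N => by rw [h.triv, h.triv], by simp⟩
  | cons S l ih =>
    obtain ⟨N, h2, h3⟩ := ih
    by_cases hS : TT θ S
    · refine ⟨S.prod N, hS.prod h h2, fun S' h4 h5 => ?_⟩
      rcases List.mem_cons.mp h4 with rfl | h4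
      · exact ⟨LinearMap.fst A _ _, LinearMap.fst_surjective⟩
      · obtain ⟨p, hp⟩ := h3 S' h4 h5
        exact ⟨p ∘ₗ LinearMap.snd A _ _, hp.comp LinearMap.snd_surjective⟩
    · refine ⟨N, h2, fun S' h4 h5 => ?_⟩
      rcases List.mem_cons.mp h4 with rfl | h4
      · exact absurd h5 hS
      · exact h3 S' h4 h5

end labels

variable [FiniteDimensional K A]

theorem exists_rigid_multiple (hH : ¬ InfSB K A) (P Q : Md K A) [Projective A P]
    [Projective A Q] :
    ∃ (ι : Type) (_ : Fintype ι) (_ : Nonempty ι) (f : P.pow ι →ₗ[A] Q.pow ι),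
      (pw ι f).E0 (pw ι f).C := by
  have h := addi_lat P Q
  set θ := lat P Q with hθ
  have hb : ∀ M : Md K A, ∃ c : ℤ, ∀ N : Submodule A M, θ (M.sub N) ≤ c := by
    intro M
    refine ⟨hom Q M, fun N => ?_⟩
    have := hom_le_of_inj Q (M := M.sub N) N.subtype N.injective_subtype
    rw [hθ, lat]
    omega
  have hfin : FinIso (Label θ) :=
    finIso_of_semibrick hH (fun _ hM => hM.1) (fun _ _ hM hN => hM.bij h hN)
  obtain ⟨S, hS, hcov⟩ := exists_cover h hfin (fun _ hM => hM.2.1)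
  have hTT : ∀ (ι : Type) [Fintype ι] [Nonempty ι] (f : P.pow ι →ₗ[A] Q.pow ι) (M : Md K A),
      Orth M (pw ι f).I → TT θ M := by
    intro ι _ _ f M hM N
    have h1 := (pw ι f).ap.tt_of_orth hM N
    change (pw ι f).th _ ≤ (pw ι f).th _ at h1
    rw [th_pw, th_pw] at h1
    exact le_of_mul_le_mul_left h1 (Int.natCast_pos.mpr Fintype.card_pos)
  have hall : ∀ (ι : Type) [Fintype ι] [Nonempty ι] (f : P.pow ι →ₗ[A] Q.pow ι),
      Orth S (pw ι f).I → ∀ M, TT θ M → Orth M (pw ι f).I := by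
    intro ι _ _ f h1 M hM
    by_contra hc
    obtain ⟨B, hB, h2⟩ := exists_label h hb (hTT ι f) hM hc
    obtain ⟨p, hp⟩ := hcov B hB
    exact h2 (h1.of_surj p hp)
  obtain ⟨ι, _, _, f, N', hf⟩ := king P Q S
  have h1 : Orth S (pw ι f).I := by
    have h2 := (pw ι f).AR S
    have h3 := mul_le_mul_of_nonneg_left (hS N') (Int.natCast_nonneg (Fintype.card ι))
    rw [th_pw] at h2
    rw [← hθ] at hf h2
    exact hom_eq_zero.mp (by omega)
  have h2 : ∀ N : Submodule A (pw ι f).I, θ ((pw ι f).I.sub N) ≤ 0 := by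
    intro N
    obtain ⟨N0, h3, h4⟩ := exists_max_sub h hb (pw ι f).I
    have h5 : N0 = ⊥ := by
      rw [eq_bot_iff]
      intro x hx
      exact LinearMap.congr_fun (hall ι f h1 _ h3 N0.subtype) ⟨x, hx⟩
    have h6 := h4 N
    rwa [h5, h.bot] at h6
  obtain ⟨ι', _, _, f', N'', hf'⟩ := king P Q (S.prod (pw ι f).I)
  refine ⟨ι', inferInstance, inferInstance, f', ?_⟩
  obtain ⟨Y, Z, h3⟩ := sub_prod_le h N''
  have h4 := (pw ι' f').AR S
  rw [th_pw] at h4
  rw [← hθ] at hf' h4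
  rw [hom_prod_right, h3] at hf'
  have h5 := mul_le_mul_of_nonneg_left (add_le_add (hS Y) (h2 Z))
    (Int.natCast_nonneg (Fintype.card ι'))
  rw [add_zero] at h5
  push_cast at hf'
  rw [Pres.E0_iff_orth]
  exact hall ι' f' (hom_eq_zero.mp (by omega)) _ (hTT ι f _ (hom_eq_zero.mp (by omega)))

end Pool.Agent.P.MP_a7c6c4_al
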