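import Pool.Agent.P.MP_a7c6c4_al.Decomp
import Pool.Agent.P.MP_a7c6c4_al.King

/-! Compatible families of indecomposable presentations: independence, Bongartz completion,
integrality, finiteness of stable modules. -/

set_option autoImplicit false
set_option linter.unusedSectionVars false
set_option linter.style.haveILetI false

open Module

namespace Pool.Agent.P.MP_a7c6c4_al

open Md

variable {K A : Type} [Field K] [Ring A] [Algebra K A] [FiniteDimensional K A]

section family

variable {κ : Type} [DecidableEq κ] (U : κ → Pres K A)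

/-- trace of a subfamily -/
def trS (G : Finset κ) (M : Md K A) : Submodule A M := ⨆ k : G, tr (U k).C M

lemma range_le_trS {G : Finset κ} {k : κ} (hk : k ∈ G) {M : Md K A} (φ : (U k).C →ₗ[A] M) :
    LinearMap.range φ ≤ trS U G M :=
  (range_le_tr φ).trans (le_iSup (fun k : G => tr (U k).C M) ⟨k, hk⟩)

lemma trS_le {G : Finset κ} {M : Md K A} {N : Submodule A M}
    (h : ∀ k ∈ G, ∀ φ : (U k).C →ₗ[A] M, LinearMap.range φ ≤ N) : trS U G M ≤ N :=
  iSup_le fun k => iSup_le fun φ => h k.1 k.2 φ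

lemma map_trS (G : Finset κ) {M N : Md K A} (φ : M →ₗ[A] N) :
    (trS U G M).map φ ≤ trS U G N := by
  rw [Submodule.map_le_iff_le_comap]
  refine trS_le U fun k hk ψ => ?_
  rw [← Submodule.map_le_iff_le_comap, ← LinearMap.range_comp]
  exact range_le_trS U hk _

lemma orth_of_trS {G : Finset κ} {M Y : Md K A} (h : trS U G M = ⊤)
    (h' : ∀ k ∈ G, Orth (U k).C Y) : Orth M Y := by
  intro φ
  rw [← LinearMap.ker_eq_top, eq_top_iff, ← h]
  refine trS_le U fun k hk ψ => ?_
  rw [LinearMap.range_le_ker_iff]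
  exact h' k hk _

lemma exists_minimal (T : Finset κ) : ∃ G ⊆ T, (∀ l ∈ T, trS U G (U l).C = ⊤) ∧
    ∀ k ∈ G, trS U (G.erase k) (U k).C ≠ ⊤ := by
  classical
  have hex : ∃ n, ∃ G ⊆ T, (∀ l ∈ T, trS U G (U l).C = ⊤) ∧ G.card = n := by
    refine ⟨_, T, subset_rfl, fun l hl => ?_, rfl⟩
    rw [eq_top_iff, ← LinearMap.range_id (R := A) (M := (U l).C)]
    exact range_le_trS U hl _
  obtain ⟨G, h1, h2, h3⟩ := Nat.find_spec hex
  refine ⟨G, h1, h2, fun k hk h4 => ?_⟩
  have h5 : ∀ l ∈ T, trS U (G.erase k) (U l).C = ⊤ := by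
    intro l hl
    rw [eq_top_iff, ← h2 l hl]
    refine trS_le U fun j hj φ => ?_
    by_cases h : j = k
    · subst h
      rw [LinearMap.range_eq_map, ← h4]
      exact map_trS U _ φ
    · exact range_le_trS U (Finset.mem_erase.mpr ⟨h, hj⟩) φ
  have h6 := Nat.find_min' hex ⟨G.erase k, (Finset.erase_subset _ _).trans h1, h5, rfl⟩
  have h7 := Finset.card_erase_lt_of_mem hk
  omega

variable {U}

lemma exists_test (hI : ∀ k, Indec (U k)) (hc : ∀ k l, (U k).E0 (U l).C)
    (hinj : ∀ k l, (U k).th = (U l).th → k = l) {T G : Finset κ}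
    (hG : ∀ l ∈ T, trS U G (U l).C = ⊤) {k : κ} (hk : trS U (G.erase k) (U k).C ≠ ⊤) :
    ∃ (B : Md K A) (p : (U k).C →ₗ[A] B), Function.Surjective p ∧ p ≠ 0 ∧
      (∀ χ : (U k).C →ₗ[A] B, χ ≠ 0 → Function.Surjective χ) ∧
      (∀ l ∈ T, l ≠ k → Orth (U l).C B) ∧
      ∀ Y : Md K A, ¬ Orth (U k).C Y → (∀ j ∈ G, j ≠ k → Orth (U j).C Y) → ¬ Orth B Y := by
  have hc' : ∀ k l, Orth (U l).C (U k).I := fun k l => ((U k).E0_iff_orth _).mp (hc k l)
  let J : Submodule A (U k).C :=
    ⨆ γ : {γ : Module.End A (U k).C // IsNilpotent γ}, LinearMap.range γ.1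
  let N : Submodule A (U k).C := J ⊔ trS U (G.erase k) (U k).C
  have hJ : ∀ γ : Module.End A (U k).C, IsNilpotent γ → LinearMap.range γ ≤ N := fun γ h =>
    (le_iSup (fun γ : {γ : Module.End A (U k).C // IsNilpotent γ} => LinearMap.range γ.1)
      ⟨γ, h⟩).trans le_sup_left
  have htr : ∀ l, (U l).E0 ((U k).C.sub (trS U (G.erase k) (U k).C)) := fun l =>
    ((U l).E0_iff_orth _).mpr (orth_iSup _ fun j => (hc' l j).tr _)
  have hN : ∀ l, (U l).E0 ((U k).C.sub (LinearMap.ker N.mkQ)) := by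
    intro l
    rw [Submodule.ker_mkQ, Pres.E0_iff_orth]
    exact orth_sup (orth_iSup _ fun γ => (hc' l k).range _) (((U l).E0_iff_orth _).mp (htr l))
  have hlift := fun l => Pres.lift (U := U l) (N := (U k).C.quo N) N.mkQ N.mkQ_surjective (hN l)
  have h5 : ∀ Y : Md K A, ¬ Orth (U k).C Y → (∀ j ∈ G, j ≠ k → Orth (U j).C Y) →
      ¬ Orth ((U k).C.quo N) Y := by
    intro Y h1 h2 h3
    obtain ⟨φ0, h0⟩ := exists_of_hom_ne (fun h0 => h1 (hom_eq_zero.mp h0))
    obtain ⟨φ, h4, h5⟩ := socle_trick (hI k).locEnd φ0 h0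
    have h6 : N ≤ LinearMap.ker φ := by
      refine sup_le (iSup_le fun γ => LinearMap.range_le_ker_iff.mpr (h5 _ γ.2))
        (trS_le U fun j hj ψ => LinearMap.range_le_ker_iff.mpr ?_)
      exact h2 j (Finset.mem_erase.mp hj).2 (Finset.mem_erase.mp hj).1 _
    apply h4
    ext x
    exact LinearMap.congr_fun (h3 (N.liftQ φ h6)) (N.mkQ _)
  have h4 : ∀ j ∈ G, j ≠ k → Orth (U j).C ((U k).C.quo N) := by
    intro j hj hjk χ
    obtain ⟨ψ, hψ⟩ := hlift j χ
    refine LinearMap.ext fun x => ?_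
    rw [← hψ]
    exact (Submodule.Quotient.mk_eq_zero _).mpr
      ((range_le_trS U (Finset.mem_erase.mpr ⟨hjk, hj⟩) ψ).trans le_sup_right ⟨x, rfl⟩)
  have h1 : N.mkQ ≠ 0 := by
    intro h0
    refine h5 ((U k).C.quo (trS U (G.erase k) (U k).C)) (fun h => hk ?_) (fun j hj hjk χ => ?_) ?_
    · rw [← Submodule.ker_mkQ (trS U (G.erase k) (U k).C), h (Submodule.mkQ _), LinearMap.ker_zero]
    · obtain ⟨ψ, hψ⟩ := Pres.lift (U := U j) (N := (U k).C.quo (trS U (G.erase k) (U k).C))
        (Submodule.mkQ _) (Submodule.mkQ_surjective _) (by rw [Submodule.ker_mkQ]; exact htr j) χ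
      refine LinearMap.ext fun x => ?_
      rw [← hψ]
      exact (Submodule.Quotient.mk_eq_zero _).mpr
        ((range_le_trS U (Finset.mem_erase.mpr ⟨hjk, hj⟩) ψ) ⟨x, rfl⟩)
    · intro φ
      refine LinearMap.ext fun y => ?_
      obtain ⟨x, rfl⟩ := N.mkQ_surjective y
      rw [h0]; simp
  refine ⟨(U k).C.quo N, N.mkQ, N.mkQ_surjective, h1, fun χ hχ => ?_, fun l hl hlk φ => ?_, h5⟩
  · obtain ⟨ψ, hψ⟩ := hlift k χ
    rcases (hI k).locEnd ψ with h | h
    · refine absurd (LinearMap.ext fun x => ?_) hχ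
      rw [← hψ]
      exact (Submodule.Quotient.mk_eq_zero _).mpr (hJ ψ h ⟨x, rfl⟩)
    · intro y
      obtain ⟨x, rfl⟩ := N.mkQ_surjective y
      obtain ⟨x, rfl⟩ := h.2 x
      exact ⟨x, (hψ x).symm⟩
  · obtain ⟨α, hα⟩ := hlift l φ
    rw [← LinearMap.ker_eq_top, eq_top_iff, ← hG l hl]
    refine trS_le U fun j hj ψ => LinearMap.range_le_ker_iff.mpr ?_
    by_cases hjk : j = k
    · subst hjk
      by_cases hn : IsNilpotent (α ∘ₗ ψ : Module.End A (U j).C)
      · refine LinearMap.ext fun x => ?_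
        rw [LinearMap.comp_apply, ← hα]
        exact (Submodule.Quotient.mk_eq_zero _).mpr (hJ _ hn ⟨x, rfl⟩)
      · exact absurd (hinj _ _ (same_mod (hI j) (hI l) ψ α hn)).symm hlk
    · exact h4 j hj hjk _

lemma P0_triv {X : Pres K A} (hI : Indec X) (h0 : X.th ≠ 0) [Subsingleton X.C] :
    Subsingleton X.P0 := by
  obtain ⟨s, hs⟩ := lift_range X.f LinearMap.id (fun x => by
    rw [← Submodule.Quotient.mk_eq_zero]; exact Subsingleton.elim _ _)
  rcases hI (s ∘ₗ X.f) LinearMap.id (fun x => hs _) with h | h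
  · exact subsingleton_of_nilp h.2 Function.surjective_id
  · exfalso
    apply h0
    funext N
    rw [Pres.th, hom_congr_left (LinearEquiv.ofBijective X.f
      ⟨Function.Injective.of_comp (f := s) h.1.1, fun x => ⟨_, hs x⟩⟩)]
    simp

theorem independent (hI : ∀ k, Indec (U k)) (hc : ∀ k l, (U k).E0 (U l).C)
    (hinj : ∀ k l, (U k).th = (U l).th → k = l) (hne : ∀ k, (U k).th ≠ 0) [Fintype κ]
    (g : κ → ℝ) (hg : ∀ N, ∑ k, g k * (U k).th N = 0) (k0 : κ) : g k0 = 0 := by
  classical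
  by_contra h0
  let T := Finset.univ.filter fun k => g k ≠ 0
  have hT : ∀ k, k ∈ T ↔ g k ≠ 0 := by simp [T]
  have key : ∀ k ∈ T, ∀ N, (∀ l ∈ T, l ≠ k → (U l).th N = 0) → (U k).th N = 0 := by
    intro k hk N h
    have h1 := hg N
    rw [Finset.sum_eq_single k] at h1
    · exact_mod_cast (mul_eq_zero.mp h1).resolve_left ((hT k).mp hk)
    · intro l _ hl
      by_cases h2 : g l = 0
      · simp [h2]
      · simp [h l ((hT l).mpr h2) hl]
    · simp
  obtain ⟨G, h1, h2, h3⟩ := exists_minimal U T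
  rcases G.eq_empty_or_nonempty with rfl | ⟨k, hk⟩
  · have hC : ∀ l ∈ T, Subsingleton (U l).P0 := by
      intro l hl
      haveI : Subsingleton (U l).C := by
        rw [← Submodule.subsingleton_iff A, ← subsingleton_iff_bot_eq_top, ← h2 l hl, eq_comm,
          eq_bot_iff]
        exact trS_le U (by simp)
      exact P0_triv (hI l) (hne l)
    have hk := (hT k0).mpr h0
    haveI := hC k0 hk
    haveI : Nontrivial (U k0).P1 := by
      by_contra hn
      rw [not_nontrivial_iff_subsingleton] at hn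
      apply hne k0
      funext N
      rw [Pres.th, hom_eq_zero.mpr orth_of_subsingleton_left,
        hom_eq_zero.mpr orth_of_subsingleton_left]
      simp
    obtain ⟨N, hN, -⟩ :=
      (eq_top_or_exists_le_coatom (⊥ : Submodule A (U k0).P1)).resolve_left bot_ne_top
    haveI : IsSimpleModule A ((U k0).P1.quo N) := isSimpleModule_iff_isCoatom.mpr hN
    have hq : N.mkQ ≠ 0 := fun h => hN.1 (by rw [← N.ker_mkQ, h, LinearMap.ker_zero])
    have h4 := key k0 hk ((U k0).P1.quo N) (fun l hl hlk => by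
      haveI := hC l hl
      rw [Pres.th, hom_eq_zero.mpr orth_of_subsingleton_left, hom_eq_zero.mpr]
      · simp
      intro φ
      by_contra hφ
      have hs := LinearMap.surjective_of_ne_zero hφ
      obtain ⟨α, hα⟩ := projective_lifting_property φ N.mkQ hs
      obtain ⟨β, hβ⟩ := projective_lifting_property N.mkQ φ N.mkQ_surjective
      refine hlk (hinj _ _ (same_ch (hI k0) (hI l) (a1 := α) (a0 := 0) (b1 := β) (b0 := 0)
        (fun _ => Subsingleton.elim _ _) (fun _ => Subsingleton.elim _ _) fun h => hq ?_)).symm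
      refine eq_zero_of_nilp (N := (U k0).P1.quo N) h.1 _ fun x => ?_
      exact (LinearMap.congr_fun hβ (α x)).trans (LinearMap.congr_fun hα x))
    have h5 := hom_pos (N := (U k0).P1.quo N) _ hq
    rw [Pres.th, hom_eq_zero.mpr orth_of_subsingleton_left] at h4
    omega
  · obtain ⟨B, p, hp, hp0, -, h4, -⟩ := exists_test hI hc hinj h2 (h3 k hk)
    have h5 : ∀ l, (U l).th B = hom (U l).C B := fun l =>
      (U l).ap.th_of_orth_I ((((U l).E0_iff_orth _).mp (hc l k)).of_surj p hp)
    have h6 := key k (h1 hk) B (fun l hl hlk => by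
      rw [h5, hom_eq_zero.mpr (h4 l hl hlk)]; rfl)
    have h7 := hom_pos p hp0
    rw [h5] at h6
    omega

end family

/-- finite product -/
abbrev Md.pi {κ : Type} [Finite κ] (M : κ → Md K A) : Md K A := ⟨(k : κ) → M k⟩

lemma hom_pi_left {κ : Type} [Fintype κ] (M : κ → Md K A) (X : Md K A) :
    hom (Md.pi M) X = ∑ k, hom (M k) X := by
  classical
  have := (LinearMap.lsum A (M := X) (fun k : κ => (M k : Type)) K).finrank_eq
  rw [finrank_pi_fintype] at this
  exact this.symm

lemma proj_pi {κ : Type} [Finite κ] (M : κ → Md K A) (h : ∀ k, Projective A (M k)) :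
    Projective A (Md.pi M) := by
  classical
  letI := Fintype.ofFinite κ
  exact Projective.of_equiv' (DFinsupp.linearEquivFunOnFintype (R := A) (M := fun k : κ => M k))

/-- direct sum of presentations -/
def Pres.sum {κ : Type} [Finite κ] (U : κ → Pres K A) : Pres K A :=
  @Pres.mk K A _ _ _ (Md.pi fun k => (U k).P1) (Md.pi fun k => (U k).P0)
    (proj_pi _ fun k => (U k).pr1) (proj_pi _ fun k => (U k).pr0)
    (LinearMap.pi fun k => (U k).f ∘ₗ LinearMap.proj k)

lemma Pres.th_sum {κ : Type} [Fintype κ] (U : κ → Pres K A) (N : Md K A) :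
    (Pres.sum U).th N = ∑ k, (U k).th N := by
  simp only [Pres.th, Pres.sum, hom_pi_left]
  push_cast
  rw [Finset.sum_sub_distrib]

lemma Pres.isCh_single {κ : Type} [Fintype κ] [DecidableEq κ] (U : κ → Pres K A) (k : κ) :
    IsCh (U k) (Pres.sum U) (LinearMap.single A (fun k => ((U k).P1 : Type)) k)
      (LinearMap.single A (fun k => ((U k).P0 : Type)) k) := by
  intro x
  funext l
  change (U l).f ((Pi.single k x : (k : κ) → (U k).P1) l)
    = (Pi.single k ((U k).f x) : (k : κ) → (U k).P0) l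
  by_cases h : l = k
  · subst h; simp
  · simp [h]

lemma Pres.retr_sum {κ : Type} [Fintype κ] (U : κ → Pres K A) (k : κ) :
    Retr (U k) (Pres.sum U) := by
  classical
  exact ⟨_, _, LinearMap.proj k, LinearMap.proj k, Pres.isCh_single U k, fun _ => rfl,
    fun x => Pi.single_eq_same (M := fun k => ((U k).P1 : Type)) k x,
    fun x => Pi.single_eq_same (M := fun k => ((U k).P0 : Type)) k x⟩

lemma Pres.E0_sum {κ : Type} [Fintype κ] {U : κ → Pres K A} {N : Md K A}
    (h : ∀ k, (U k).E0 N) : (Pres.sum U).E0 N := by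
  classical
  intro g
  choose c hc using fun k => h k (g ∘ₗ LinearMap.single A (fun k => ((U k).P1 : Type)) k)
  refine ⟨LinearMap.lsum A (fun k => ((U k).P0 : Type)) K c, LinearMap.pi_ext fun k x => ?_⟩
  refine Eq.trans ?_ (LinearMap.congr_fun (hc k) x)
  rw [LinearMap.comp_apply]
  refine (congrArg _ (Pres.isCh_single U k x)).trans ?_
  exact LinearMap.lsum_piSingle A (fun k => ((U k).P0 : Type)) K c k _

lemma Pres.orth_sum {κ : Type} [Fintype κ] {U : κ → Pres K A} {Y : Md K A}
    (h : ∀ k, Orth (U k).C Y) : Orth (Pres.sum U).C Y := by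
  classical
  intro φ
  refine Submodule.linearMap_qext _ (LinearMap.pi_ext fun k x => ?_)
  exact LinearMap.congr_fun (h k (φ ∘ₗ (Pres.isCh_single U k).ind)) ((U k).π x)

lemma Pres.rigid_sum {κ : Type} [Fintype κ] {U : κ → Pres K A} (hc : ∀ k l, (U k).E0 (U l).C) :
    (Pres.sum U).E0 (Pres.sum U).C :=
  Pres.E0_sum fun k => ((U k).E0_iff_orth _).mpr
    (Pres.orth_sum fun l => ((U k).E0_iff_orth _).mp (hc k l))

theorem bongartz (U : Pres K A) (hU : U.E0 U.C) (Q : Md K A) [Projective A Q] :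
    ∃ (E : Pres K A) (m : ℕ), (∀ N, E.th N = hom Q N + m * U.th N) ∧
      (∀ N, U.E0 N → E.E0 N) ∧ U.E0 E.C := by
  classical
  let m := finrank K (U.P1 →ₗ[A] Q)
  let b := finBasis K (U.P1 →ₗ[A] Q)
  let F : U.P1.pow (Fin m) →ₗ[A] Q.prod (U.P0.pow (Fin m)) :=
    (∑ i, b i ∘ₗ LinearMap.proj i).prod (U.f.compLeft (Fin m))
  let E : Pres K A := ⟨U.P1.pow (Fin m), Q.prod (U.P0.pow (Fin m)), F⟩
  have hF : ∀ i x, F (Pi.single i x) = (b i x, Pi.single i (U.f x)) := by
    intro i x
    refine Prod.ext ?_ ?_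
    · change (∑ j, b j ∘ₗ LinearMap.proj (φ := fun _ : Fin m => (U.P1 : Type)) j) (Pi.single i x) = _
      rw [LinearMap.sum_apply, Finset.sum_eq_single i]
      · simp
      · intro j _ hj; simp [hj]
      · simp
    · funext j
      change U.f ((Pi.single i x : Fin m → U.P1) j) = (Pi.single i (U.f x) : Fin m → U.P0) j
      by_cases h : j = i
      · subst h; simp
      · simp [h]
  refine ⟨E, m, fun N => ?_, fun N hN g => ?_, fun h => ?_⟩
  · simp only [Pres.th, E, hom_prod_left, hom_pow_left, Fintype.card_fin]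
    push_cast
    ring
  · choose c hc using fun i => hN (g ∘ₗ LinearMap.single A (fun _ : Fin m => (U.P1 : Type)) i)
    refine ⟨LinearMap.lsum A (fun _ : Fin m => (U.P0 : Type)) K c ∘ₗ LinearMap.snd A _ _,
      LinearMap.pi_ext fun i x => ?_⟩
    refine Eq.trans ?_ (LinearMap.congr_fun (hc i) x)
    change LinearMap.lsum A (fun _ : Fin m => (U.P0 : Type)) K c (F (Pi.single i x)).2 = _
    rw [hF]
    exact LinearMap.lsum_piSingle A (fun _ : Fin m => (U.P0 : Type)) K c i _
  · let p : E.C →ₗ[A] U.C.pow (Fin m) := (LinearMap.range F).liftQ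
      (U.π.compLeft (Fin m) ∘ₗ LinearMap.snd A _ _) (by
        rintro _ ⟨x, rfl⟩
        funext i
        exact U.π_f (x i))
    have hp : Function.Surjective p := by
      intro y
      choose x hx using fun i => U.π_surj (y i)
      exact ⟨E.π (0, x), funext hx⟩
    choose k hk using fun i => hU (LinearMap.proj i ∘ₗ p ∘ₗ h)
    obtain ⟨k', hk'⟩ := projective_lifting_property p (LinearMap.pi k) hp
    obtain ⟨g, hg⟩ := lift_range (M := Q) (E.π ∘ₗ LinearMap.inl A _ _) (h - k' ∘ₗ U.f) (fun x => by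
      obtain ⟨⟨q, y⟩, hy⟩ := E.π_surj ((h - k' ∘ₗ U.f) x)
      have h1 : ∀ i, U.π (y i) = 0 := by
        intro i
        have h2 := congrFun (congrArg p hy) i
        refine h2.trans ?_
        rw [LinearMap.sub_apply, map_sub, Pi.sub_apply, sub_eq_zero]
        exact (LinearMap.congr_fun (hk i) x).symm.trans
          (congrFun (LinearMap.congr_fun hk' (U.f x)) i).symm
      choose z hz using fun i => (Submodule.Quotient.mk_eq_zero _).mp (h1 i)
      refine ⟨q - (F z).1, ?_⟩
      rw [← hy]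
      change E.π (q - (F z).1, 0) = E.π (q, y)
      rw [← sub_eq_zero, ← map_sub, ← neg_eq_zero, ← map_neg, ← E.π_f z]
      congr 1
      refine Prod.ext (by simp [E]) (funext fun i => ?_)
      change -(0 - y i) = U.f (z i)
      rw [hz i]; simp)
    refine ⟨k' - ∑ i, b.repr g i • (E.π ∘ₗ LinearMap.inr A _ _ ∘ₗ
      LinearMap.single A (fun _ : Fin m => (U.P0 : Type)) i), LinearMap.ext fun x => ?_⟩
    have h1 := hg x
    rw [LinearMap.sub_apply, eq_sub_iff_add_eq] at h1
    rw [← h1, LinearMap.comp_apply, LinearMap.sub_apply, sub_eq_add_neg, add_comm]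
    congr 1
    conv_rhs => rw [← b.sum_repr g]
    simp only [LinearMap.sum_apply, LinearMap.smul_apply, map_sum, LinearMap.map_smul_of_tower,
      ← Finset.sum_neg_distrib, ← smul_neg]
    refine Finset.sum_congr rfl fun i _ => ?_
    congr 1
    rw [neg_eq_iff_add_eq_zero, ← E.π_f (Pi.single i x)]
    change E.π _ + E.π _ = E.π (F _)
    rw [← map_add, hF]
    congr 1
    exact Prod.ext (zero_add _) (add_zero _)

end Pool.Agent.P.MP_a7c6c4_al
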