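import Pool.Agent.P.MP_a7c6c4_al.Fam

/-! Integrality of rigid lattice points and finiteness of stable modules. -/

set_option autoImplicit false
set_option linter.unusedSectionVars false
set_option linter.style.haveILetI false

open Module

namespace Pool.Agent.P.MP_a7c6c4_al

open Md

variable {K A : Type} [Field K] [Ring A] [Algebra K A] [FiniteDimensional K A]

/-- a positive integral combination of a compatible family of indecomposables -/
def HasFam (θ : Md K A → ℤ) : Prop :=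
  ∃ (κ : Type) (_ : Fintype κ) (U : κ → Pres K A) (n : κ → ℕ),
    (∀ k, Indec (U k)) ∧ (∀ k l, (U k).E0 (U l).C) ∧ (∀ k l, (U k).th = (U l).th → k = l) ∧
      (∀ k, 0 < n k) ∧ ∀ N, θ N = ∑ k, n k * (U k).th N

lemma exists_index (L : List (Pres K A)) :
    ∃ (κ : Type) (_ : Fintype κ) (V : κ → Pres K A), (∀ j, V j ∈ L) ∧ (∀ j, (V j).th ≠ 0) ∧
      (∀ k l, (V k).th = (V l).th → k = l) ∧ ∀ X ∈ L, X.th = 0 ∨ ∃ j, (V j).th = X.th := by
  classical
  let T : Finset (Md K A → ℤ) := (L.map Pres.th).toFinset.erase 0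
  have h1 : ∀ t : T, ∃ X ∈ L, X.th = t := fun t => by
    simpa using (Finset.mem_erase.mp t.2).2
  choose X hX1 hX2 using h1
  refine ⟨Fin T.card, inferInstance, fun j => X (T.equivFin.symm j), fun j => hX1 _,
    fun j => ?_, fun k l h => ?_, fun Y hY => ?_⟩
  · rw [hX2]; exact (Finset.mem_erase.mp (T.equivFin.symm j).2).1
  · rw [hX2, hX2] at h
    exact T.equivFin.symm.injective (Subtype.ext h)
  · by_cases h : Y.th = 0
    · exact Or.inl h
    · refine Or.inr ⟨T.equivFin ⟨Y.th, Finset.mem_erase.mpr ⟨h, ?_⟩⟩, ?_⟩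
      · simpa using ⟨Y, hY, rfl⟩
      · rw [hX2]; simp

lemma exists_coeff {κ : Type} [Fintype κ] (V : κ → Pres K A) (L : List (Pres K A))
    (h : ∀ X ∈ L, X.th = 0 ∨ ∃ j, (V j).th = X.th) :
    ∃ m : κ → ℕ, ∀ N, (L.map fun X => X.th N).sum = ∑ j, m j * (V j).th N := by
  classical
  induction L with
  | nil => exact ⟨0, by simp⟩
  | cons X L ih =>
    obtain ⟨m, hm⟩ := ih fun Y hY => h Y (List.mem_cons_of_mem _ hY)
    rcases h X List.mem_cons_self with h0 | ⟨j, hj⟩
    · exact ⟨m, fun N => by simp [hm, h0]⟩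
    · refine ⟨m + Pi.single j 1, fun N => ?_⟩
      simp only [List.map_cons, List.sum_cons, hm, Pi.add_apply, Nat.cast_add, add_mul,
        Finset.sum_add_distrib]
      rw [add_comm, Finset.sum_eq_single j (f := fun x => ((Pi.single j 1 : κ → ℕ) x : ℤ) * _)]
      · simp [hj]
      · intro l _ hl; simp [hl]
      · simp

theorem hasFam_of_real {κ : Type} [Fintype κ] (U : κ → Pres K A)
    (hc : ∀ k l, (U k).E0 (U l).C) (a : κ → ℝ) (ha : ∀ k, 0 ≤ a k) (P Q : Md K A)
    [Projective A P] [Projective A Q]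
    (h : ∀ N, (lat P Q N : ℝ) = ∑ k, a k * (U k).th N) : HasFam (lat P Q) := by
  classical
  let W := Pres.sum U
  have hW : W.E0 W.C := Pres.rigid_sum hc
  obtain ⟨EP, mP, p1, p2, p3⟩ := bongartz W hW P
  obtain ⟨EQ, mQ, q1, q2, q3⟩ := bongartz W hW Q
  obtain ⟨LP, p4, p5⟩ := decomp EP
  obtain ⟨LQ, q4, q5⟩ := decomp EQ
  choose L l4 l5 using fun k => decomp (U k)
  let Ok : Pres K A → Prop := fun X => (∀ N, W.E0 N → X.E0 N) ∧ W.E0 X.C
  have hOk : ∀ X Y, Ok Y → Retr X Y → Ok X := by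
    intro X Y hY hr
    obtain ⟨p, hp⟩ := hr.surj
    exact ⟨fun N hN => hr.E0 (hY.1 N hN), hY.2.of_surj p hp⟩
  let Lall := LP ++ LQ ++ Finset.univ.toList.flatMap L
  have hall : ∀ X ∈ Lall, Indec X ∧ Ok X := by
    intro X hX
    simp only [Lall, List.mem_append, List.mem_flatMap] at hX
    rcases hX with (hX | hX) | ⟨k, -, hX⟩
    · exact ⟨(p4 X hX).1, hOk X EP ⟨p2, p3⟩ (p4 X hX).2⟩
    · exact ⟨(q4 X hX).1, hOk X EQ ⟨q2, q3⟩ (q4 X hX).2⟩
    · exact ⟨(l4 k X hX).1, hOk X W ⟨fun _ h => h, hW⟩ ((l4 k X hX).2.trans (Pres.retr_sum U k))⟩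
  obtain ⟨κ0, _, V, v1, v2, v3, v4⟩ := exists_index Lall
  have hI : ∀ j, Indec (V j) := fun j => (hall _ (v1 j)).1
  have hc' : ∀ j l, (V j).E0 (V l).C := fun j l => (hall _ (v1 j)).2.1 _ (hall _ (v1 l)).2.2
  obtain ⟨cP, hP⟩ := exists_coeff V LP fun X hX => v4 X (by simp [Lall, hX])
  obtain ⟨cQ, hQ⟩ := exists_coeff V LQ fun X hX => v4 X (by simp [Lall, hX])
  choose c hcc using fun k => exists_coeff V (L k) fun X hX => v4 X (by
    simp only [Lall, List.mem_append, List.mem_flatMap]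
    exact Or.inr ⟨k, by simp, hX⟩)
  let z : κ0 → ℤ := fun j => cQ j - cP j + ((mP : ℤ) - mQ) * ∑ k, (c k j : ℤ)
  have hWth : ∀ N, W.th N = ∑ j, (∑ k, (c k j : ℤ)) * (V j).th N := by
    intro N
    rw [Pres.th_sum]
    simp only [l5, hcc, Finset.sum_mul]
    exact Finset.sum_comm
  have hz : ∀ N, lat P Q N = ∑ j, z j * (V j).th N := by
    intro N
    have e1 := p1 N
    have e2 := q1 N
    rw [p5, hP] at e1
    rw [q5, hQ] at e2
    simp only [z, add_mul, sub_mul, Finset.sum_add_distrib, Finset.sum_sub_distrib, mul_assoc,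
      ← Finset.mul_sum]
    rw [← hWth, e1, e2, lat]
    ring
  have hz0 : ∀ j, 0 ≤ z j := by
    intro j
    have := independent hI hc' v3 v2 (fun j => z j - ∑ k, a k * c k j) (fun N => by
      simp only [sub_mul, Finset.sum_sub_distrib, Finset.sum_mul]
      rw [Finset.sum_comm, sub_eq_zero]
      have e1 := h N
      rw [hz] at e1
      push_cast at e1
      rw [e1]
      refine Finset.sum_congr rfl fun k _ => ?_
      rw [l5, hcc]
      push_cast
      simp only [Finset.mul_sum, mul_assoc]) j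
    have h2 : 0 ≤ ∑ k, a k * c k j :=
      Finset.sum_nonneg fun k _ => mul_nonneg (ha k) (Nat.cast_nonneg _)
    have h3 : (0 : ℝ) ≤ z j := by linarith
    exact_mod_cast h3
  refine ⟨{j // 0 < z j}, inferInstance, fun j => V j, fun j => (z j).toNat, fun j => hI _,
    fun j l => hc' _ _, fun j l h => Subtype.ext (v3 _ _ h), fun j => ?_, fun N => ?_⟩
  · have := j.2
    change 0 < (z j).toNat
    omega
  · rw [hz, ← Fintype.sum_subtype_add_sum_subtype (fun j => 0 < z j)]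
    rw [Finset.sum_eq_zero (s := Finset.univ (α := {j // ¬ 0 < z j})), add_zero]
    · exact Finset.sum_congr rfl fun j _ => by rw [Int.toNat_of_nonneg (hz0 j)]
    · intro j _
      have h1 := j.2
      have h2 := hz0 j
      rw [show z j = 0 by omega, zero_mul]

lemma HasFam.pres {θ : Md K A → ℤ} (h : HasFam θ) : ∃ V : Pres K A, V.E0 V.C ∧ V.th = θ := by
  obtain ⟨κ, _, U, n, -, h2, -, -, h5⟩ := h
  refine ⟨Pres.sum fun x : (Σ k, Fin (n k)) => U x.1, Pres.rigid_sum fun _ _ => h2 _ _, ?_⟩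
  funext N
  rw [Pres.th_sum, h5, Fintype.sum_sigma]
  simp

lemma finIso_of_unique {𝒳 : Md K A → Prop}
    (h : ∀ M N, 𝒳 M → 𝒳 N → Nonempty (M ≃ₗ[A] N)) : FinIso 𝒳 := by
  by_cases h0 : ∃ M, 𝒳 M
  · obtain ⟨M, hM⟩ := h0
    exact ⟨[M], fun N hN => ⟨M, by simp, h N M hN hM⟩⟩
  · exact ⟨[], fun N hN => absurd ⟨N, hN⟩ h0⟩

lemma finIso_list {α : Type*} (L : List α) {𝒳 : α → Md K A → Prop}
    (h : ∀ x ∈ L, FinIso (𝒳 x)) : FinIso (fun M => ∃ x ∈ L, 𝒳 x M) := by
  induction L with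
  | nil => exact ⟨[], by simp⟩
  | cons x L ih =>
    refine ((h x List.mem_cons_self).or (ih fun y hy => h y (List.mem_cons_of_mem _ hy))).mono ?_
    rintro M ⟨y, hy, h1⟩
    rcases List.mem_cons.mp hy with rfl | hy
    · exact Or.inl h1
    · exact Or.inr ⟨y, hy, h1⟩

lemma TT.ker {θ : Md K A → ℤ} (h : Addi θ) {M N : Md K A} (hM : TT θ M) (p : M →ₗ[A] N)
    (hp : Function.Surjective p) (h0 : θ N = 0) : TT θ (M.sub (LinearMap.ker p)) := by
  intro X
  have h1 := h.map_inj (M := M.sub (LinearMap.ker p)) (N := M) (LinearMap.ker p).subtype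
    (Submodule.injective_subtype _) X
  have h2 := hM (X.map (LinearMap.ker p).subtype)
  have h3 := h.surj p hp
  omega

lemma hom_reg_pos (S : Md K A) [Nontrivial S] : 0 < hom (reg K A) S := by
  obtain ⟨x, hx⟩ := exists_ne (0 : S)
  refine hom_pos (M := reg K A) (sp x) fun h => hx ?_
  simpa using LinearMap.congr_fun h 1

lemma exists_pos_of_sum {α : Type*} (L : List α) (f : α → ℤ) (h : 0 < (L.map f).sum) :
    ∃ x ∈ L, 0 < f x := by
  induction L with
  | nil => simp at h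
  | cons x L ih =>
    by_cases h1 : 0 < f x
    · exact ⟨x, List.mem_cons_self, h1⟩
    · rw [List.map_cons, List.sum_cons] at h
      obtain ⟨y, h2, h3⟩ := ih (by omega)
      exact ⟨y, List.mem_cons_of_mem _ h2, h3⟩

theorem finStab (V : Pres K A) (hV : V.E0 V.C) : FinIso (Stable V.th) := by
  have h := V.addi_th
  have hR : V.ap.Rigid := (V.E0_iff_orth _).mp hV
  obtain ⟨E, m, e1, e2, e3⟩ := bongartz V hV (reg K A)
  obtain ⟨L, l1, l2⟩ := decomp E
  have hT : ∀ X ∈ L, TT V.th X.C := by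
    intro X hX
    obtain ⟨p, hp⟩ := (l1 X hX).2.surj
    exact V.ap.tt_of_orth ((V.E0_iff_orth _).mp (e3.of_surj p hp))
  refine (finIso_list L (𝒳 := fun X S => Stable V.th S ∧
    ∃ p : X.C →ₗ[A] S, Function.Surjective p) fun X hX => finIso_of_unique ?_).mono ?_
  · rintro S S' ⟨hS, p, hp⟩ ⟨hS', p', hp'⟩
    haveI := hS.1
    haveI := hS'.1
    have hp0 : p' ≠ 0 := by
      rintro rfl
      obtain ⟨y, hy⟩ := exists_ne (0 : S')
      obtain ⟨x, rfl⟩ := hp' y
      exact hy rfl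
    have h1 := (hT X hX).ker h p hp hS.2.1
    let q : X.C.sub (LinearMap.ker p) →ₗ[A] S' := p' ∘ₗ (LinearMap.ker p).subtype
    by_cases hq : q = 0
    · let r : S →ₗ[A] S' := (LinearMap.ker p).liftQ p'
        (fun x hx => LinearMap.congr_fun hq ⟨x, hx⟩) ∘ₗ (p.quotKerEquivOfSurjective hp).symm.toLinearMap
      refine ⟨LinearEquiv.ofBijective r (hS.bij h hS' r fun h0 => hp0 (LinearMap.ext fun x => ?_))⟩
      have := LinearMap.congr_fun h0 (p x)
      simpa [r] using this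
    · exfalso
      have h2 := hS'.surj_of_TT h h1 q hq
      have h3 := h1.ker h q h2 hS'.2.1
      have h4 := (l1 X hX).2.E0 (e2 _ ((V.E0_iff_orth _).mpr (hR.orth_of_tt h3)))
      obtain ⟨α, hα⟩ := Pres.lift q h2 h4 p'
      rcases (l1 X hX).1.locEnd ((LinearMap.ker p).subtype ∘ₗ α) with h5 | h5
      · exact hp0 (eq_zero_of_nilp h5 p' hα)
      · obtain ⟨y, hy⟩ := exists_ne (0 : S)
        obtain ⟨x, rfl⟩ := hp y
        obtain ⟨x, rfl⟩ := h5.2 x
        exact hy (α x).2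
  · intro S hS
    haveI := hS.1
    have h1 := e1 S
    have h2 := hom_reg_pos S
    rw [hS.2.1, l2] at h1
    obtain ⟨X, hX, h3⟩ := exists_pos_of_sum L (fun X => X.th S) (by omega)
    have h4 := X.ap.th_le S
    obtain ⟨φ, hφ⟩ := exists_of_hom_ne (M := X.C) (N := S) (by
      change X.th S ≤ hom X.C S at h4
      omega)
    exact ⟨X, hX, hS, φ, hS.surj_of_TT h (hT X hX) φ hφ⟩

/-- lattice points -/
def IsLat (θ : Md K A → ℤ) : Prop :=
  ∃ (P Q : Md K A) (_ : Projective A P) (_ : Projective A Q), θ = lat P Q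

lemma IsLat.add {θ η : Md K A → ℤ} (h : IsLat θ) (h' : IsLat η) : IsLat (θ + η) := by
  obtain ⟨P, Q, _, _, rfl⟩ := h
  obtain ⟨P', Q', _, _, rfl⟩ := h'
  refine ⟨P.prod P', Q.prod Q', inferInstance, inferInstance, funext fun N => ?_⟩
  simp only [Pi.add_apply, lat, hom_prod_left]
  push_cast
  ring

lemma IsLat.neg {θ : Md K A → ℤ} (h : IsLat θ) : IsLat (-θ) := by
  obtain ⟨P, Q, _, _, rfl⟩ := h
  refine ⟨Q, P, inferInstance, inferInstance, funext fun N => ?_⟩
  simp [lat]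

lemma isLat_zero : IsLat (0 : Md K A → ℤ) :=
  ⟨reg K A, reg K A, inferInstance, inferInstance, funext fun N => by simp [lat]⟩

lemma IsLat.nsmul {θ : Md K A → ℤ} (h : IsLat θ) (n : ℕ) : IsLat (n • θ) := by
  induction n with
  | zero => rw [zero_smul]; exact isLat_zero
  | succ n ih => rw [succ_nsmul]; exact ih.add h

lemma IsLat.addi {θ : Md K A → ℤ} (h : IsLat θ) : Addi θ := by
  obtain ⟨P, Q, _, _, rfl⟩ := h
  exact addi_lat P Q

lemma isLat_hom (Q : Md K A) [Projective A Q] : IsLat (fun N => (hom Q N : ℤ)) :=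
  ⟨Md.zero, Q, inferInstance, inferInstance, funext fun N => by
    rw [lat, hom_eq_zero.mpr (orth_of_subsingleton_left (M := Md.zero))]; simp⟩

theorem hasFam_of_not_infSB (hH : ¬ InfSB K A) {θ : Md K A → ℤ} (h : IsLat θ) : HasFam θ := by
  obtain ⟨P, Q, _, _, rfl⟩ := h
  obtain ⟨ι, _, _, f, hf⟩ := exists_rigid_multiple hH P Q
  refine hasFam_of_real (fun _ : Unit => pw ι f) (fun _ _ => hf)
    (fun _ => (Fintype.card ι : ℝ)⁻¹) (fun _ => by positivity) P Q fun N => ?_
  have : (Fintype.card ι : ℝ) ≠ 0 := Nat.cast_ne_zero.mpr Fintype.card_ne_zero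
  rw [Fintype.sum_unique, th_pw]
  push_cast
  field_simp

/-- finitely many stable modules on the rational plane spanned by two lattice points, if the
lattice points of that plane are rigid -/
theorem finIso_plane {θ η : Md K A → ℤ}
    (h : ∀ a b : ℤ, HasFam (a • θ + b • η)) :
    FinIso (fun M => ∃ a b : ℤ, Stable (a • θ + b • η) M) := by
  let L : (Md K A → ℤ) → Prop := fun t => ∃ a b : ℤ, t = a • θ + b • η
  have hadd : ∀ t s, L t → L s → L (t + s) := by
    rintro _ _ ⟨a, b, rfl⟩ ⟨c, d, rfl⟩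
    exact ⟨a + c, b + d, by module⟩
  have hrig : ∀ t, L t → ∃ U : AP K A, U.Rigid ∧ U.th = t := by
    rintro _ ⟨a, b, rfl⟩
    obtain ⟨V, h1, h2⟩ := (h a b).pres
    exact ⟨V.ap, (V.E0_iff_orth _).mp h1, h2⟩
  have hfin : ∀ t, L t → FinIso (Stable t) := by
    rintro _ ⟨a, b, rfl⟩
    obtain ⟨V, h1, h2⟩ := (h a b).pres
    exact h2 ▸ finStab V h1
  have hseg : ∀ s t : ℤ, FinIso (SegStable (s • θ) (t • η)) := fun s t =>
    potential L hadd hrig hfin ⟨s, 0, by simp⟩ ⟨0, t, by simp⟩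
  refine (finIso_list [((1 : ℤ), (1 : ℤ)), (1, -1), (-1, 1), (-1, -1), (0, 1), (0, -1), (1, 0),
    (-1, 0), (0, 0)] (𝒳 := fun x => SegStable (x.1 • θ) (x.2 • η)) fun x _ => hseg _ _).mono ?_
  rintro M ⟨a, b, hM⟩
  refine ⟨(a.sign, b.sign), ?_, max a.natAbs 1, max b.natAbs 1, by omega, by omega, ?_⟩
  · rcases lt_trichotomy a 0 with h1 | rfl | h1 <;> rcases lt_trichotomy b 0 with h2 | rfl | h2 <;>
      simp [Int.sign_eq_one_of_pos, Int.sign_eq_neg_one_of_neg, *]
  · have key : ∀ (c : ℤ) (t : Md K A → ℤ), max c.natAbs 1 • c.sign • t = c • t := by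
      intro c t
      rw [← natCast_zsmul, smul_smul]
      congr 1
      rcases lt_trichotomy c 0 with h1 | rfl | h1
      · rw [Int.sign_eq_neg_one_of_neg h1]; omega
      · simp
      · rw [Int.sign_eq_one_of_pos h1]; omega
    rwa [key, key]

end Pool.Agent.P.MP_a7c6c4_al
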