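import Mathlib

/-! Regularity of blow-ups of a matrix space: the least nullity of a `d × d` blow-up may be
rounded down to a multiple of `d` after passing to a larger blow-up. -/

set_option autoImplicit false
set_option linter.unusedSectionVars false
set_option linter.style.haveILetI false

open Matrix Module Polynomial

namespace Pool.Agent.P.MP_a7c6c4_al

section minors

variable {F : Type*} [Field F] {p n : Type*} [Fintype p] [Fintype n]

lemma exists_cols (X : Matrix p n F) (k : ℕ) (hk : X.rank = k) :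
    ∃ c : Fin k → n, LinearIndependent F (fun j => X.col (c j)) := by
  classical
  obtain ⟨κ, a, ha, hsp, hli⟩ := exists_linearIndependent' F X.col
  haveI : Finite κ := Finite.of_injective a ha
  letI := Fintype.ofFinite κ
  have h1 : Fintype.card κ = k := by
    rw [← hk, rank_eq_finrank_span_cols, ← hsp]
    exact linearIndependent_iff_card_eq_finrank_span.mp hli
  let e : Fin k ≃ κ := (Fintype.equivFinOfCardEq h1).symm
  exact ⟨fun j => a (e j), hli.comp e e.injective⟩

lemma exists_minor (X : Matrix p n F) (k : ℕ) (hk : X.rank = k) :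
    ∃ (r : Fin k → p) (c : Fin k → n), (X.submatrix r c).det ≠ 0 := by
  classical
  obtain ⟨c, hc⟩ := exists_cols X k hk
  have h2 : ((X.submatrix id c)ᵀ).rank = k := by
    have : LinearIndependent F ((X.submatrix id c)ᵀ).row := hc
    rw [this.rank_matrix, Fintype.card_fin]
  obtain ⟨r, hr⟩ := exists_cols _ k h2
  refine ⟨r, c, ?_⟩
  have h3 : LinearIndependent F (X.submatrix r c).row := hr
  have h4 := linearIndependent_rows_iff_isUnit.mp h3
  exact ((isUnit_iff_isUnit_det _).mp h4).ne_zero

lemma le_rank_of_minor (X : Matrix p n F) (k : ℕ) (r : Fin k → p) (c : Fin k → n)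
    (h : (X.submatrix r c).det ≠ 0) : k ≤ X.rank := by
  have := rank_of_det_ne_zero h
  rw [Fintype.card_fin] at this
  exact this ▸ rank_submatrix_le X r c

/-- rank under two specialisations of a matrix over a commutative ring -/
lemma exists_elt_rank {R : Type*} [CommRing R] (X : Matrix p n R) (φ : R →+* F) :
    ∃ a : R, φ a ≠ 0 ∧ ∀ {F' : Type _} [Field F'] (ψ : R →+* F'), ψ a ≠ 0 →
      (X.map φ).rank ≤ (X.map ψ).rank := by
  classical
  obtain ⟨r, c, h⟩ := exists_minor (X.map φ) _ rfl
  refine ⟨(X.submatrix r c).det, ?_, ?_⟩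
  · rw [RingHom.map_det]; exact h
  · intro F' _ ψ hψ
    apply le_rank_of_minor _ _ r c
    rw [RingHom.map_det] at hψ; exact hψ

end minors

section semilinear

variable {L : Type*} [Field L] {p n : Type*} [Fintype p] [Fintype n] [DecidableEq n]

lemma exists_norm (σ : L →+* L) (d : ℕ) (hσ : ∀ x, σ^[d] x = x) (t : L)
    (X : Matrix p n L) (T1 : Matrix n n L) (T2 : Matrix p p L)
    (hT : T1.map σ = T1) (hd : T1 ^ d = t • (1 : Matrix n n L))
    (hX : X * T1 = T2 * X.map σ) :
    ∃ g : L, ∏ i ∈ Finset.range d, σ^[i] g = t ^ (finrank L (LinearMap.ker X.mulVecLin)) := by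
  classical
  set N := LinearMap.ker X.mulVecLin with hN
  set r := finrank L N
  let b : Basis (Fin r) L N := finBasis L N
  let Bm : Matrix n (Fin r) L := Matrix.of fun i j => (b j : n → L) i
  have hXB : X * Bm = 0 := by
    ext i j
    have := congrFun (LinearMap.mem_ker.mp (b j).2) i
    rw [Matrix.mul_apply]
    exact this
  have hmem : ∀ j, (T1 * Bm.map σ).col j ∈ N := by
    intro j
    have h1 : X * (T1 * Bm.map σ) = 0 := by
      rw [← Matrix.mul_assoc, hX, Matrix.mul_assoc, ← Matrix.map_mul, hXB]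
      simp
    rw [hN, LinearMap.mem_ker]
    funext i
    have := congrFun (congrFun h1 i) j
    simpa [Matrix.mul_apply, mulVec, dotProduct] using this
  let G : Matrix (Fin r) (Fin r) L := Matrix.of fun i j => b.repr ⟨_, hmem j⟩ i
  have hG : T1 * Bm.map σ = Bm * G := by
    ext i j
    have := congrArg (fun v : N => (v : n → L) i) (b.sum_repr ⟨_, hmem j⟩)
    simp only [Submodule.coe_sum, Submodule.coe_smul, Finset.sum_apply, Pi.smul_apply,
      smul_eq_mul] at this
    rw [Matrix.mul_apply (M := Bm)]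
    simp only [Bm, G, of_apply]
    rw [show (T1 * (Matrix.of fun i j => (b j : n → L) i).map σ) i j
      = (T1 * Bm.map σ).col j i from rfl, ← this]
    exact Finset.sum_congr rfl fun _ _ => mul_comm _ _
  have hiter : ∀ k : ℕ, ∃ P : Matrix (Fin r) (Fin r) L,
      T1 ^ k * Bm.map (σ ^ k) = Bm * P ∧ P.det = ∏ i ∈ Finset.range k, σ^[i] G.det := by
    intro k
    induction k with
    | zero => exact ⟨1, by simp, by simp⟩
    | succ k ih =>
      obtain ⟨P, hP, hdet⟩ := ih
      refine ⟨P * G.map (σ ^ k), ?_, ?_⟩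
      · have hTk : T1.map (σ ^ k) = T1 := by
          clear hP hdet
          induction k with
          | zero => simp
          | succ k ih2 =>
            rw [pow_succ, RingHom.mul_def, RingHom.coe_comp, ← Matrix.map_map, hT, ih2]
        have h1 : Bm.map (σ ^ (k + 1)) = (Bm.map σ).map (σ ^ k) := by
          rw [pow_succ, RingHom.mul_def, RingHom.coe_comp, ← Matrix.map_map]
        rw [h1, pow_succ, Matrix.mul_assoc, ← Matrix.mul_assoc Bm, ← hP, Matrix.mul_assoc]
        congr 1
        rw [← Matrix.map_mul, ← hG, Matrix.map_mul, hTk]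
      · rw [det_mul, hdet, Finset.prod_range_succ, ← RingHom.mapMatrix_apply, ← RingHom.map_det,
          RingHom.coe_pow]
  obtain ⟨P, hP, hdet⟩ := hiter d
  have hid : Bm.map (σ ^ d) = Bm := by
    ext i j; simp [RingHom.coe_pow, hσ]
  rw [hid, hd] at hP
  have hinj : LinearIndependent L Bm.col := by
    have := b.linearIndependent.map' N.subtype (Submodule.ker_subtype N)
    exact this
  have hPt : P = t • (1 : Matrix (Fin r) (Fin r) L) := by
    have h0 : Bm * (P - t • (1 : Matrix (Fin r) (Fin r) L)) = 0 := by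
      rw [Matrix.mul_sub, ← hP]; simp
    have hi : Function.Injective Bm.mulVec := mulVec_injective_iff.mpr hinj
    ext i j
    have h2 : Bm.mulVec ((P - t • (1 : Matrix (Fin r) (Fin r) L)).col j) = Bm.mulVec 0 := by
      funext a
      have := congrFun (congrFun h0 a) j
      simpa [Matrix.mul_apply, mulVec, dotProduct] using this
    have := congrFun (hi h2) i
    simpa [sub_eq_zero] using this
  refine ⟨G.det, ?_⟩
  rw [← hdet, hPt, det_smul]; simp

end semilinear

lemma dvd_of_norm {A L : Type*} [CommRing A] [IsDomain A] [Field L] [Algebra A[X] L]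
    [IsFractionRing A[X] L] (τ : A →+* A) (hτ : Function.Injective τ) (σ : L →+* L)
    (hσ : ∀ a : A[X], σ (algebraMap _ L a) = algebraMap _ L (a.map τ)) (d r : ℕ) (g : L)
    (h : ∏ i ∈ Finset.range d, σ^[i] g = (algebraMap A[X] L X) ^ r) : d ∣ r := by
  obtain ⟨a, b, hb, rfl⟩ := IsFractionRing.div_surjective (A := A[X]) g
  have hb0 : b ≠ 0 := nonZeroDivisors.ne_zero hb
  have hit : ∀ (i : ℕ) (a : A[X]), σ^[i] (algebraMap _ L a)
      = algebraMap _ L ((Polynomial.map τ)^[i] a) := by
    intro i
    induction i with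
    | zero => intro a; rfl
    | succ i ih => intro a; rw [Function.iterate_succ_apply, hσ, ih]; rfl
  have hdeg : ∀ (i : ℕ) (a : A[X]), ((Polynomial.map τ)^[i] a).natDegree = a.natDegree := by
    intro i
    induction i with
    | zero => intro a; rfl
    | succ i ih =>
      intro a; rw [Function.iterate_succ_apply, ih, natDegree_map_eq_of_injective hτ]
  have hne : ∀ (i : ℕ) (a : A[X]), a ≠ 0 → (Polynomial.map τ)^[i] a ≠ 0 := by
    intro i
    induction i with
    | zero => intro a ha; exact ha
    | succ i ih =>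
      intro a ha; rw [Function.iterate_succ_apply]
      exact ih _ ((Polynomial.map_ne_zero_iff hτ).mpr ha)
  have hinj := IsFractionRing.injective A[X] L
  have h1 : ∀ i : ℕ, σ^[i] (algebraMap _ L a / algebraMap _ L b)
      = algebraMap _ L ((Polynomial.map τ)^[i] a) / algebraMap _ L ((Polynomial.map τ)^[i] b) := by
    intro i
    rw [← RingHom.coe_pow, map_div₀, RingHom.coe_pow, hit, hit]
  simp only [h1] at h
  rw [Finset.prod_div_distrib, ← map_prod, ← map_prod, div_eq_iff, ← map_pow, ← map_mul] at h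
  · have h2 := hinj h
    have hpb : ∏ i ∈ Finset.range d, (Polynomial.map τ)^[i] b ≠ 0 :=
      Finset.prod_ne_zero_iff.mpr fun i _ => hne i b hb0
    have hpa : ∏ i ∈ Finset.range d, (Polynomial.map τ)^[i] a ≠ 0 := by
      rw [h2]; exact mul_ne_zero (pow_ne_zero _ X_ne_zero) hpb
    have h3 := congrArg natDegree h2
    rw [natDegree_mul (pow_ne_zero _ X_ne_zero) hpb, natDegree_prod _ _
      (Finset.prod_ne_zero_iff.mp hpa), natDegree_prod _ _ (Finset.prod_ne_zero_iff.mp hpb)] at h3
    simp only [hdeg, Finset.sum_const, Finset.card_range, smul_eq_mul, natDegree_X_pow] at h3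
    have : d ∣ r + d * b.natDegree := h3 ▸ Dvd.intro _ rfl
    exact (Nat.dvd_add_left (Dvd.intro _ rfl)).mp this
  · rw [← map_zero (algebraMap A[X] L)]
    exact fun h => (Finset.prod_ne_zero_iff.mpr fun i _ => hne i b hb0) (hinj h)

lemma exists_root_matrix (A : Type*) [CommRing A] [Nontrivial A] (t : A) (ι : Type*) [Fintype ι]
    [DecidableEq ι] [Nonempty ι] :
    ∃ T : Matrix ι ι A, T ^ (Fintype.card ι) = t • (1 : Matrix ι ι A) := by
  have hd : Fintype.card ι ≠ 0 := Fintype.card_ne_zero
  have hm : (X ^ (Fintype.card ι) - C t : A[X]).Monic := monic_X_pow_sub_C t hd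
  let pb := AdjoinRoot.powerBasis' hm
  have hdim : Fintype.card ι = pb.dim := by
    simp [pb]
  let e : Fin pb.dim ≃ ι := (Fintype.equivFinOfCardEq hdim).symm
  let b := pb.basis.reindex e
  refine ⟨Algebra.leftMulMatrix b (AdjoinRoot.root _), ?_⟩
  rw [← map_pow]
  have : (AdjoinRoot.root (X ^ (Fintype.card ι) - C t : A[X])) ^ (Fintype.card ι)
      = algebraMap A _ t := by
    have := AdjoinRoot.eval₂_root (X ^ (Fintype.card ι) - C t : A[X])
    rw [eval₂_sub, eval₂_X_pow, eval₂_C, sub_eq_zero] at this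
    exact this
  rw [this, AlgHom.commutes, Algebra.algebraMap_eq_smul_one]

section blowup

open Kronecker

variable {K : Type*} [Field K] {σ p n : Type*} [Fintype σ] [Fintype p] [Fintype n]

/-- matrix form of a blow-up -/
noncomputable def bl {ι R : Type*} [CommRing R] [Algebra K R] (B : σ → Matrix p n K)
    (M : σ → Matrix ι ι R) : Matrix (ι × p) (ι × n) R :=
  ∑ s, M s ⊗ₖ (B s).map (algebraMap K R)

lemma bl_apply {ι R : Type*} [CommRing R] [Algebra K R] (B : σ → Matrix p n K)
    (M : σ → Matrix ι ι R) (x : ι × p) (y : ι × n) :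
    bl B M x y = ∑ s, M s x.1 y.1 * algebraMap K R (B s x.2 y.2) := by
  simp [bl, Matrix.sum_apply]

lemma bl_map {ι R R' : Type*} [CommRing R] [Algebra K R] [CommRing R'] [Algebra K R']
    (φ : R →ₐ[K] R') (B : σ → Matrix p n K) (M : σ → Matrix ι ι R) :
    (bl B M).map φ = bl B (fun s => (M s).map φ) := by
  ext x y
  simp [bl_apply]

/-- nullity -/
noncomputable def nul {F : Type*} [Field F] {p n : Type*} [Fintype n] (X : Matrix p n F) : ℕ :=
  finrank F (LinearMap.ker X.mulVecLin)

lemma rank_add_nul {F : Type*} [Field F] {p n : Type*} [Fintype n] (X : Matrix p n F) :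
    X.rank + nul X = Fintype.card n := by
  rw [rank, nul, LinearMap.finrank_range_add_finrank_ker, finrank_fintype_fun_eq_card]

lemma finrank_ker_eq {F X X' Y Y' : Type*} [Field F] [AddCommGroup X] [AddCommGroup X']
    [AddCommGroup Y] [AddCommGroup Y'] [Module F X] [Module F X'] [Module F Y] [Module F Y']
    (f : X →ₗ[F] Y) (f' : X' →ₗ[F] Y') (e1 : X ≃ₗ[F] X') (e2 : Y →ₗ[F] Y')
    (h2 : Function.Injective e2) (h : ∀ x, f' (e1 x) = e2 (f x)) :
    finrank F (LinearMap.ker f) = finrank F (LinearMap.ker f') := by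
  refine LinearEquiv.finrank_eq (e1.ofSubmodules _ _ ?_)
  ext y
  obtain ⟨x, rfl⟩ := e1.surjective y
  simp only [Submodule.mem_map, LinearMap.mem_ker, LinearEquiv.coe_coe, h]
  constructor
  · rintro ⟨x', h1, h3⟩
    rw [← e1.injective h3, h1, map_zero]
  · intro h1
    exact ⟨x, h2 (by rw [h1, map_zero]), rfl⟩

lemma flatten {ι K' : Type*} [Fintype ι] [Field K'] [Algebra K K'] [FiniteDimensional K K']
    (B : σ → Matrix p n K) (M : σ → Matrix ι ι K') :
    ∃ M' : σ → Matrix (ι × Fin (finrank K K')) (ι × Fin (finrank K K')) K,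
      nul (bl B M') = finrank K K' * nul (bl B M) := by
  classical
  let e := finBasis K K'
  let E : ∀ q : Type _, (ι × q → K') ≃ₗ[K] ((ι × Fin (finrank K K')) × q → K) := fun q =>
    { toFun := fun v x => e.repr (v (x.1.1, x.2)) x.1.2
      map_add' := fun v w => by ext x; simp
      map_smul' := fun c v => by ext x; simp
      invFun := fun w y => e.equivFun.symm fun j => w ((y.1, j), y.2)
      left_inv := fun v => by
        ext y
        exact e.equivFun.symm_apply_apply (v y)
      right_inv := fun w => by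
        ext x
        exact congrFun (e.equivFun.apply_symm_apply fun j => w ((x.1.1, j), x.2)) x.1.2 }
  let E' : (ι × p → K') ≃ₗ[K] ((ι × Fin (finrank K K')) × p → K) :=
    { toFun := fun v x => e.repr (v (x.1.1, x.2)) x.1.2
      map_add' := fun v w => by ext x; simp
      map_smul' := fun c v => by ext x; simp
      invFun := fun w y => e.equivFun.symm fun j => w ((y.1, j), y.2)
      left_inv := fun v => by
        ext y
        exact e.equivFun.symm_apply_apply (v y)
      right_inv := fun w => by
        ext x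
        exact congrFun (e.equivFun.apply_symm_apply fun j => w ((x.1.1, j), x.2)) x.1.2 }
  refine ⟨fun s => Matrix.of fun x y => Algebra.leftMulMatrix e (M s x.1 y.1) x.2 y.2, ?_⟩
  have h1 : finrank K K' * nul (bl B M)
      = finrank K (LinearMap.ker ((bl B M).mulVecLin.restrictScalars K)) := by
    rw [nul, Module.finrank_mul_finrank]
    rfl
  rw [h1, nul]
  symm
  refine finrank_ker_eq _ _ (E n) E'.toLinearMap E'.injective ?_
  intro v
  ext x
  simp only [E, E', mulVecLin_apply, LinearEquiv.coe_mk, LinearMap.coe_mk, AddHom.coe_mk,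
    LinearMap.restrictScalars_apply, mulVec, dotProduct, bl_apply, of_apply,
    map_sum, Finsupp.coe_finsetSum, Finset.sum_apply, Fintype.sum_prod_type, Finset.sum_mul]
  refine Finset.sum_congr rfl fun a _ => ?_
  rw [Finset.sum_comm]
  refine Finset.sum_congr rfl fun y _ => ?_
  rw [Finset.sum_comm]
  refine Finset.sum_congr rfl fun s _ => ?_
  have := congrFun (Algebra.leftMulMatrix_mulVec_repr e (M s x.1.1 a) (v (a, y))) x.1.2
  rw [mul_comm (M s x.1.1 a), mul_assoc, ← Algebra.smul_def, map_smul, Finsupp.smul_apply, ← this]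
  simp only [mulVec, dotProduct, smul_eq_mul, Finset.mul_sum, Algebra.algebraMap_self,
    RingHom.id_apply]
  exact Finset.sum_congr rfl fun j _ => by ring

lemma kron_pow {ι R : Type*} [Fintype ι] [DecidableEq ι] [DecidableEq n] [CommRing R]
    (T : Matrix ι ι R) (k : ℕ) :
    (T ⊗ₖ (1 : Matrix n n R)) ^ k = (T ^ k) ⊗ₖ (1 : Matrix n n R) := by
  induction k with
  | zero => simp
  | succ k ih => rw [pow_succ, ih, ← mul_kronecker_mul, pow_succ, Matrix.mul_one]

/-- the averaged blow-up intertwines -/
lemma avg_comm {ι R : Type*} [Fintype ι] [DecidableEq ι] [CommRing R] (d : ℕ) (x : ZMod d → R)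
    (T M : Matrix ι ι R) (t : R) (hT : T ^ d = t • (1 : Matrix ι ι R)) :
    (∑ m ∈ Finset.range d, x m • (T ^ m * M * T ^ (d - m))) * T
      = T * ∑ m ∈ Finset.range d, x (m + 1) • (T ^ m * M * T ^ (d - m)) := by
  let f : ℕ → Matrix ι ι R := fun m => x m • (T ^ m * M * T ^ (d + 1 - m))
  have h1 : (∑ m ∈ Finset.range d, x m • (T ^ m * M * T ^ (d - m))) * T
      = ∑ m ∈ Finset.range d, f m := by
    rw [Finset.sum_mul]
    refine Finset.sum_congr rfl fun m hm => ?_
    have : d + 1 - m = d - m + 1 := by have := Finset.mem_range.mp hm; omega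
    simp only [f, this, pow_succ, smul_mul_assoc, Matrix.mul_assoc]
  have h2 : T * ∑ m ∈ Finset.range d, x (m + 1) • (T ^ m * M * T ^ (d - m))
      = ∑ m ∈ Finset.range d, f (m + 1) := by
    rw [Finset.mul_sum]
    refine Finset.sum_congr rfl fun m _ => ?_
    have : d + 1 - (m + 1) = d - m := by omega
    simp only [f, this, pow_succ', mul_smul_comm, Matrix.mul_assoc, Nat.cast_add, Nat.cast_one]
  have h3 : f d = f 0 := by
    simp only [f, ZMod.natCast_self, Nat.cast_zero, Nat.add_sub_cancel_left, Nat.sub_zero,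
      pow_succ, hT, pow_zero]
    simp
  have h4 := Finset.sum_range_succ f d
  rw [Finset.sum_range_succ', h3] at h4
  rw [h1, h2]
  exact (add_right_cancel h4).symm

theorem regular {ι : Type} [Fintype ι] [Nonempty ι] (B : σ → Matrix p n K)
    (M : σ → Matrix ι ι K) :
    ∃ (ι' : Type) (_ : Fintype ι') (_ : Nonempty ι') (M' : σ → Matrix ι' ι' K) (k : ℕ),
      nul (bl B M') ≤ k * Fintype.card ι' ∧ k * Fintype.card ι ≤ nul (bl B M) := by
  classical
  set d := Fintype.card ι with hd
  haveI : NeZero d := ⟨Fintype.card_ne_zero⟩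
  let A := MvPolynomial (ZMod d) K
  let L := FractionRing A[X]
  obtain ⟨T0, hT0⟩ := exists_root_matrix K[X] X ι
  let j : K[X] →ₐ[K] A[X] := Polynomial.mapAlgHom (Algebra.ofId K A)
  let T : Matrix ι ι A[X] := T0.map j
  have hT : T ^ d = (X : A[X]) • (1 : Matrix ι ι A[X]) := by
    have := congrArg (AlgHom.mapMatrix (m := ι) j) hT0
    rw [map_pow] at this
    rw [show T ^ d = _ from this]
    ext1 a b
    by_cases h : a = b <;> simp [j, h]
  let τ0 : A →ₐ[K] A := MvPolynomial.rename (fun z => z + 1)
  have hτ0 : Function.Injective τ0 :=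
    MvPolynomial.rename_injective _ (add_left_injective 1)
  let τ : A[X] →ₐ[K] A[X] := Polynomial.mapAlgHom τ0
  have hτ : Function.Injective τ := Polynomial.map_injective _ hτ0
  have hτj : ∀ a, τ (j a) = j a := by
    intro a
    have : τ.comp j = j := by
      ext1
      simp [τ, j]
    exact DFunLike.congr_fun this a
  have hτT : T.map τ = T := by
    ext1 a b; exact hτj _
  have hτd : ∀ a, τ^[d] a = a := by
    intro a
    have h0 : ∀ (k : ℕ) (y : A), τ0^[k] y
        = MvPolynomial.rename (fun z : ZMod d => z + (k : ZMod d)) y := by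
      intro k y
      induction k with
      | zero => simp; exact (MvPolynomial.rename_id_apply y).symm
      | succ k ih =>
        rw [Function.iterate_succ_apply', ih]
        simp only [τ0]
        rw [MvPolynomial.rename_rename]
        congr 2
        funext z
        simp [add_assoc]
    have h1 : ∀ (k i : ℕ), (τ^[k] a).coeff i = τ0^[k] (a.coeff i) := by
      intro k i
      induction k with
      | zero => simp
      | succ k ih =>
        rw [Function.iterate_succ_apply', Function.iterate_succ_apply', ← ih]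
        simp [τ]
    ext1 i
    rw [h1, h0]
    simp; exact MvPolynomial.rename_id_apply _
  let x : ZMod d → A[X] := fun z => C (MvPolynomial.X z)
  let D : σ → Matrix ι ι A[X] := fun s => ∑ m ∈ Finset.range d,
    x m • (T ^ m * (M s).map (algebraMap K A[X]) * T ^ (d - m))
  have hD : ∀ s, D s * T = T * (D s).map τ := by
    intro s
    rw [avg_comm d x T _ X hT]
    congr 1
    have h1 : AlgHom.mapMatrix (m := ι) τ T = T := hτT
    have h2 : AlgHom.mapMatrix (m := ι) τ ((M s).map (algebraMap K A[X]))
        = (M s).map (algebraMap K A[X]) := by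
      ext1 a b; exact τ.commutes _
    rw [← AlgHom.mapMatrix_apply, map_sum]
    refine Finset.sum_congr rfl fun m _ => ?_
    have h3 : ∀ (c : A[X]) (Y : Matrix ι ι A[X]), AlgHom.mapMatrix (m := ι) τ (c • Y)
        = τ c • AlgHom.mapMatrix (m := ι) τ Y := by
      intro c Y; ext1 a b; simp
    rw [h3, map_mul, map_mul, map_pow, map_pow, h1, h2]
    congr 1
    simp [τ, τ0, x]
    exact (MvPolynomial.rename_X (R := K) (fun z : ZMod d => z + 1) m).symm
  have hbl : bl B D * (T ⊗ₖ (1 : Matrix n n A[X]))
      = (T ⊗ₖ (1 : Matrix p p A[X])) * (bl B D).map τ := by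
    rw [bl_map, bl, bl, Matrix.sum_mul, Matrix.mul_sum]
    refine Finset.sum_congr rfl fun s _ => ?_
    rw [← mul_kronecker_mul, ← mul_kronecker_mul, hD, Matrix.mul_one, Matrix.one_mul]
  let aL : A[X] →+* L := algebraMap A[X] L
  have haL : Function.Injective aL := IsFractionRing.injective _ _
  let sL : L →+* L := IsFractionRing.lift (g := aL.comp τ.toRingHom) (haL.comp hτ)
  have hsL : ∀ a, sL (aL a) = aL (τ a) := fun a => IsFractionRing.lift_algebraMap _ a
  have hsLd : ∀ y, sL^[d] y = y := by
    intro y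
    obtain ⟨a, b, -, rfl⟩ := IsFractionRing.div_surjective (A := A[X]) y
    have hit : ∀ (i : ℕ) (a : A[X]), sL^[i] (aL a) = aL (τ^[i] a) := by
      intro i
      induction i with
      | zero => intro a; rfl
      | succ i ih => intro a; rw [Function.iterate_succ_apply, hsL, ih]; rfl
    rw [← RingHom.coe_pow, map_div₀, RingHom.coe_pow]
    exact congrArg₂ (· / ·) ((hit d a).trans (by rw [hτd])) ((hit d b).trans (by rw [hτd]))
  obtain ⟨g, hg⟩ := exists_norm sL d hsLd (aL X) ((bl B D).map aL)
    ((T ⊗ₖ (1 : Matrix n n A[X])).map aL) ((T ⊗ₖ (1 : Matrix p p A[X])).map aL)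
    (by
      ext a b
      rw [Matrix.map_apply, Matrix.map_apply, hsL]
      congr 1
      rw [kroneckerMap_apply, map_mul]
      congr 1
      · exact hτj _
      · by_cases h : a.2 = b.2 <;> simp [h, Matrix.one_apply])
    (by
      rw [← RingHom.mapMatrix_apply, ← map_pow, kron_pow, hT]
      ext a b
      by_cases h : a = b
      · simp [h]
      · by_cases h1 : a.1 = b.1
        · have h2 : a.2 ≠ b.2 := fun h2 => h (Prod.ext h1 h2)
          simp [h, h2]
        · simp [h, h1])
    (by
      rw [← Matrix.map_mul, hbl, Matrix.map_mul]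
      congr 1
      ext a b; exact (hsL _).symm)
  obtain ⟨k, hk⟩ := dvd_of_norm τ0.toRingHom hτ0 sL hsL d _ g hg
  have hk' : nul ((bl B D).map aL) = k * d := by rw [mul_comm]; exact hk
  -- specialise down to `M`
  let φ : A[X] →ₐ[K] K := Polynomial.eval₂AlgHom
    (MvPolynomial.aeval fun z : ZMod d => if z = 0 then (1 : K) else 0) 1
    (fun _ => Commute.all _ _)
  have hφx : ∀ z, φ (x z) = if z = 0 then 1 else 0 := by
    intro z
    simp only [φ, x, eval₂AlgHom_apply, eval₂_C]
    exact MvPolynomial.aeval_X _ _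
  have hφX : φ X = 1 := by simp [φ]
  have hφD : ∀ s, (D s).map φ = M s := by
    intro s
    have h3 : ∀ (c : A[X]) (Y : Matrix ι ι A[X]), AlgHom.mapMatrix (m := ι) φ (c • Y)
        = φ c • AlgHom.mapMatrix (m := ι) φ Y := by
      intro c Y; ext1 a b; simp
    rw [← AlgHom.mapMatrix_apply, map_sum, Finset.sum_eq_single 0]
    · rw [h3, Nat.sub_zero, hT, pow_zero, Matrix.one_mul, Matrix.mul_smul, h3, Matrix.mul_one]
      ext1 a b
      have : φ (algebraMap K A[X] (M s a b)) = M s a b := φ.commutes _
      simp only [hφx, hφX, Nat.cast_zero, if_true, one_smul, AlgHom.mapMatrix_apply,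
        Matrix.map_apply, this]
    · intro m hm hm0
      have : (m : ZMod d) ≠ 0 := by
        rw [Ne, ZMod.natCast_eq_zero_iff]
        exact Nat.not_dvd_of_pos_of_lt (Nat.pos_of_ne_zero hm0) (Finset.mem_range.mp hm)
      rw [h3, hφx, if_neg this, zero_smul]
    · intro h
      exact absurd (Finset.mem_range.mpr (Nat.pos_of_ne_zero (NeZero.ne d))) h
  have hle1 : k * d ≤ nul (bl B M) := by
    obtain ⟨a, ha, h⟩ := exists_elt_rank (bl B D) φ.toRingHom
    have h1 := h aL (fun h0 => ha (by rw [haL (h0.trans (map_zero aL).symm), map_zero]))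
    have h2 : (bl B D).map φ.toRingHom = bl B M := by
      rw [show (bl B D).map φ.toRingHom = (bl B D).map φ from rfl, bl_map]
      simp only [hφD]
    rw [h2] at h1
    have h3 := rank_add_nul (bl B M)
    have h4 := rank_add_nul ((bl B D).map aL)
    omega
  -- specialise to a finite extension
  obtain ⟨a, ha, h⟩ := exists_elt_rank (bl B D) aL
  have ha0 : a ≠ 0 := fun h0 => ha (by rw [h0, map_zero])
  obtain ⟨𝔪, h𝔪, ha𝔪⟩ : ∃ 𝔪 : Ideal A[X], 𝔪.IsMaximal ∧ a ∉ 𝔪 := by
    by_contra hc
    push Not at hc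
    have h1 : a ∈ Ideal.jacobson (⊥ : Ideal A[X]) := by
      rw [Ideal.jacobson, Ideal.mem_sInf]
      exact fun {I} hI => hc I hI.2
    rw [IsJacobsonRing.out (inferInstance : IsJacobsonRing A[X])
      (Ideal.isRadical_bot (R := A[X]))] at h1
    exact ha0 h1
  letI := Ideal.Quotient.field 𝔪
  haveI : Module.Finite K (A[X] ⧸ 𝔪) := finite_of_finite_type_of_isJacobsonRing K _
  let ψ : A[X] →ₐ[K] (A[X] ⧸ 𝔪) := Ideal.Quotient.mkₐ K 𝔪
  have h1 := h ψ.toRingHom (fun h0 => ha𝔪 (Ideal.Quotient.eq_zero_iff_mem.mp h0))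
  rw [show (bl B D).map ψ.toRingHom = (bl B D).map ψ from rfl, bl_map] at h1
  obtain ⟨M', hM'⟩ := flatten B (fun s => (D s).map ψ)
  have hpos : 0 < finrank K (A[X] ⧸ 𝔪) := finrank_pos
  refine ⟨_, inferInstance, ⟨(Classical.arbitrary ι, ⟨0, hpos⟩)⟩, M', k, ?_, hle1⟩
  have h3 := rank_add_nul (bl B (fun s => (D s).map ψ))
  have h4 := rank_add_nul ((bl B D).map aL)
  rw [hM', Fintype.card_prod, Fintype.card_fin, ← hd, ← mul_assoc, mul_comm]
  exact Nat.mul_le_mul_right _ (by omega)

end blowup

end Pool.Agent.P.MP_a7c6c4_al
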