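import Pool.Agent.P.MP_a7c6c4_al.Pres

/-! Abstract rigid pairs, stability, and the potential argument on a rational segment. -/

set_option autoImplicit false
set_option linter.unusedSectionVars false
set_option linter.style.haveILetI false

open Module

namespace Pool.Agent.P.MP_a7c6c4_al

open Md

variable {K A : Type} [Field K] [Ring A] [Algebra K A]

/-- a pair of modules satisfying the Auslander-Reiten formula for `th` -/
structure AP (K A : Type) [Field K] [Ring A] [Algebra K A] : Type 1 where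
  C : Md K A
  I : Md K A
  th : Md K A → ℤ
  addi : Addi th
  ar : ∀ N, th N = (hom C N : ℤ) - hom N I

/-- all quotients have nonnegative value -/
def TT (θ : Md K A → ℤ) (M : Md K A) : Prop := ∀ N : Submodule A M, θ (M.sub N) ≤ θ M

/-- stable module -/
def Stable (θ : Md K A → ℤ) (M : Md K A) : Prop :=
  Nontrivial M ∧ θ M = 0 ∧ ∀ N : Submodule A M, N ≠ ⊥ → N ≠ ⊤ → θ (M.sub N) < 0

section

variable {θ : Md K A → ℤ}

lemma nsm_apply (a : ℕ) (θ : Md K A → ℤ) (M : Md K A) : (a • θ) M = a * θ M := by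
  rw [Pi.smul_apply, nsmul_eq_mul]

lemma TT.nonneg (h : Addi θ) {M : Md K A} (hM : TT θ M) : 0 ≤ θ M := by
  have := hM ⊥
  rwa [h.bot] at this

lemma TT.of_surj (h : Addi θ) {M N : Md K A} (hM : TT θ M) (p : M →ₗ[A] N)
    (hp : Function.Surjective p) : TT θ N := by
  intro X
  have h1 := h.comap_surj p hp X
  have h2 := h.surj p hp
  have h3 := hM (X.comap p)
  omega

lemma TT.range (h : Addi θ) {M N : Md K A} (hM : TT θ M) (φ : M →ₗ[A] N) :
    TT θ (N.sub (LinearMap.range φ)) :=
  hM.of_surj h φ.rangeRestrict φ.surjective_rangeRestrict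

lemma sub_prod_le (h : Addi θ) {M N : Md K A} (X : Submodule A (M.prod N)) :
    ∃ (Y : Submodule A M) (Z : Submodule A N),
      θ ((M.prod N).sub X) = θ (M.sub Y) + θ (N.sub Z) := by
  refine ⟨(X ⊓ LinearMap.ker (LinearMap.snd A M N)).comap (LinearMap.inl A M N),
    X.map (LinearMap.snd A M N), ?_⟩
  rw [h.inf_map (M := M.prod N) (N := N) (LinearMap.snd A M N) X,
    ← h.map_inj (M := M) (N := M.prod N) (LinearMap.inl A M N) LinearMap.inl_injective,
    Submodule.map_comap_eq_of_le]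
  rw [LinearMap.range_inl]
  exact inf_le_right

lemma TT.prod (h : Addi θ) {M N : Md K A} (hM : TT θ M) (hN : TT θ N) : TT θ (M.prod N) := by
  intro X
  obtain ⟨Y, Z, h1⟩ := sub_prod_le h X
  rw [h1, h.prod]
  exact add_le_add (hM Y) (hN Z)

lemma Stable.le (h : Addi θ) {M : Md K A} (hM : Stable θ M) (N : Submodule A M) :
    θ (M.sub N) ≤ 0 := by
  by_cases h1 : N = ⊥
  · rw [h1, h.bot]
  by_cases h2 : N = ⊤
  · rw [h2, h.top, hM.2.1]
  exact (hM.2.2 N h1 h2).le

lemma Stable.tt (h : Addi θ) {M : Md K A} (hM : Stable θ M) : TT θ M :=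
  fun N => hM.2.1 ▸ hM.le h N

lemma Stable.surj_of_TT (h : Addi θ) {M N : Md K A} (hN : Stable θ N) (hM : TT θ M)
    (φ : M →ₗ[A] N) (hφ : φ ≠ 0) : Function.Surjective φ := by
  by_contra hc
  have h1 := hN.2.2 (LinearMap.range φ) (fun h0 => hφ (LinearMap.range_eq_bot.mp h0))
    (fun h0 => hc (LinearMap.range_eq_top.mp h0))
  have h2 := (hM.range h φ).nonneg h
  omega

lemma Stable.bij (h : Addi θ) {M N : Md K A} (hM : Stable θ M) (hN : Stable θ N)
    (φ : M →ₗ[A] N) (hφ : φ ≠ 0) : Function.Bijective φ := by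
  have h1 := hN.surj_of_TT h (hM.tt h) φ hφ
  refine ⟨?_, h1⟩
  by_contra hc
  have h2 := hM.2.2 (LinearMap.ker φ) (fun h0 => hc (LinearMap.ker_eq_bot.mp h0))
    (fun h0 => hφ (LinearMap.ker_eq_top.mp h0))
  have h3 := h.surj φ h1
  have h4 := hM.2.1
  have h5 := hN.2.1
  omega

lemma Stable.of_smul {M : Md K A} {a : ℕ} (ha : 0 < a) (hM : Stable (a • θ) M) : Stable θ M := by
  obtain ⟨h1, h2, h3⟩ := hM
  refine ⟨h1, ?_, fun N h4 h5 => ?_⟩
  · simp only [nsm_apply, mul_eq_zero, Nat.cast_eq_zero] at h2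
    omega
  · have := h3 N h4 h5
    simp only [nsm_apply] at this
    by_contra hc
    have : (0 : ℤ) ≤ a * θ (M.sub N) := mul_nonneg (by positivity) (by omega)
    omega

lemma finIso_stable (hH : ¬ InfSB K A) (h : Addi θ) : FinIso (Stable θ) :=
  finIso_of_semibrick hH (fun _ hM => hM.1) (fun _ _ hM hN => hM.bij h hN)

end

namespace AP

/-- rigidity -/
def Rigid (U : AP K A) : Prop := Orth U.C U.I

/-- sum -/
noncomputable def add (U V : AP K A) : AP K A where
  C := U.C.prod V.C
  I := U.I.prod V.I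
  th := U.th + V.th
  addi := U.addi.add V.addi
  ar N := by
    rw [Pi.add_apply, U.ar, V.ar, hom_prod_left, hom_prod_right]
    push_cast
    ring

/-- zero -/
noncomputable def zero : AP K A where
  C := Md.zero
  I := Md.zero
  th := 0
  addi := fun _ _ _ _ _ _ _ _ => by simp
  ar N := by
    rw [hom_eq_zero.mpr orth_of_subsingleton_left, hom_eq_zero.mpr orth_of_subsingleton_right]
    simp

lemma th_of_orth_I (U : AP K A) {N : Md K A} (h : Orth N U.I) : U.th N = hom U.C N := by
  rw [U.ar, hom_eq_zero.mpr h]; simp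

lemma th_of_orth_C (U : AP K A) {N : Md K A} (h : Orth U.C N) : U.th N = -hom N U.I := by
  rw [U.ar, hom_eq_zero.mpr h]; simp

lemma th_le (U : AP K A) (N : Md K A) : U.th N ≤ hom U.C N := by
  rw [U.ar]; omega

lemma le_th (U : AP K A) (N : Md K A) : -(hom N U.I : ℤ) ≤ U.th N := by
  rw [U.ar]; omega

lemma tt_of_orth (U : AP K A) {M : Md K A} (h : Orth M U.I) : TT U.th M := by
  intro N
  have h1 := U.addi.quo M N
  have h2 := U.th_of_orth_I (h.of_surj (N := M.quo N) N.mkQ N.mkQ_surjective)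
  omega

lemma Rigid.orth_of_tt {U : AP K A} (hU : U.Rigid) {M : Md K A} (h : TT U.th M) : Orth M U.I := by
  have h1 := U.th_of_orth_C (Orth.rej hU M)
  have h2 := U.addi.quo M (rej M U.I)
  have h3 := h (rej M U.I)
  rw [hom_rej] at h1
  exact hom_eq_zero.mp (by omega)

lemma Rigid.orth_of_le {U : AP K A} (hU : U.Rigid) {M : Md K A}
    (h : ∀ N : Submodule A M, U.th (M.sub N) ≤ 0) : Orth U.C M := by
  have h1 := U.th_of_orth_I (Orth.tr hU M)
  have h3 := h (tr U.C M)
  rw [hom_tr] at h1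
  exact hom_eq_zero.mp (by omega)

lemma e_left {U V D : AP K A} (hU : U.Rigid) (hD : D.Rigid) (h : D.th = U.th + V.th) :
    hom U.C D.I < hom U.C V.I ∨ hom U.C D.I = 0 := by
  set Q := U.C.quo (rej U.C D.I)
  have h1 : hom Q D.I = hom U.C D.I := hom_rej _ _
  have h2 := D.th_of_orth_C (Orth.rej hD U.C)
  have h3 := U.th_of_orth_I (Orth.of_surj hU (N := Q) (rej U.C D.I).mkQ
    (Submodule.mkQ_surjective _))
  have h4 := V.le_th Q
  have h5 := hom_le_of_surj V.I (N := Q) (rej U.C D.I).mkQ (Submodule.mkQ_surjective _)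
  have h6 : D.th Q = U.th Q + V.th Q := by rw [h]; rfl
  by_cases hQ : (rej U.C D.I).mkQ = 0
  · right
    rw [← h1, hom_eq_zero]
    intro φ
    ext x
    rw [hQ]; simp
  · left
    have h7 := hom_pos (N := Q) _ hQ
    change D.th Q = -hom Q D.I at h2
    omega

lemma e_right {U V D : AP K A} (hV : V.Rigid) (hD : D.Rigid) (h : D.th = U.th + V.th) :
    hom D.C V.I < hom U.C V.I ∨ hom D.C V.I = 0 := by
  set Q := V.I.sub (tr D.C V.I)
  have h1 : hom D.C Q = hom D.C V.I := hom_tr _ _
  have h2 := D.th_of_orth_I (Orth.tr hD V.I)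
  have h3 := V.th_of_orth_C (Orth.of_inj hV (M := Q) (tr D.C V.I).subtype
    (Submodule.injective_subtype _))
  have h4 := U.th_le Q
  have h5 := hom_le_of_inj U.C (M := Q) (tr D.C V.I).subtype (Submodule.injective_subtype _)
  have h6 : D.th Q = U.th Q + V.th Q := by rw [h]; rfl
  by_cases hQ : (tr D.C V.I).subtype = 0
  · right
    rw [← h1, hom_eq_zero]
    intro φ
    ext x
    exact LinearMap.congr_fun hQ (φ x)
  · left
    have h7 := hom_pos (M := Q) _ hQ
    change D.th Q = hom D.C Q at h2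
    omega

lemma stable_base {U V : AP K A} (hU : U.Rigid) (hV : V.Rigid) (h1 : Orth U.C V.I)
    (h2 : Orth V.C U.I) {a b : ℕ} (ha : 0 < a) (hb : 0 < b) {M : Md K A}
    (hM : Stable (a • U.th + b • V.th) M) : Stable (U.th + V.th) M := by
  have hadd := (U.addi.nsmul a).add (V.addi.nsmul b)
  have hW : (U.add V).Rigid := orth_prod_left.mpr
    ⟨orth_prod_right.mpr ⟨hU, h1⟩, orth_prod_right.mpr ⟨h2, hV⟩⟩
  have h3 := orth_prod_right.mp (Orth.tr hW M)
  have h4 := U.th_of_orth_I h3.1
  have h5 := V.th_of_orth_I h3.2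
  have h6 := hM.le hadd (tr (U.add V).C M)
  have h7 := hom_tr (U.add V).C M
  simp only [Pi.add_apply, nsm_apply] at h6
  rw [h4, h5] at h6
  have h8 : hom U.C (M.sub (tr (U.add V).C M)) = 0 ∧ hom V.C (M.sub (tr (U.add V).C M)) = 0 := by
    constructor <;> by_contra hc <;> have := Nat.pos_of_ne_zero hc <;>
      nlinarith [mul_pos (Int.natCast_pos.mpr ha) (Int.natCast_pos.mpr this),
        mul_pos (Int.natCast_pos.mpr hb) (Int.natCast_pos.mpr this),
        mul_nonneg (Int.natCast_nonneg a) (Int.natCast_nonneg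
          (hom U.C (M.sub (tr (U.add V).C M)))),
        mul_nonneg (Int.natCast_nonneg b) (Int.natCast_nonneg
          (hom V.C (M.sub (tr (U.add V).C M))))]
  have h9 : Orth (U.C.prod V.C) M := by
    rw [← hom_eq_zero]
    refine h7.symm.trans ?_
    rw [show (U.add V).C = U.C.prod V.C from rfl, hom_prod_left]
    exact Nat.add_eq_zero_iff.mpr h8
  obtain ⟨h10, h11⟩ := orth_prod_left.mp h9
  have key : ∀ N : Md K A, Orth U.C N → Orth V.C N → U.th N ≤ 0 ∧ V.th N ≤ 0 := by
    intro N h12 h13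
    rw [U.th_of_orth_C h12, V.th_of_orth_C h13]
    omega
  have ha' := Int.natCast_pos.mpr ha
  have hb' := Int.natCast_pos.mpr hb
  refine ⟨hM.1, ?_, fun N h12 h13 => ?_⟩
  · have h14 := hM.2.1
    obtain ⟨h15, h16⟩ := key M h10 h11
    simp only [Pi.add_apply, nsm_apply] at h14 ⊢
    nlinarith
  · have h14 := hM.2.2 N h12 h13
    obtain ⟨h15, h16⟩ := key (M.sub N) (h10.of_inj N.subtype N.injective_subtype)
      (h11.of_inj N.subtype N.injective_subtype)
    simp only [Pi.add_apply, nsm_apply] at h14 ⊢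
    by_contra hc
    have h17 : U.th (M.sub N) = 0 := by omega
    have h18 : V.th (M.sub N) = 0 := by omega
    rw [h17, h18] at h14
    simp at h14

end AP

/-- stable for an interior point of the cone spanned by `θ` and `η` -/
def SegStable (θ η : Md K A → ℤ) (M : Md K A) : Prop :=
  ∃ a b : ℕ, 0 < a ∧ 0 < b ∧ Stable (a • θ + b • η) M

theorem potential (L : (Md K A → ℤ) → Prop) (hadd : ∀ θ η, L θ → L η → L (θ + η))
    (hrig : ∀ θ, L θ → ∃ U : AP K A, U.Rigid ∧ U.th = θ)
    (hfin : ∀ θ, L θ → FinIso (Stable θ)) {θ η : Md K A → ℤ} (hθ : L θ) (hη : L η) :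
    FinIso (SegStable θ η) := by
  suffices H : ∀ (s : ℕ) (U V : AP K A), U.Rigid → V.Rigid → L U.th → L V.th →
      hom U.C V.I + hom V.C U.I = s → FinIso (SegStable U.th V.th) by
    obtain ⟨U, hU, rfl⟩ := hrig θ hθ
    obtain ⟨V, hV, rfl⟩ := hrig η hη
    exact H _ U V hU hV hθ hη rfl
  intro s
  induction s using Nat.strong_induction_on with
  | _ s ih =>
    intro U V hU hV hLU hLV hs
    have hL := hadd _ _ hLU hLV
    by_cases h0 : s = 0
    · refine (hfin _ hL).mono ?_
      rintro M ⟨a, b, ha, hb, hM⟩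
      exact AP.stable_base hU hV (hom_eq_zero.mp (by omega)) (hom_eq_zero.mp (by omega)) ha hb hM
    obtain ⟨D, hD, hth⟩ := hrig _ hL
    have hth' : D.th = V.th + U.th := by rw [hth, add_comm]
    have h1 := AP.e_left hU hD hth
    have h2 := AP.e_right hV hD hth
    have h3 := AP.e_left hV hD hth'
    have h4 := AP.e_right hU hD hth'
    have h5 := ih _ (by omega) U D hU hD hLU (hth ▸ hL) rfl
    have h6 := ih _ (by omega) D V hD hV (hth ▸ hL) hLV rfl
    refine (((hfin _ hL).or h5).or h6).mono ?_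
    rintro M ⟨a, b, ha, hb, hM⟩
    rcases lt_trichotomy a b with h | rfl | h
    · refine Or.inr ⟨a, b - a, ha, by omega, ?_⟩
      have : a • D.th + (b - a) • V.th = a • U.th + b • V.th := by
        rw [hth, smul_add, add_assoc, ← add_smul, Nat.add_sub_cancel' h.le]
      rwa [this]
    · exact Or.inl (Or.inl (Stable.of_smul ha (by rwa [smul_add])))
    · refine Or.inl (Or.inr ⟨a - b, b, by omega, hb, ?_⟩)
      have : (a - b) • U.th + b • D.th = a • U.th + b • V.th := by
        rw [hth, smul_add, ← add_assoc, ← add_smul, Nat.sub_add_cancel h.le]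
      rwa [this]

/-- the pair attached to a presentation -/
noncomputable def Pres.ap [FiniteDimensional K A] (U : Pres K A) : AP K A :=
  ⟨U.C, U.I, U.th, U.addi_th, U.AR⟩

end Pool.Agent.P.MP_a7c6c4_al
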