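import Pool.Agent.P.MP_a7c6c4_al.Basic

/-! Two-term presentations, the Auslander-Reiten formula. -/

set_option autoImplicit false
set_option linter.unusedSectionVars false
set_option linter.style.haveILetI false

open Module

namespace Pool.Agent.P.MP_a7c6c4_al

open Md

variable {K A : Type} [Field K] [Ring A] [Algebra K A]

instance (M : Md K A) : Module.Finite A M := Module.Finite.of_restrictScalars_finite K A M

/-- a map between finitely generated projectives -/
structure Pres (K A : Type) [Field K] [Ring A] [Algebra K A] : Type 1 where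
  P1 : Md K A
  P0 : Md K A
  [pr1 : Projective A P1]
  [pr0 : Projective A P0]
  f : P1 →ₗ[A] P0

attribute [instance] Pres.pr1 Pres.pr0

lemma dual_basis (P : Md K A) [Projective A P] :
    ∃ (n : ℕ) (x : Fin n → P) (ξ : Fin n → P →ₗ[A] A), ∀ p, ∑ i, ξ i p • x i = p := by
  obtain ⟨n, f, g, -, -, h⟩ := Module.Finite.exists_comp_eq_id_of_projective A P
  refine ⟨n, fun i => f (Pi.single i 1), fun i => LinearMap.proj i ∘ₗ g, fun p => ?_⟩
  have h1 : f (g p) = p := LinearMap.congr_fun h p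
  conv_rhs => rw [← h1, ← Finset.univ_sum_single (g p), map_sum]
  refine Finset.sum_congr rfl fun i _ => ?_
  rw [← map_smul, ← Pi.single_smul]
  simp

/-- `x ↦ x • n` -/
abbrev sp {N : Type} [AddCommGroup N] [Module A N] (n : N) : A →ₗ[A] N :=
  LinearMap.toSpanSingleton A N n

lemma eq_sum_sp {P N : Md K A} {n : ℕ} {x : Fin n → P} {ξ : Fin n → P →ₗ[A] A}
    (h : ∀ p, ∑ i, ξ i p • x i = p) (g : P →ₗ[A] N) : g = ∑ i, sp (g (x i)) ∘ₗ ξ i := by
  ext p
  conv_lhs => rw [← h p]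
  simp

namespace Pres

/-- cokernel -/
abbrev C (U : Pres K A) : Md K A := U.P0.quo (LinearMap.range U.f)

/-- projection to the cokernel -/
abbrev π (U : Pres K A) : U.P0 →ₗ[A] U.C := (LinearMap.range U.f).mkQ

lemma π_f (U : Pres K A) (x : U.P1) : U.π (U.f x) = 0 :=
  (Submodule.Quotient.mk_eq_zero _).mpr ⟨x, rfl⟩

lemma π_surj (U : Pres K A) : Function.Surjective U.π := Submodule.mkQ_surjective _

/-- class in the Grothendieck group, as a function on modules -/
noncomputable def th (U : Pres K A) (N : Md K A) : ℤ := (hom U.P0 N : ℤ) - hom U.P1 N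

lemma addi_th (U : Pres K A) : Addi U.th := (addi_hom U.P0).sub (addi_hom U.P1)

/-- vanishing of `Hom(U, N[1])` -/
def E0 (U : Pres K A) (N : Md K A) : Prop :=
  ∀ g : U.P1 →ₗ[A] N, ∃ h : U.P0 →ₗ[A] N, h ∘ₗ U.f = g

/-- precomposition -/
abbrev pre (U : Pres K A) (N : Md K A) : (U.P0 →ₗ[A] N) →ₗ[K] (U.P1 →ₗ[A] N) :=
  LinearMap.lcomp K N U.f

/-- `Hom(U, N[1])` -/
abbrev ET (U : Pres K A) (N : Md K A) : Type := (U.P1 →ₗ[A] N) ⧸ LinearMap.range (U.pre N)

lemma hom_C (U : Pres K A) (N : Md K A) : hom U.C N = finrank K (LinearMap.ker (U.pre N)) := by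
  let F : (U.C →ₗ[A] N) →ₗ[K] LinearMap.ker (U.pre N) :=
    (LinearMap.lcomp K N U.π : (U.C →ₗ[A] N) →ₗ[K] (U.P0 →ₗ[A] N)).codRestrict _ (fun φ => by
      ext x
      exact (congrArg φ (U.π_f x)).trans (map_zero φ))
  refine (LinearEquiv.ofBijective F ⟨?_, ?_⟩).finrank_eq
  · intro a b hab
    ext x
    exact LinearMap.congr_fun (congrArg Subtype.val hab) x
  · rintro ⟨g, hg⟩
    refine ⟨(LinearMap.range U.f).liftQ g ?_, ?_⟩
    · rintro _ ⟨x, rfl⟩
      exact LinearMap.congr_fun hg x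
    · ext x; rfl

lemma th_eq (U : Pres K A) (N : Md K A) : U.th N = (hom U.C N : ℤ) - finrank K (U.ET N) := by
  have h1 := LinearMap.finrank_range_add_finrank_ker (U.pre N)
  have h2 := Submodule.finrank_quotient_add_finrank (LinearMap.range (U.pre N))
  rw [hom_C, th, hom, hom, ← h1, ← h2]
  push_cast
  ring

lemma E0_iff (U : Pres K A) (N : Md K A) : U.E0 N ↔ finrank K (U.ET N) = 0 := by
  rw [finrank_zero_iff, Submodule.Quotient.subsingleton_iff, LinearMap.range_eq_top]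
  rfl

/-- functoriality -/
def Emap (U : Pres K A) {N N' : Md K A} (φ : N →ₗ[A] N') : U.ET N →ₗ[K] U.ET N' :=
  Submodule.mapQ _ _ (LinearMap.compRight K φ : (U.P1 →ₗ[A] N) →ₗ[K] (U.P1 →ₗ[A] N')) (by
    rintro _ ⟨h, rfl⟩
    exact ⟨φ ∘ₗ h, rfl⟩)

lemma Emap_mk (U : Pres K A) {N N' : Md K A} (φ : N →ₗ[A] N') (g : U.P1 →ₗ[A] N) :
    U.Emap φ (Submodule.Quotient.mk g) = Submodule.Quotient.mk (φ ∘ₗ g) := rfl

end Pres

variable [FiniteDimensional K A]

/-- the regular module -/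
abbrev Md.reg (K A : Type) [Field K] [Ring A] [Algebra K A] [FiniteDimensional K A] : Md K A :=
  ⟨A⟩

namespace Pres

/-- underlying space of the Auslander-Reiten translate -/
def IT (U : Pres K A) : Type := Dual K (U.ET (reg K A))

noncomputable instance (U : Pres K A) : AddCommGroup U.IT :=
  inferInstanceAs (AddCommGroup (Dual K (U.ET (reg K A))))

noncomputable instance (U : Pres K A) : Module K U.IT :=
  inferInstanceAs (Module K (Dual K (U.ET (reg K A))))

instance (U : Pres K A) : FiniteDimensional K U.IT :=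
  inferInstanceAs (FiniteDimensional K (Dual K (U.ET (reg K A))))

/-- evaluation on a representative -/
def ev (U : Pres K A) (ξ : U.IT) (g : U.P1 →ₗ[A] A) : K :=
  (show Dual K (U.ET (reg K A)) from ξ) (Submodule.Quotient.mk g)

lemma ev_ext (U : Pres K A) {ξ ξ' : U.IT} (h : ∀ g, U.ev ξ g = U.ev ξ' g) : ξ = ξ' := by
  refine LinearMap.ext (R := K) (σ := RingHom.id K) (f := ξ) (g := ξ') fun e => ?_
  obtain ⟨g, rfl⟩ := Submodule.Quotient.mk_surjective _ e
  exact h g

lemma ev_add (U : Pres K A) (ξ ξ' : U.IT) (g) : U.ev (ξ + ξ') g = U.ev ξ g + U.ev ξ' g := rfl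

lemma ev_smul (U : Pres K A) (c : K) (ξ : U.IT) (g) : U.ev (c • ξ) g = c * U.ev ξ g := rfl

lemma ev_add' (U : Pres K A) (ξ : U.IT) (g g') : U.ev ξ (g + g') = U.ev ξ g + U.ev ξ g' := by
  rw [ev, Submodule.Quotient.mk_add, map_add]; rfl

lemma ev_smul' (U : Pres K A) (c : K) (ξ : U.IT) (g) : U.ev ξ (c • g) = c * U.ev ξ g := by
  rw [ev, Submodule.Quotient.mk_smul, map_smul]; rfl

lemma ev_zero' (U : Pres K A) (ξ : U.IT) : U.ev ξ 0 = 0 := by
  rw [ev, Submodule.Quotient.mk_zero, map_zero]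

lemma ev_sum' (U : Pres K A) (ξ : U.IT) {ι : Type} (s : Finset ι) (g : ι → U.P1 →ₗ[A] A) :
    U.ev ξ (∑ i ∈ s, g i) = ∑ i ∈ s, U.ev ξ (g i) := by
  classical
  induction s using Finset.induction_on with
  | empty => simp [ev_zero']
  | insert a s ha ih => rw [Finset.sum_insert ha, Finset.sum_insert ha, ev_add', ih]

lemma ev_comp (U : Pres K A) (ξ : U.IT) (h : U.P0 →ₗ[A] A) : U.ev ξ (h ∘ₗ U.f) = 0 := by
  have : (Submodule.Quotient.mk (h ∘ₗ U.f) : U.ET (reg K A)) = 0 :=
    (Submodule.Quotient.mk_eq_zero _).mpr ⟨h, rfl⟩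
  rw [ev, this, map_zero]

noncomputable instance (U : Pres K A) : SMul A U.IT :=
  ⟨fun a ξ => (U.Emap (N := reg K A) (N' := reg K A) (sp a)).dualMap ξ⟩

lemma ev_act (U : Pres K A) (a : A) (ξ : U.IT) (g) : U.ev (a • ξ) g = U.ev ξ (sp a ∘ₗ g) := rfl

noncomputable instance (U : Pres K A) : Module A U.IT where
  one_smul ξ := U.ev_ext fun g => by
    rw [ev_act]; congr 1; ext; simp
  mul_smul a b ξ := U.ev_ext fun g => by
    rw [ev_act, ev_act, ev_act]; congr 1; ext; simp [mul_assoc]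
  smul_zero a := U.ev_ext fun g => rfl
  smul_add a ξ ξ' := U.ev_ext fun g => rfl
  add_smul a b ξ := U.ev_ext fun g => by
    rw [ev_add, ev_act, ev_act, ev_act, ← ev_add']; congr 1; ext; simp [mul_add]
  zero_smul ξ := U.ev_ext fun g => by
    rw [ev_act, show sp (0 : A) ∘ₗ g = 0 by ext; simp, ev_zero']; rfl

instance (U : Pres K A) : IsScalarTower K A U.IT :=
  ⟨fun c a ξ => U.ev_ext fun g => by
    rw [ev_smul, ev_act, ev_act, ← ev_smul']; congr 1; ext; simp⟩

/-- the Auslander-Reiten translate of the presentation -/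
noncomputable def I (U : Pres K A) : Md K A := ⟨U.IT⟩

lemma hom_I (U : Pres K A) (N : Md K A) : hom N U.I = finrank K (U.ET N) := by
  let Λ0 : Dual K (U.ET N) → N → U.IT := fun l n =>
    (U.Emap (N := reg K A) (N' := N) (sp n)).dualMap l
  have hΛ0 : ∀ l n g, U.ev (Λ0 l n) g = l (Submodule.Quotient.mk (sp n ∘ₗ g)) := fun _ _ _ => rfl
  let Λ1 : Dual K (U.ET N) → (N →ₗ[A] U.IT) := fun l =>
    { toFun := Λ0 l
      map_add' := fun n n' => U.ev_ext fun g => by
        rw [ev_add, hΛ0, hΛ0, hΛ0, ← map_add, ← Submodule.Quotient.mk_add]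
        congr 2; ext; simp
      map_smul' := fun a n => U.ev_ext fun g => by
        rw [RingHom.id_apply, ev_act, hΛ0, hΛ0]
        congr 2; ext; simp [mul_smul] }
  let Λ : Dual K (U.ET N) →ₗ[K] (N →ₗ[A] U.IT) :=
    { toFun := Λ1
      map_add' := fun l l' => LinearMap.ext fun n => U.ev_ext fun g => rfl
      map_smul' := fun c l => LinearMap.ext fun n => U.ev_ext fun g => rfl }
  have hΛ : ∀ l n g, U.ev (Λ l n) g = l (Submodule.Quotient.mk (sp n ∘ₗ g)) := fun _ _ _ => rfl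
  obtain ⟨n, x, ξ, hx⟩ := dual_basis U.P1
  obtain ⟨m, y, η, hy⟩ := dual_basis U.P0
  rw [← Subspace.dual_finrank_eq]
  refine (LinearEquiv.ofBijective Λ ⟨?_, ?_⟩).finrank_eq.symm
  · rw [injective_iff_map_eq_zero]
    intro l hl
    ext g
    have h1 : ∀ (v : N) (g : U.P1 →ₗ[A] A), l (Submodule.Quotient.mk (sp v ∘ₗ g)) = 0 := by
      intro v g
      rw [← hΛ, hl]; rfl
    rw [eq_sum_sp hx g]
    simp only [map_sum, LinearMap.comp_apply, Submodule.mkQ_apply, h1, LinearMap.zero_apply]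
  · intro ψ
    let l0 : (U.P1 →ₗ[A] N) →ₗ[K] K :=
      { toFun := fun g => ∑ i, U.ev (ψ (g (x i))) (ξ i)
        map_add' := fun g g' => by
          simp only [LinearMap.add_apply, map_add, ev_add, Finset.sum_add_distrib]
        map_smul' := fun c g => by
          simp only [LinearMap.smul_apply, LinearMap.map_smul_of_tower, ev_smul,
            RingHom.id_apply, smul_eq_mul, Finset.mul_sum] }
    have h1 : ∀ (v : N) (g : U.P1 →ₗ[A] A), l0 (sp v ∘ₗ g) = U.ev (ψ v) g := by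
      intro v g
      conv_rhs => rw [eq_sum_sp (N := reg K A) hx g, ev_sum']
      change ∑ i, U.ev (ψ ((sp v ∘ₗ g) (x i))) (ξ i) = _
      refine Finset.sum_congr rfl fun i _ => ?_
      rw [← ev_act, ← ψ.map_smul]
      rfl
    refine ⟨(LinearMap.range (U.pre N)).liftQ l0 ?_, ?_⟩
    · rintro _ ⟨h, rfl⟩
      have : U.pre N h = ∑ j, sp (h (y j)) ∘ₗ (η j ∘ₗ U.f) := by
        conv_lhs => rw [eq_sum_sp hy h]
        rw [map_sum]; rfl
      rw [LinearMap.mem_ker, this, map_sum]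
      exact Finset.sum_eq_zero fun j _ => by rw [h1, ev_comp]
    · exact LinearMap.ext fun v => U.ev_ext fun g => by rw [hΛ, Submodule.liftQ_apply, h1]

theorem AR (U : Pres K A) (N : Md K A) : U.th N = (hom U.C N : ℤ) - hom N U.I := by
  rw [th_eq, hom_I]

lemma E0_iff_orth (U : Pres K A) (N : Md K A) : U.E0 N ↔ Orth N U.I := by
  rw [E0_iff, ← hom_I, hom_eq_zero]

end Pres

end Pool.Agent.P.MP_a7c6c4_al
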