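import Pool.Agent.P.MP_a7c6c4_al.Lat

/-! Algebras with at most two simple modules. -/

set_option autoImplicit false
set_option linter.unusedSectionVars false
set_option linter.style.haveILetI false

open Module

namespace Pool.Agent.P.MP_a7c6c4_al

open Md

variable {K A : Type} [Field K] [Ring A] [Algebra K A] [FiniteDimensional K A]

lemma exists_proj_top (S : Md K A) [IsSimpleModule A S] :
    ∃ (P : Md K A) (_ : Projective A P), 0 < hom P S ∧
      ∀ S' : Md K A, IsSimpleModule A S' → IsEmpty (S ≃ₗ[A] S') → hom P S' = 0 := by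
  haveI := IsSimpleModule.nontrivial A S
  let U : Pres K A := ⟨Md.zero, reg K A, 0⟩
  obtain ⟨L, l1, l2⟩ := decomp U
  have h1 := l2 S
  have h2 := hom_reg_pos S
  have h3 : hom U.P1 S = 0 := hom_eq_zero.mpr (orth_of_subsingleton_left (M := Md.zero))
  have h4 : U.th S = hom (reg K A) S := by rw [Pres.th, h3]; simp [U]
  obtain ⟨X, hX, h5⟩ := exists_pos_of_sum L (fun X => X.th S) (by omega)
  haveI : Subsingleton X.P1 := by
    obtain ⟨i1, i0, p1, p0, -, -, h6, -⟩ := (l1 X hX).2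
    refine ⟨fun x y => ?_⟩
    rw [← h6 x, ← h6 y, show i1 x = i1 y from rfl]
  have hloc : LocEnd X.P0 := by
    intro γ
    refine ((l1 X hX).1 0 γ fun x => ?_).imp (fun h => h.2) (fun h => h.2)
    rw [Subsingleton.elim x 0]; simp
  have h6 : 0 < hom X.P0 S := by
    rw [Pres.th] at h5
    omega
  refine ⟨X.P0, X.pr0, h6, fun S' _ hne => hom_eq_zero.mpr fun p' => ?_⟩
  by_contra hp0
  obtain ⟨p, hp1⟩ := exists_of_hom_ne h6.ne'
  have hp := LinearMap.surjective_of_ne_zero hp1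
  let q : X.P0.sub (LinearMap.ker p) →ₗ[A] S' := p' ∘ₗ (LinearMap.ker p).subtype
  by_cases hq : q = 0
  · let r : S →ₗ[A] S' := (LinearMap.ker p).liftQ p'
      (fun x hx => LinearMap.congr_fun hq ⟨x, hx⟩) ∘ₗ
        (p.quotKerEquivOfSurjective hp).symm.toLinearMap
    refine hne.false (LinearEquiv.ofBijective r (LinearMap.bijective_of_ne_zero
      fun h0 => hp0 (LinearMap.ext fun x => ?_)))
    have := LinearMap.congr_fun h0 (p x)
    simpa [r] using this
  · obtain ⟨α, hα⟩ := projective_lifting_property q p' (LinearMap.surjective_of_ne_zero hq)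
    rcases hloc ((LinearMap.ker p).subtype ∘ₗ α) with h7 | h7
    · exact hp0 (eq_zero_of_nilp h7 p' fun x => LinearMap.congr_fun hα x)
    · refine hp1 (LinearMap.ext fun x => ?_)
      obtain ⟨x, rfl⟩ := h7.2 x
      exact (α x).2

lemma exists_simple_quo (M : Md K A) [Nontrivial M] :
    ∃ N : Submodule A M, N ≠ ⊤ ∧ IsSimpleModule A (M.quo N) := by
  obtain ⟨N, hN, -⟩ := (eq_top_or_exists_le_coatom (⊥ : Submodule A M)).resolve_left bot_ne_top
  exact ⟨N, hN.1, isSimpleModule_iff_isCoatom.mpr hN⟩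

lemma Addi.pos {ρ : Md K A → ℤ} (h : Addi ρ) (hs : ∀ S : Md K A, IsSimpleModule A S → 0 < ρ S)
    (M : Md K A) [Nontrivial M] : 0 < ρ M := by
  obtain ⟨N, -, h1⟩ := exists_simple_quo M
  have h2 := h.quo M N
  have h3 := hs _ h1
  have h4 := h.nonneg (fun S hS => (hs S hS).le) (M.sub N)
  omega

lemma FinIso.of_iso {𝒳 𝒴 : Md K A → Prop} (h : FinIso 𝒴)
    (h' : ∀ M, 𝒳 M → ∃ N, 𝒴 N ∧ Nonempty (M ≃ₗ[A] N)) : FinIso 𝒳 := by
  obtain ⟨l, hl⟩ := h
  refine ⟨l, fun M hM => ?_⟩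
  obtain ⟨N, h1, ⟨e⟩⟩ := h' M hM
  obtain ⟨S, h2, ⟨e'⟩⟩ := hl N h1
  exact ⟨S, h2, ⟨e.trans e'⟩⟩

lemma IsLat.zsmul {θ : Md K A → ℤ} (h : IsLat θ) (a : ℤ) : IsLat (a • θ) := by
  obtain ⟨n, rfl | rfl⟩ := Int.eq_nat_or_neg a
  · rw [natCast_zsmul]; exact h.nsmul n
  · rw [neg_smul, natCast_zsmul]; exact (h.nsmul n).neg

lemma exists_stable_quo {θ : Md K A → ℤ} (h : Addi θ) {M : Md K A} (hM : TT θ M)
    {N0 : Submodule A M} (h0 : N0 ≠ ⊤) (h1 : θ (M.quo N0) = 0) :
    ∃ (Q : Md K A) (p : M →ₗ[A] Q), Function.Surjective p ∧ Stable θ Q := by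
  classical
  have hex : ∃ n, ∃ (Q : Md K A) (p : M →ₗ[A] Q), Function.Surjective p ∧ Nontrivial Q ∧
      θ Q = 0 ∧ Q.dim = n :=
    ⟨_, M.quo N0, N0.mkQ, N0.mkQ_surjective, Submodule.Quotient.nontrivial_iff.mpr h0, h1, rfl⟩
  obtain ⟨Q, p, h2, h3, h4, h5⟩ := Nat.find_spec hex
  refine ⟨Q, p, h2, h3, h4, fun N h6 h7 => ?_⟩
  have h8 := (hM.of_surj h p h2) N
  have h9 := h.quo Q N
  by_contra hc
  have h10 := Nat.find_min' hex ⟨Q.quo N, N.mkQ ∘ₗ p, N.mkQ_surjective.comp h2,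
    Submodule.Quotient.nontrivial_iff.mpr h7, by omega, rfl⟩
  have h11 := dim_lt_of_surj (N := Q.quo N) N.mkQ N.mkQ_surjective
    (fun hi => h6 (by rw [← N.ker_mkQ]; exact LinearMap.ker_eq_bot.mpr hi))
  omega

lemma exists_min_slope {x y : Md K A → ℤ} (hx : Addi x) (hy : Addi y) (hx0 : ∀ M, 0 ≤ x M)
    (hy0 : ∀ M, 0 ≤ y M) (hρ : ∀ M : Md K A, Nontrivial M → 0 < x M + y M) (M : Md K A)
    [Nontrivial M] : ∃ N0 : Submodule A M, N0 ≠ ⊤ ∧
      TT ((-y (M.quo N0)) • x + x (M.quo N0) • y) M := by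
  classical
  let F : Finset (ℤ × ℤ) := (Finset.Icc 0 (x M) ×ˢ Finset.Icc 0 (y M)).filter
    fun p => ∃ N : Submodule A M, N ≠ ⊤ ∧ p = (x (M.quo N), y (M.quo N))
  have hF : ∀ N : Submodule A M, N ≠ ⊤ → (x (M.quo N), y (M.quo N)) ∈ F := by
    intro N hN
    have h1 := hx.quo M N
    have h2 := hy.quo M N
    have h3 := hx0 (M.sub N)
    have h4 := hy0 (M.sub N)
    simp only [F, Finset.mem_filter, Finset.mem_product, Finset.mem_Icc]
    exact ⟨⟨⟨hx0 _, by omega⟩, hy0 _, by omega⟩, N, hN, rfl⟩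
  obtain ⟨p, hp, hmin⟩ := F.exists_min_image (fun p => (p.2 : ℚ) / (p.1 + p.2))
    ⟨_, hF ⊥ bot_ne_top⟩
  obtain ⟨N0, h0, rfl⟩ := (Finset.mem_filter.mp hp).2
  refine ⟨N0, h0, fun N => ?_⟩
  have hadd := (hx.smul (-y (M.quo N0))).add (hy.smul (x (M.quo N0)))
  by_cases hN : N = ⊤
  · rw [hN, hadd.top]
  have h1 := hadd.quo M N
  have h2 := hmin _ (hF N hN)
  have h3 := hρ (M.quo N0) (Submodule.Quotient.nontrivial_iff.mpr h0)
  have h4 := hρ (M.quo N) (Submodule.Quotient.nontrivial_iff.mpr hN)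
  rw [div_le_div_iff₀ (by exact_mod_cast h3) (by exact_mod_cast h4)] at h2
  have h5 : y (M.quo N0) * (x (M.quo N) + y (M.quo N))
      ≤ y (M.quo N) * (x (M.quo N0) + y (M.quo N0)) := by exact_mod_cast h2
  have h6 : 0 ≤ ((-y (M.quo N0)) • x + x (M.quo N0) • y) (M.quo N) := by
    simp only [Pi.add_apply, Pi.smul_apply, smul_eq_mul]
    nlinarith
  omega

lemma two_rays {p q p' q' x y x' y' : ℤ} (hp : p ≤ 0) (hp' : p' ≤ 0) (hx : 0 ≤ x) (hy : 0 ≤ y)
    (hx' : 0 ≤ x') (hy' : 0 ≤ y') (h1 : 0 < p * x + q * y) (h2 : p * x' + q * y' = 0)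
    (h3 : p' * x + q' * y = 0) (h4 : 0 < p' * x' + q' * y') : False := by
  have a1 : 0 < q * y := by nlinarith
  have a2 : 0 < q' * y' := by nlinarith
  have b1 : 0 < q := by by_contra h; nlinarith
  have b2 : 0 < q' := by by_contra h; nlinarith
  have c1 : 0 < y := by by_contra h; nlinarith
  have c2 : 0 < y' := by by_contra h; nlinarith
  have d1 : 0 < x' := by
    by_contra h
    have : x' = 0 := by omega
    rw [this] at h2
    nlinarith
  have d2 : 0 < x := by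
    by_contra h
    have : x = 0 := by omega
    rw [this] at h3
    nlinarith
  have e1 : 0 < q * (y * x' - y' * x) := by nlinarith
  have e2 : 0 < q' * (y' * x - y * x') := by nlinarith
  have f1 := (mul_pos_iff_of_pos_left b1).mp e1
  have f2 := (mul_pos_iff_of_pos_left b2).mp e2
  omega

theorem oneside (hall : ∀ θ : Md K A → ℤ, IsLat θ → HasFam θ) (S S' : Md K A)
    [IsSimpleModule A S] [IsSimpleModule A S'] (hne : IsEmpty (S ≃ₗ[A] S'))
    (hS : ∀ T : Md K A, IsSimpleModule A T → Nonempty (T ≃ₗ[A] S) ∨ Nonempty (T ≃ₗ[A] S')) :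
    FinIso (fun M : Md K A => Brick M ∧ Orth M S) := by
  classical
  obtain ⟨Px, _, x1, x2⟩ := exists_proj_top S
  obtain ⟨Py, _, y1, y2⟩ := exists_proj_top S'
  have x3 := x2 S' inferInstance hne
  have y3 := y2 S inferInstance ⟨fun e => hne.false e.symm⟩
  set x : Md K A → ℤ := fun N => (hom Px N : ℤ) with hxd
  set y : Md K A → ℤ := fun N => (hom Py N : ℤ) with hyd
  have hxl : IsLat x := isLat_hom Px
  have hyl : IsLat y := isLat_hom Py
  have hx := hxl.addi
  have hy := hyl.addi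
  have hx0 : ∀ M, 0 ≤ x M := fun M => Int.natCast_nonneg _
  have hy0 : ∀ M, 0 ≤ y M := fun M => Int.natCast_nonneg _
  have xS : 0 < x S := Int.natCast_pos.mpr x1
  have yS' : 0 < y S' := Int.natCast_pos.mpr y1
  have xS' : x S' = 0 := Int.natCast_eq_zero.mpr x3
  have yS : y S = 0 := Int.natCast_eq_zero.mpr y3
  have hρ : ∀ M : Md K A, Nontrivial M → 0 < x M + y M := by
    intro M _
    refine (hx.add hy).pos (fun T hT => ?_) M
    rcases hS T hT with ⟨⟨e⟩⟩ | ⟨⟨e⟩⟩ <;> rw [(hx.add hy).iso e, Pi.add_apply] <;> omega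
  have hform : ∀ η : Md K A → ℤ, Addi η → ∀ N,
      x S * y S' * η N = (η S * y S') * x N + (η S' * x S) * y N := by
    intro η hη N
    have := ((hη.smul (x S * y S')).sub ((hx.smul (η S * y S')).add (hy.smul (η S' * x S)))).eq_zero
      (fun T hT => by
        simp only [Pi.sub_apply, Pi.add_apply, Pi.smul_apply, smul_eq_mul]
        rcases hS T hT with ⟨⟨e⟩⟩ | ⟨⟨e⟩⟩
        · rw [hη.iso e, hx.iso e, hy.iso e, yS]; ring
        · rw [hη.iso e, hx.iso e, hy.iso e, xS']; ring) N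
    simp only [Pi.sub_apply, Pi.add_apply, Pi.smul_apply, smul_eq_mul] at this
    omega
  refine (finIso_plane (θ := x) (η := y)
    fun a b => hall _ ((hxl.zsmul a).add (hyl.zsmul b))).of_iso ?_
  rintro M ⟨hM, hMS⟩
  haveI := hM.1
  obtain ⟨N0, h0, hT⟩ := exists_min_slope hx hy hx0 hy0 hρ M
  set θ := (-y (M.quo N0)) • x + x (M.quo N0) • y with hθ
  have hθl : IsLat θ := (hxl.zsmul _).add (hyl.zsmul _)
  have h := hθl.addi
  obtain ⟨Q, p, hp, hQ⟩ := exists_stable_quo h hT h0 (by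
    simp only [hθ, Pi.add_apply, Pi.smul_apply, smul_eq_mul]; ring)
  refine ⟨Q, ⟨_, _, hQ⟩, ?_⟩
  have hθS : θ S < 0 := by
    haveI : Nontrivial (M.quo N0) := Submodule.Quotient.nontrivial_iff.mpr h0
    obtain ⟨N1, h1, h2⟩ := exists_simple_quo (M.quo N0)
    have h3 : 0 < y ((M.quo N0).quo N1) := by
      rcases hS _ h2 with ⟨⟨e⟩⟩ | ⟨⟨e⟩⟩
      · exfalso
        haveI := IsSimpleModule.nontrivial A S
        obtain ⟨s, hs⟩ := exists_ne (0 : S)
        have h4 := hMS (e.toLinearMap ∘ₗ N1.mkQ ∘ₗ N0.mkQ)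
        obtain ⟨m, rfl⟩ := (e.surjective.comp (N1.mkQ_surjective.comp N0.mkQ_surjective)) s
        exact hs (LinearMap.congr_fun h4 m)
      · rw [hy.iso e]; exact yS'
    have h4 := hy.quo (M.quo N0) N1
    have h5 := hy0 ((M.quo N0).sub N1)
    simp only [hθ, Pi.add_apply, Pi.smul_apply, smul_eq_mul, yS]
    nlinarith
  obtain ⟨V, hV, hVθ⟩ := (hall θ hθl).pres
  have hR : V.ap.Rigid := (V.E0_iff_orth _).mp hV
  let n0 : ℕ := (x V.I + y V.I).toNat + 1
  obtain ⟨κ, _, U, n, hI, hc, hinj, hn, hg⟩ := hall _ ((hθl.nsmul n0).add (hxl.add hyl))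
  simp only [Pi.add_apply, nsm_apply] at hg
  have hc' : ∀ k l, Orth (U l).C (U k).I := fun k l => ((U k).E0_iff_orth _).mp (hc k l)
  have h1 : ∀ k, TT θ (U k).C := by
    have h2 : trS U Finset.univ V.I = ⊥ := by
      by_contra h3
      set t := V.I.sub (trS U Finset.univ V.I)
      have h4 : 0 ≤ ∑ k, n k * (U k).th t := Finset.sum_nonneg fun k _ => by
        have : (U k).th t = _ := (U k).ap.th_of_orth_I (orth_iSup _ fun j => (hc' k j).tr _)
        rw [this]; positivity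
      have h5 : V.th t = -hom t V.I := V.ap.th_of_orth_C
        (Orth.of_inj hR (M := t) (Submodule.subtype _) (Submodule.injective_subtype _))
      have h6 := hom_pos (M := t) (N := V.I) (Submodule.subtype _) fun h0 => h3 (by
        rw [← Submodule.range_subtype (trS U Finset.univ V.I), h0, LinearMap.range_zero])
      have h7 := hx.quo V.I (trS U Finset.univ V.I)
      have h8 := hy.quo V.I (trS U Finset.univ V.I)
      have h9 := hx0 (V.I.quo (trS U Finset.univ V.I))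
      have h10 := hy0 (V.I.quo (trS U Finset.univ V.I))
      rw [← hg, ← hVθ, h5] at h4
      have h11 : x V.I + y V.I < n0 := by simp only [n0]; omega
      change x V.I = x t + _ at h7
      change y V.I = y t + _ at h8
      nlinarith [Int.natCast_nonneg n0]
    intro k
    rw [← hVθ]
    refine V.ap.tt_of_orth fun φ => ?_
    exact LinearMap.range_eq_bot.mp (le_bot_iff.mp (h2 ▸ range_le_trS U (Finset.mem_univ k) φ))
  have h2 : ∀ k, (U k).th S ≤ 0 := by
    intro k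
    have h3 : Orth (U k).C S := by
      intro φ
      by_contra hφ
      have := ((h1 k).of_surj h φ (LinearMap.surjective_of_ne_zero hφ)).nonneg h
      omega
    have : (U k).th S = _ := (U k).ap.th_of_orth_C h3
    omega
  obtain ⟨G, -, g2, g3⟩ := exists_minimal U Finset.univ
  have hone : ∀ k ∈ G, ∀ l ∈ G, l = k := by
    intro k hk l hl
    by_contra hkl
    obtain ⟨B, p, b1, b2, -, b3, -⟩ := exists_test hI hc hinj g2 (g3 k hk)
    obtain ⟨B', p', c1, c2, -, c3, -⟩ := exists_test hI hc hinj g2 (g3 l hl)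
    have e1 : (U k).th B = hom (U k).C B := (U k).ap.th_of_orth_I ((hc' k k).of_surj p b1)
    have e2 : (U l).th B = hom (U l).C B := (U l).ap.th_of_orth_I ((hc' l k).of_surj p b1)
    have e3 : (U k).th B' = hom (U k).C B' := (U k).ap.th_of_orth_I ((hc' k l).of_surj p' c1)
    have e4 : (U l).th B' = hom (U l).C B' := (U l).ap.th_of_orth_I ((hc' l l).of_surj p' c1)
    rw [hom_eq_zero.mpr (b3 l (Finset.mem_univ _) hkl)] at e2
    rw [hom_eq_zero.mpr (c3 k (Finset.mem_univ _) (Ne.symm hkl))] at e3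
    have e5 := Int.natCast_pos.mpr (hom_pos p b2)
    have e6 := Int.natCast_pos.mpr (hom_pos p' c2)
    have f1 := hform _ (U k).addi_th B
    have f2 := hform _ (U k).addi_th B'
    have f3 := hform _ (U l).addi_th B
    have f4 := hform _ (U l).addi_th B'
    have f5 := mul_pos xS yS'
    refine two_rays (mul_nonpos_of_nonpos_of_nonneg (h2 k) yS'.le)
      (mul_nonpos_of_nonpos_of_nonneg (h2 l) yS'.le) (hx0 B) (hy0 B) (hx0 B') (hy0 B')
      (lt_of_lt_of_eq ?_ f1) (f2.symm.trans ?_) (f3.symm.trans ?_) (lt_of_lt_of_eq ?_ f4)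
    · rw [e1]; exact mul_pos f5 e5
    · rw [e3]; simp
    · rw [e2]; simp
    · rw [e4]; exact mul_pos f5 e6
  have hgen : ∀ Z : Md K A, Nontrivial Z → 0 ≤ θ Z → ∃ k ∈ G, ¬ Orth (U k).C Z := by
    intro Z hZ hZ0
    by_contra hcon
    push Not at hcon
    have h3 : ∑ k, n k * (U k).th Z ≤ 0 := Finset.sum_nonpos fun k _ => by
      have : (U k).th Z = _ :=
        (U k).ap.th_of_orth_C (orth_of_trS U (g2 k (Finset.mem_univ _)) hcon)
      rw [this]
      exact mul_nonpos_of_nonneg_of_nonpos (Int.natCast_nonneg _) (by omega)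
    have h4 := hρ Z hZ
    have h5 := mul_nonneg (Int.natCast_nonneg n0) hZ0
    rw [← hg] at h3
    omega
  obtain ⟨k, hk, hkM⟩ := hgen M hM.1 (hT.nonneg h)
  obtain ⟨k', hk', hkQ⟩ := hgen Q hQ.1 hQ.2.1.ge
  obtain rfl := hone k hk k' hk'
  obtain ⟨B, b, b1, -, b2, -, b3⟩ := exists_test hI hc hinj g2 (g3 k' hk)
  obtain ⟨φ, hφ⟩ := exists_of_hom_ne fun h0 =>
    b3 M hkM (fun j hj hjk => absurd (hone k' hk j hj) hjk) (hom_eq_zero.mp h0)
  obtain ⟨ψ, hψ⟩ := exists_of_hom_ne fun h0 =>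
    b3 Q hkQ (fun j hj hjk => absurd (hone k' hk j hj) hjk) (hom_eq_zero.mp h0)
  have hB := (h1 k').of_surj h b b1
  have hs := hQ.surj_of_TT h hB ψ hψ
  have hi : Function.Injective ψ := by
    by_contra hcon
    obtain ⟨j, hj, h3⟩ := hgen (B.sub (LinearMap.ker ψ))
      (Submodule.nontrivial_iff_ne_bot.mpr fun h0 => hcon (LinearMap.ker_eq_bot.mp h0))
      ((hB.ker h ψ hs hQ.2.1).nonneg h)
    obtain rfl := hone k' hk j hj
    refine h3 fun χ => ?_
    by_contra hχ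
    have h4 := b2 ((LinearMap.ker ψ).subtype ∘ₗ χ) fun h0 =>
      hχ (LinearMap.ext fun z => Subtype.ext (LinearMap.congr_fun h0 z))
    refine hψ (LinearMap.ext fun z => ?_)
    obtain ⟨z, rfl⟩ := h4 z
    exact (χ z).2
  let e := LinearEquiv.ofBijective ψ ⟨hi, hs⟩
  have h3 := hM.2 (φ ∘ₗ e.symm.toLinearMap ∘ₗ p) fun h0 => hφ (LinearMap.ext fun z => by
    obtain ⟨m, rfl⟩ := (e.symm.surjective.comp hp) z
    exact LinearMap.congr_fun h0 m)
  exact ⟨LinearEquiv.ofBijective p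
    ⟨Function.Injective.of_comp (f := φ ∘ₗ e.symm.toLinearMap) h3.1, hp⟩⟩

theorem rank_two (hall : ∀ θ : Md K A → ℤ, IsLat θ → HasFam θ) (S S' : Md K A)
    (hS : ∀ T : Md K A, IsSimpleModule A T → Nonempty (T ≃ₗ[A] S) ∨ Nonempty (T ≃ₗ[A] S')) :
    FinIso (Brick : Md K A → Prop) := by
  have h0 : FinIso (fun M : Md K A => IsSimpleModule A M) :=
    ⟨[S, S'], fun M hM => by simpa using hS M hM⟩
  have key : ∀ M : Md K A, Brick M → ¬ IsSimpleModule A M → ∃ T T' : Md K A,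
      IsSimpleModule A T ∧ IsSimpleModule A T' ∧ Orth M T ∧ ¬ Orth M T' := by
    intro M hM hs
    haveI := hM.1
    obtain ⟨N, h1, h2⟩ := exists_simple_quo M
    obtain ⟨N', hN', -⟩ := (eq_bot_or_exists_atom_le (⊤ : Submodule A M)).resolve_left top_ne_bot
    haveI : IsSimpleModule A (M.sub N') := isSimpleModule_iff_isAtom.mpr hN'
    refine ⟨M.sub N', M.quo N, inferInstance, h2, fun φ => ?_, fun h => h1 ?_⟩
    · by_contra hφ
      have h3 := hM.2 (N'.subtype ∘ₗ φ) fun h0 =>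
        hφ (LinearMap.ext fun z => Subtype.ext (LinearMap.congr_fun h0 z))
      exact hs (IsSimpleModule.congr (LinearEquiv.ofBijective φ
        ⟨Function.Injective.of_comp (f := N'.subtype) h3.1, LinearMap.surjective_of_ne_zero hφ⟩))
    · rw [← N.ker_mkQ, h N.mkQ, LinearMap.ker_zero]
  have horth : ∀ {M T T' : Md K A}, Orth M T → (T ≃ₗ[A] T') → Orth M T' :=
    fun h e => h.of_inj e.symm.toLinearMap e.symm.injective
  by_cases h : IsSimpleModule A S ∧ IsSimpleModule A S' ∧ IsEmpty (S ≃ₗ[A] S')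
  · obtain ⟨_, _, h⟩ := h
    refine ((h0.or (oneside hall S S' h hS)).or (oneside hall S' S ⟨fun e => h.false e.symm⟩
      fun T hT => (hS T hT).symm)).mono fun M hM => ?_
    by_cases hs : IsSimpleModule A M
    · exact Or.inl (Or.inl hs)
    obtain ⟨T, T', h1, -, h3, -⟩ := key M hM hs
    rcases hS T h1 with ⟨⟨e⟩⟩ | ⟨⟨e⟩⟩
    · exact Or.inl (Or.inr ⟨hM, horth h3 e⟩)
    · exact Or.inr ⟨hM, horth h3 e⟩
  · refine h0.mono fun M hM => ?_
    by_contra hs
    obtain ⟨T, T', h1, h2, h3, h4⟩ := key M hM hs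
    rcases hS T h1 with ⟨⟨e⟩⟩ | ⟨⟨e⟩⟩ <;> rcases hS T' h2 with ⟨⟨e'⟩⟩ | ⟨⟨e'⟩⟩
    · exact h4 (horth h3 (e.trans e'.symm))
    · exact h ⟨IsSimpleModule.congr e.symm, IsSimpleModule.congr e'.symm,
        ⟨fun g => h4 (horth h3 (e.trans (g.trans e'.symm)))⟩⟩
    · exact h ⟨IsSimpleModule.congr e'.symm, IsSimpleModule.congr e.symm,
        ⟨fun g => h4 (horth h3 (e.trans (g.symm.trans e'.symm)))⟩⟩
    · exact h4 (horth h3 (e.trans e'.symm))

end Pool.Agent.P.MP_a7c6c4_al
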